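import Pool.Agent.H17.UC.Abu
import Pool.Agent.H82.LX.Ab4

/-!
# The abstract theorem, counting form with a general mass `X` (as `ab4` in `Pool/Agent/H82/LX/Ab4.lean`)
-/

set_option autoImplicit false

open Finset H69PG

namespace H78TP

variable {ι : Type} [Fintype ι] [DecidableEq ι]

open Classical in
theorem abx {m N : ℕ} (hN1 : 1 ≤ N) {v : ℕ → ℝ} {l vm τ : ℝ} {V : Finset ι → ℝ} {μ : ℝ} (h : Vh V μ (4 * N)) {s q : ℕ → ℝ}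
    (hs : ∀ a, 0 ≤ s a) (hs0 : s 0 = 1) (hv : ∀ a, 0 ≤ v a) (hv0 : v 0 = 0) (hvm : ∀ a ∈ Icc 1 m, v a ≤ vm)
    (hN : ∀ a ∈ Icc 1 m, l ≤ N * v a) (hl0 : 0 ≤ l) (hτ : 0 ≤ τ)
    (hq : ∀ a, 0 ≤ q a) (hq1 : ∑ a ∈ Icc 1 m, q a = 1)
    {T : Finset ℕ} {g : ι → ℕ → ℕ → ℝ} {β th : ι → ℕ → ℝ} {ρ : ι → ℕ → Prop} {η G C0 X : ℝ} (hη : 0 ≤ η) (hG : 0 ≤ G)
    (hX : 0 < X) (hXT : (T.card : ℝ) ≤ 2 * X)
    (hC0 : 1 ≤ C0) (hg0 : ∀ i t, g i 0 t = 1) (hβ : ∀ i t, 0 ≤ β i t) (hth : ∀ i t, th i t = 0 ∨ th i t = 1)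
    (hg : ∀ i, ∀ t ∈ T, ∀ a ∈ Icc 1 m, |g i a t| ≤ C0 * th i t)
    (hρ : ∀ i, ∀ t ∈ T, ρ i t → 1 ≤ β i t ∧ ∀ a ∈ Icc 1 m, g i a t = - q a)
    (h1 : ∀ n ∈ Cf ι m N v l, ∀ n' ∈ Cf ι m N v l,
      |∑ t ∈ T, ∏ i, (g i (n i) t * g i (n' i) t) - X * (if n = n' then ms V s n else 0)| ≤
        X * (η * V (sp n ∪ sp n')))
    (h2 : ∀ k : ι, ∀ n ∈ Cf ι m N v l, ∀ n' ∈ Cf ι m N v l, n k = 0 → n' k = 0 →
      |∑ t ∈ T, (∏ i, (g i (n i) t * g i (n' i) t)) * β k t -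
          X * (if n = n' then G * (V (insert k (sp n)) * ∏ i, s (n i)) else 0)| ≤
        X * (η * V (insert k (sp n ∪ sp n'))))
    (h4 : ∀ U : Finset ι, U.card ≤ 4 * N → ∑ t ∈ T, ∏ i ∈ U, th i t ≤ 2 * (T.card : ℝ) * V U)
    (hE1 : η * (1 + ((m : ℝ) + 1) ^ 2 * μ) ^ (2 * N) ≤ 1 / 8)
    (hE2 : η * ((2 * (N : ℝ) + 1) * (1 + ((m : ℝ) + 1) ^ 2 * μ) ^ (2 * N + 1)) ≤ 1 / 8)
    (hB : G * (μ * Real.exp (μ * (∑ a ∈ Icc 1 m, s a * (Real.exp (τ * v a) - 1)) - τ * (l - vm))) ≤ 1 / 8) :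
    X ≤ 8 * ((1 + m * C0) ^ (4 * N) * ((4 * N).factorial : ℝ) * 2 ^ (4 * N + 1) * (1 + μ) ^ (4 * N)) *
      ((T.filter (fun t => ∀ k, ¬ ρ k t)).card : ℝ) := by
  have hμ : 0 ≤ μ := h.μ_nonneg
  have hT0 : (0 : ℝ) ≤ (T.card : ℝ) := Nat.cast_nonneg _
  have hZ0 : (0 : ℝ) ≤ ((T.filter (fun t => ∀ k, ¬ ρ k t)).card : ℝ) := Nat.cast_nonneg _
  have hMM : 1 ≤ MM m N v l V s := Abs_MM h.nonneg h.empty hs hs0 hv0 hl0
  have h1' : ∀ n ∈ Cf ι m N v l, ∀ n' ∈ Cf ι m N v l,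
      |∑ t ∈ T, (1 : ℝ) * ∏ i, (g i (n i) t * g i (n' i) t) - X * (if n = n' then ms V s n else 0)| ≤
        X * (η * V (sp n ∪ sp n')) := by
    intro n hn n' hn'
    simpa only [one_mul] using h1 n hn n' hn'
  have h2' : ∀ k : ι, ∀ n ∈ Cf ι m N v l, ∀ n' ∈ Cf ι m N v l, n k = 0 → n' k = 0 →
      |∑ t ∈ T, (1 : ℝ) * ((∏ i, (g i (n i) t * g i (n' i) t)) * β k t) -
          X * (if n = n' then G * (V (insert k (sp n)) * ∏ i, s (n i)) else 0)| ≤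
        X * (η * V (insert k (sp n ∪ sp n'))) := by
    intro k n hn n' hn' hk hk'
    simpa only [one_mul] using h2 k n hn n' hn' hk hk'
  have hsec := H91CH.secw (v := v) (l := l) (Abs_vh h (by omega : 2 * N ≤ 4 * N)) hX.le hη h1'
  have hup := UC.upu (w := fun _ => 1) (Abs_vh h (by omega : 2 * N + 1 ≤ 4 * N)) hv hv0 hq hq1 (fun _ => zero_le_one) hX.le hη hg0 hβ hρ h2'
  have hbd := H82LX.bd2 (Abs_vh h (by omega : N + 1 ≤ 4 * N)) hs hs0 hv hv0 hvm hN hτ hq hq1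
  have hfrt := frt (v := v) (l := l) h hC0 hg0 hth hg h4
  simp only [one_mul] at hsec hup
  obtain ⟨M, hM⟩ : ∃ M : ℝ, M = MM m N v l V s := ⟨_, rfl⟩
  rw [← hM] at hMM hsec hbd
  obtain ⟨E, hE⟩ : ∃ E : ℝ, E = Real.exp (μ * (∑ a ∈ Icc 1 m, s a * (Real.exp (τ * v a) - 1)) - τ * (l - vm)) := ⟨_, rfl⟩
  rw [← hE] at hbd hB
  obtain ⟨C4, hC4⟩ : ∃ C4 : ℝ, C4 = (1 + m * C0) ^ (4 * N) * ((4 * N).factorial : ℝ) * 2 ^ (4 * N + 1) *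
    (1 + μ) ^ (4 * N) := ⟨_, rfl⟩
  rw [← hC4] at hfrt ⊢
  have hC40 : 0 ≤ C4 := by
    rw [hC4]
    have : 0 ≤ C0 := by linarith
    positivity
  have ha : X * (M - 1 / 8) ≤ ∑ t ∈ T, Ps m N v l g t ^ 2 := by
    have h8 := mul_le_mul_of_nonneg_left hE1 hX.le
    have h9 := (abs_le.1 hsec).1
    linarith
  have hGb : G * (∑ k : ι, ∑ n ∈ (Cf ι m N v l).filter (fun n => n k = 0),
      om N v l q n ^ 2 * (V (insert k (sp n)) * ∏ i, s (n i))) ≤ 1 / 8 * M := by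
    calc _ ≤ G * (μ * (E * M)) := mul_le_mul_of_nonneg_left hbd hG
      _ = G * (μ * E) * M := by ring
      _ ≤ 1 / 8 * M := mul_le_mul_of_nonneg_right hB (by linarith)
  have hb : ∑ k : ι, ∑ t ∈ T.filter (fun t => ρ k t), Ps m N v l g t ^ 2 ≤ X * (M / 8 + 1 / 8) := by
    refine hup.trans (mul_le_mul_of_nonneg_left ?_ hX.le)
    linarith
  have hsp := Abs_split T ρ (fun t => Ps m N v l g t ^ 2) (fun t => sq_nonneg _)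
  have hc : X / 2 ≤ ∑ t ∈ T.filter (fun t => ∀ k, ¬ ρ k t), Ps m N v l g t ^ 2 := by
    have h7 : X * (M - 1 / 8) - X * (M / 8 + 1 / 8) ≤
        ∑ t ∈ T.filter (fun t => ∀ k, ¬ ρ k t), Ps m N v l g t ^ 2 := by linarith
    refine le_trans ?_ h7
    have h8 : X * (1 / 2) ≤ X * (M - 1 / 8 - (M / 8 + 1 / 8)) :=
      mul_le_mul_of_nonneg_left (by linarith) hX.le
    linarith
  have hd : (∑ t ∈ T.filter (fun t => ∀ k, ¬ ρ k t), Ps m N v l g t ^ 2) ^ 2 ≤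
      ((T.filter (fun t => ∀ k, ¬ ρ k t)).card : ℝ) * ((T.card : ℝ) * C4) := by
    refine (sq_sum_le_card_mul_sum_sq (s := T.filter (fun t => ∀ k, ¬ ρ k t))
      (f := fun t => Ps m N v l g t ^ 2)).trans (mul_le_mul_of_nonneg_left ?_ hZ0)
    refine le_trans ?_ hfrt
    calc ∑ t ∈ T.filter (fun t => ∀ k, ¬ ρ k t), (Ps m N v l g t ^ 2) ^ 2
        ≤ ∑ t ∈ T, (Ps m N v l g t ^ 2) ^ 2 :=
          Finset.sum_le_sum_of_subset_of_nonneg (Finset.filter_subset _ _) (fun t _ _ => sq_nonneg _)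
      _ = ∑ t ∈ T, Ps m N v l g t ^ 4 := Finset.sum_congr rfl fun t _ => by ring
  have he : (X / 2) ^ 2 ≤ ((T.filter (fun t => ∀ k, ¬ ρ k t)).card : ℝ) * ((T.card : ℝ) * C4) :=
    (pow_le_pow_left₀ (by positivity) hc 2).trans hd
  have hf : ((T.filter (fun t => ∀ k, ¬ ρ k t)).card : ℝ) * ((T.card : ℝ) * C4) ≤
      ((T.filter (fun t => ∀ k, ¬ ρ k t)).card : ℝ) * ((2 * X) * C4) :=
    mul_le_mul_of_nonneg_left (mul_le_mul_of_nonneg_right hXT hC40) hZ0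
  refine le_of_mul_le_mul_left ?_ hX
  linarith

end H78TP
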