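import Pool.Agent.H78.TP.Fi
import Pool.Agent.H78.CB.Ch

/-!
# The shifts `binom(p_k - 1, (p_k - 1)/2)`
-/

set_option autoImplicit false

namespace H78TP

open Pool.Agent.H78.CB

lemma pr_le {k : ℕ} (hk : 2 ≤ k) : (pr k : ℝ) ≤ 45 * (k * Real.log k) := by
  have h3 := three_le_pr hk
  have hc := cheb h3
  rw [pi_pr (by omega)] at hc
  have hl := log_pr_le hk
  have hk0 : (0 : ℝ) ≤ k := Nat.cast_nonneg k
  have h1 : (k : ℝ) * Real.log (pr k : ℝ) ≤ k * (9 * Real.log k) := mul_le_mul_of_nonneg_left hl hk0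
  linarith

lemma cb_le {k : ℕ} (hk : 2 ≤ k) : (cb k : ℝ) ≤ Real.exp (45 * (k * Real.log k)) := by
  have h1 : cb k ≤ 2 ^ (pr k - 1) := Nat.choose_le_two_pow _ _
  have h2 : (cb k : ℝ) ≤ 2 ^ (pr k) := by
    have h3 : cb k ≤ 2 ^ (pr k) := h1.trans (Nat.pow_le_pow_right (by norm_num) (Nat.sub_le _ _))
    exact_mod_cast h3
  have h4 : (2 : ℝ) ^ (pr k) ≤ Real.exp (pr k) := by
    have h5 : (2 : ℝ) ≤ Real.exp 1 := by
      have := Real.add_one_le_exp (1 : ℝ)
      linarith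
    calc (2 : ℝ) ^ (pr k) ≤ Real.exp 1 ^ (pr k) := pow_le_pow_left₀ (by norm_num) h5 _
      _ = Real.exp (pr k) := by rw [← Real.exp_nat_mul, mul_one]
  exact h2.trans (h4.trans (Real.exp_le_exp.2 (pr_le hk)))

theorem cbmain : ∃ c : ℝ, 0 < c ∧ ∃ x0 : ℝ, ∀ x : ℝ, x0 ≤ x → ∃ n : ℕ, 1 ≤ n ∧ x / 3 ≤ (pr n : ℝ) ∧ (pr n : ℝ) ≤ x ∧
    ∀ k : ℕ, 1 < k → (k : ℝ) ≤ c * Real.log x → ¬ (pr n + cb k).Prime ∧
      ∃ q : ℕ, q.Prime ∧ (q : ℝ) ≤ x ^ (1 / 64 : ℝ) ∧ q ∣ pr n + cb k := by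
  classical
  obtain ⟨c, x0, hc, hmain⟩ := main
  refine ⟨min c (1 / 45), by positivity, max x0 (Real.exp 64), ?_⟩
  intro x hx
  have hx1 : x0 ≤ x := (le_max_left _ _).trans hx
  have hx2 : Real.exp 64 ≤ x := (le_max_right _ _).trans hx
  have hx0 : 0 < x := (Real.exp_pos _).trans_le hx2
  have hL64 : 64 ≤ Real.log x := (Real.le_log_iff_exp_le hx0).2 hx2
  have hx1' : 1 ≤ x := by
    have := Real.add_one_le_exp (64 : ℝ)
    linarith
  obtain ⟨L, hL⟩ : ∃ L : ℝ, L = Real.log x := ⟨_, rfl⟩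
  rw [← hL] at hL64
  have hL0 : 0 < L := by linarith
  have hlL : 0 ≤ Real.log L := Real.log_nonneg (by linarith)
  set S : Finset ℤ := (Finset.Icc 2 ⌊min c (1 / 45) * L⌋₊).image (fun k => ((cb k : ℕ) : ℤ)) with hSdef
  have hcard : (S.card : ℝ) ≤ c * Real.log x := by
    have h1 : S.card ≤ ⌊min c (1 / 45) * L⌋₊ := by
      refine Finset.card_image_le.trans ?_
      rw [Nat.card_Icc]
      omega
    have h2 : (S.card : ℝ) ≤ min c (1 / 45) * L := le_trans (by exact_mod_cast h1) (Nat.floor_le (by positivity))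
    rw [← hL]
    exact h2.trans (mul_le_mul_of_nonneg_right (min_le_left _ _) hL0.le)
  obtain ⟨p, hp, hp1, hp2, hp3⟩ := hmain x hx1 S hcard (by
    intro s hs
    rw [hSdef, Finset.mem_image] at hs
    obtain ⟨k, hk, rfl⟩ := hs
    rw [Finset.mem_Icc] at hk
    have hkL : (k : ℝ) ≤ min c (1 / 45) * L := le_trans (by exact_mod_cast hk.2) (Nat.floor_le (by positivity))
    have hkL2 : (k : ℝ) ≤ 1 / 45 * L := hkL.trans (mul_le_mul_of_nonneg_right (min_le_right _ _) hL0.le)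
    have hk2 : (2 : ℝ) ≤ k := by exact_mod_cast hk.1
    have hpos := cb_pos k
    refine ⟨by exact_mod_cast hpos.ne', ?_, ?_⟩
    · have h1 : (0 : ℝ) ≤ (((cb k : ℕ) : ℤ) : ℝ) := by exact_mod_cast Nat.zero_le _
      linarith
    · have h1 : (((cb k : ℕ) : ℤ) : ℝ) = (cb k : ℝ) := by push_cast; rfl
      rw [h1]
      refine (cb_le hk.1).trans (Real.exp_le_exp.2 ?_)
      rw [← hL]
      have h2 : Real.log k ≤ Real.log L := Real.log_le_log (by linarith) (by linarith)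
      have h3 : (k : ℝ) * Real.log k ≤ 1 / 45 * L * Real.log L :=
        mul_le_mul hkL2 h2 (Real.log_nonneg (by linarith)) (by positivity)
      linarith)
  have hn : pr (Nat.primeCounting p) = p := by
    unfold pr
    have h1 : Nat.primeCounting p = Nat.count Nat.Prime p + 1 := by
      unfold Nat.primeCounting Nat.primeCounting'
      rw [Nat.count_succ, if_pos hp]
    rw [h1, Nat.add_sub_cancel]
    exact Nat.nth_count hp
  refine ⟨Nat.primeCounting p, ?_, ?_, ?_, ?_⟩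
  · have h1 : Nat.primeCounting p = Nat.count Nat.Prime p + 1 := by
      unfold Nat.primeCounting Nat.primeCounting'
      rw [Nat.count_succ, if_pos hp]
    omega
  · rw [hn]
    exact hp1
  · rw [hn]
    exact hp2
  · intro k hk1 hk2
    rw [hn]
    obtain ⟨q, hq1, hq2, hq3⟩ := hp3 ((cb k : ℕ) : ℤ) (by
      rw [hSdef, Finset.mem_image]
      refine ⟨k, ?_, rfl⟩
      rw [Finset.mem_Icc]
      exact ⟨hk1, Nat.le_floor (by rw [hL]; exact hk2)⟩)
    have hq4 : q ∣ p + cb k := by exact_mod_cast hq3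
    refine ⟨?_, q, hq1, hq2, hq4⟩
    intro hpr
    have h1 : q = p + cb k := (Nat.prime_dvd_prime_iff_eq hq1 hpr).1 hq4
    have h2 := UC.Cru_x64 hx1' (by rw [← hL]; exact hL64)
    have h3 : (p : ℝ) ≤ q := by
      rw [h1]
      push_cast
      have : (0 : ℝ) ≤ (cb k : ℝ) := Nat.cast_nonneg _
      linarith
    linarith

end H78TP
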