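import Pool.Agent.H78.TP.Df
import Pool.Agent.H17.UC.Vcl
import Pool.Agent.H52.GS.Zfu

/-!
# Properties of the densities (as `Pool/Agent/H17/UC/Vcl.lean`)
-/

set_option autoImplicit false

open Finset EG H69PG H73PC

namespace H78TP

theorem Vq_ph {V w z p : ℕ} (c0 : Option ℕ) (hp : p ∈ H52GS.PK V w z) (h2 : 2 ≤ w) :
    (p : ℝ) - 1 ≤ ph c0 p ∧ ph c0 p ≤ p ∧ (w : ℝ) ≤ ph c0 p ∧ 0 < ph c0 p := by
  have h1 := (mem_PKv.1 hp).1.1
  have h1' : (w : ℝ) + 1 ≤ p := by exact_mod_cast h1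
  have h2' : (2 : ℝ) ≤ w := by exact_mod_cast h2
  unfold ph
  split_ifs
  · exact ⟨by linarith, le_refl _, by linarith, by linarith⟩
  · exact ⟨le_refl _, by linarith, by linarith, by linarith⟩

theorem Vq_frac {V w z p j : ℕ} (c0 : Option ℕ) (hp : p ∈ H52GS.PK V w z) (h2 : 2 ≤ w) (h : 4 * j ≤ w) :
    0 ≤ (j : ℝ) / ph c0 p ∧ (j : ℝ) / ph c0 p ≤ 1 / 4 := by
  obtain ⟨_, _, h3, h4⟩ := Vq_ph c0 hp h2
  refine ⟨by positivity, ?_⟩
  rw [div_le_iff₀ h4]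
  have h' : (4 : ℝ) * j ≤ w := by exact_mod_cast h
  linarith

theorem vq_zero (V w z : ℕ) (c0 : Option ℕ) : Vq V w z c0 0 = 1 := by
  unfold Vq
  simp

theorem vq_pos {V w z j : ℕ} (c0 : Option ℕ) (h2 : 2 ≤ w) (h : 4 * j ≤ w) : 0 < Vq V w z c0 j := by
  unfold Vq
  refine Finset.prod_pos (fun p hp => ?_)
  have := (Vq_frac c0 hp h2 h).2
  linarith

theorem vq_anti {V w z j j' : ℕ} (c0 : Option ℕ) (h2 : 2 ≤ w) (hj : j ≤ j') (h : 4 * j' ≤ w) : Vq V w z c0 j' ≤ Vq V w z c0 j := by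
  unfold Vq
  refine Finset.prod_le_prod (fun p hp => ?_) (fun p hp => ?_)
  · have := (Vq_frac c0 hp h2 h).2
    linarith
  · obtain ⟨_, _, _, h4⟩ := Vq_ph c0 hp h2
    have hjj : (j : ℝ) ≤ j' := by exact_mod_cast hj
    have : (j : ℝ) / ph c0 p ≤ (j' : ℝ) / ph c0 p := by gcongr
    linarith

theorem vq_one (V w z : ℕ) : Vq V w z none 1 = H52GS.VV V w z 1 := by
  unfold Vq H52GS.VV
  refine Finset.prod_congr rfl (fun p hp => ?_)
  rw [UC.Vcl_none]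

/-- the density of one more form, given a prime form -/
theorem vq_succ {V w z j : ℕ} (c0 : Option ℕ) (h2 : 2 ≤ w) (h : 4 * (j + 1) ≤ w) :
    Vq V w z c0 (j + 1) ≤ Vq V w z none 1 * Vq V w z c0 j := by
  unfold Vq
  rw [← Finset.prod_mul_distrib]
  refine Finset.prod_le_prod (fun p hp => ?_) (fun p hp => ?_)
  · have := (Vq_frac c0 hp h2 h).2
    linarith
  · obtain ⟨_, h5, _, h4⟩ := Vq_ph c0 hp h2
    rw [UC.Vcl_none]
    have hp0 : (0 : ℝ) < p := lt_of_lt_of_le h4 h5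
    have h6 : 1 / (p : ℝ) ≤ 1 / ph c0 p := one_div_le_one_div_of_le h4 h5
    have e1 : ((j + 1 : ℕ) : ℝ) / ph c0 p = (j : ℝ) / ph c0 p + 1 / ph c0 p := by
      push_cast
      ring
    have h7 : 0 ≤ 1 / (p : ℝ) * ((j : ℝ) / ph c0 p) := by positivity
    have e2 : (1 - ((1 : ℕ) : ℝ) / (p : ℝ)) * (1 - (j : ℝ) / ph c0 p) =
        1 - (j : ℝ) / ph c0 p - 1 / (p : ℝ) + 1 / (p : ℝ) * ((j : ℝ) / ph c0 p) := by
      push_cast
      ring
    rw [e1, e2]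
    linarith

theorem vq_ge {V w z j : ℕ} (c0 : Option ℕ) (h2 : 2 ≤ w) (h : 4 * j ≤ w) : UC.Vc 0 w z c0 j ≤ Vq V w z c0 j := by
  unfold UC.Vc Vq
  have hsub : H52GS.PK V w z ⊆ UC.PKe 0 w z := by
    intro p hp
    rw [UC.mem_PKe]
    have h1 := mem_PKv.1 hp
    exact ⟨by have := h1.2.1.pos; omega, h1.1.1, h1.1.2, h1.2.1⟩
  rw [← Finset.prod_sdiff hsub]
  refine mul_le_of_le_one_left ?_ ?_
  · refine Finset.prod_nonneg fun p hp => ?_
    have := (Vq_frac c0 hp h2 h).2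
    linarith
  · refine Finset.prod_le_one (fun p hp => ?_) (fun p hp => ?_)
    · have := (UC.Vcl_frac c0 (Finset.mem_sdiff.1 hp).1 h2 h).2
      linarith
    · have := (UC.Vcl_frac c0 (Finset.mem_sdiff.1 hp).1 h2 h).1
      linarith

theorem vq_low : ∃ C : ℝ, 1 ≤ C ∧ ∀ (V w z j : ℕ) (c0 : Option ℕ), 2 ≤ w → 4 * j ≤ w → w ≤ z →
    1 / (C * Real.log z) ^ (8 * j) ≤ Vq V w z c0 j := by
  obtain ⟨C, hC, h⟩ := UC.vc_low
  exact ⟨C, hC, fun V w z j c0 h2 hj hz => (h 0 w z j c0 h2 hj hz).trans (vq_ge c0 h2 hj)⟩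

theorem vqh {ι : Type} [Fintype ι] [DecidableEq ι] {V w z J : ℕ} (c0 : Option ℕ) (h2 : 2 ≤ w) (h : 4 * J ≤ w) :
    Vh (UC.Vk (Vq V w z c0) 0 J : Finset ι → ℝ) ((Fintype.card ι : ℝ) * Vq V w z none 1) J := by
  have hk : Vq V w z c0 0 = 1 := vq_zero V w z c0
  have hone : 0 ≤ Vq V w z none 1 := by
    unfold Vq
    refine Finset.prod_nonneg fun p hp => ?_
    have h1 := (mem_PKv.1 hp).2.1.one_lt.le
    rw [UC.Vcl_none]
    have h3 : (1 : ℝ) ≤ p := by exact_mod_cast h1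
    have h4 : ((1 : ℕ) : ℝ) / (p : ℝ) ≤ 1 := by
      rw [div_le_one (by linarith)]
      push_cast
      exact h3
    linarith
  refine ⟨fun U => ?_, ?_, mul_nonneg (Nat.cast_nonneg _) hone, ?_⟩
  · unfold UC.Vk
    split_ifs with hU
    · exact div_nonneg (vq_pos c0 h2 (by omega)).le (by rw [hk]; norm_num)
    · exact le_refl _
  · unfold UC.Vk
    rw [if_pos (by simp)]
    simp only [Finset.card_empty, add_zero]
    rw [hk]
    norm_num
  · intro A hA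
    have h1 : ∀ i ∈ Aᶜ, UC.Vk (Vq V w z c0) 0 J (insert i A) = Vq V w z c0 (A.card + 1) := by
      intro i hi
      unfold UC.Vk
      rw [Finset.card_insert_of_notMem (Finset.mem_compl.1 hi), if_pos (by omega), hk, zero_add, div_one]
    rw [Finset.sum_congr rfl h1, Finset.sum_const, nsmul_eq_mul]
    have h3 : UC.Vk (Vq V w z c0) 0 J A = Vq V w z c0 A.card := by
      unfold UC.Vk
      rw [if_pos hA.le, hk, zero_add, div_one]
    rw [h3]
    have h4 := vq_succ (V := V) (z := z) (j := A.card) c0 h2 (by omega)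
    have h5 : ((Aᶜ).card : ℝ) ≤ (Fintype.card ι : ℝ) := by exact_mod_cast Finset.card_le_univ _
    have h6 : 0 ≤ Vq V w z c0 (A.card + 1) := (vq_pos c0 h2 (by omega)).le
    calc ((Aᶜ).card : ℝ) * Vq V w z c0 (A.card + 1) ≤
        (Fintype.card ι : ℝ) * (Vq V w z none 1 * Vq V w z c0 A.card) := by
          gcongr
      _ = (Fintype.card ι : ℝ) * Vq V w z none 1 * Vq V w z c0 A.card := by ring

end H78TP
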