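import Pool.Agent.H78.TP.Ev
import Pool.Agent.H78.TP.Vc
import Pool.Agent.H17.UC.Abu
import Pool.Agent.H52.GS.CoU

/-!
# The abstract theorem applied along primes (as `Pool/Agent/H17/UC/Cog.lean`, without the cluster)
-/

set_option autoImplicit false

open Finset EG H69PG H73PC

namespace H78TP

variable {ι : Type} [Fintype ι] [DecidableEq ι]

lemma Co_vk {V w z J : ℕ} (c0 : Option ℕ) (U : Finset ι) (hU : U.card ≤ J) :
    UC.Vk (Vq V w z c0) 0 J U = Vq V w z c0 U.card := by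
  unfold UC.Vk
  rw [if_pos hU, vq_zero, zero_add, div_one]

open Classical in
theorem cov {N m M V w z W R Sm J y0 : ℕ} {Z : ℕ → ℕ} {v f0 : ℕ → ℝ} {l vm τ Γ η Y : ℝ} {c0 : Option ℕ}
    (hS : Sv ι N m M V z R Sm Z v f0 l Γ) (hN : 1 ≤ N) {c : ι → ℕ} {Ts : Finset ℕ}
    (h2w : 2 ≤ w) (hJw : 4 * J ≤ w) (hJ : 2 * N + 1 ≤ J) (hY : 0 < Y)
    (hMv : Mvv V (H52GS.th0 V w z) (Vq V w z c0) z W (2 * M) J Sm Γ η Ts Y c)
    (hv0 : ∀ a, 0 ≤ v a) (hv00 : v 0 = 0) (hvm : ∀ a ∈ Icc 1 m, v a ≤ vm) (hNl : ∀ a ∈ Icc 1 m, l ≤ N * v a)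
    (hl0 : 0 ≤ l) (hτ : 0 ≤ τ)
    (hq1 : ∑ a ∈ Icc 1 m, f0 a * wA Z (primorial z * V) a = 1) (hRy : R ≤ y0) (hzy : z ≤ y0) (hZy : ∀ a ≤ m, Z a ≤ y0)
    (hE1 : η * (1 + ((m : ℝ) + 1) ^ 2 * ((Fintype.card ι : ℝ) * Vq V w z none 1)) ^ (2 * N) ≤ 1 / 8)
    (hE2 : 2 * (η * ((2 * (N : ℝ) + 1) *
      (1 + ((m : ℝ) + 1) ^ 2 * ((Fintype.card ι : ℝ) * Vq V w z none 1)) ^ (2 * N + 1))) ≤ 1 / 8)
    (hB : 2 * (1 / GG (primorial z * V) R * (((Fintype.card ι : ℝ) * Vq V w z none 1) *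
      Real.exp (((Fintype.card ι : ℝ) * Vq V w z none 1) *
        (∑ a ∈ Icc 1 m, f0 a ^ 2 * wA Z (primorial z * V) a * (Real.exp (τ * v a) - 1)) - τ * (l - vm)))) ≤ 1 / 4) :
    ∃ t ∈ Ts, ∀ i, ∃ p : ℕ, p.Prime ∧ p ≤ y0 ∧ p ∣ W * t + c i := by
  have hη : 0 ≤ η := hMv.2.1
  have hf0 := hS.f0_nonneg
  set Q := primorial z * V with hQ
  have hs0 : ∀ a, 0 ≤ sA Z Q f0 a := by
    intro a
    unfold sA
    split_ifs
    · exact zero_le_one
    · exact mul_nonneg (sq_nonneg _) (wA_nonneg _ hS.Zm a)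
  have hsum1 : ∑ a ∈ Icc 1 m, sA Z Q f0 a * (Real.exp (τ * v a) - 1) =
      ∑ a ∈ Icc 1 m, f0 a ^ 2 * wA Z Q a * (Real.exp (τ * v a) - 1) := by
    refine Finset.sum_congr rfl fun a ha => ?_
    unfold sA
    rw [if_neg (by have := (Finset.mem_Icc.1 ha).1; omega)]
  have hVh : Vh (UC.Vk (Vq V w z c0) 0 (2 * N + 1) : Finset ι → ℝ) ((Fintype.card ι : ℝ) * Vq V w z none 1) (2 * N + 1) :=
    vqh c0 h2w (by omega)
  have hcard : ∀ n ∈ Cf ι m N v l, ∀ n' ∈ Cf ι m N v l, (sp n ∪ sp n').card ≤ 2 * N := by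
    intro n hn n' hn'
    have h1 : (sp n).card ≤ N := ((Finset.mem_filter.1 hn).2).1
    have h2 : (sp n').card ≤ N := ((Finset.mem_filter.1 hn').2).1
    have h3 := Finset.card_union_le (sp n) (sp n')
    omega
  have hcard1 : ∀ n ∈ Cf ι m N v l, (sp n).card ≤ N := fun n hn => ((Finset.mem_filter.1 hn).2).1
  have hA : ∀ n ∈ Cf ι m N v l, ∀ n' ∈ Cf ι m N v l,
      |∑ t ∈ Ts, (1 : ℝ) * ∏ i, (H52GS.gA V w z W Z f0 c i (n i) t * H52GS.gA V w z W Z f0 c i (n' i) t) -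
        Y * (if n = n' then ms (UC.Vk (Vq V w z c0) 0 (2 * N + 1)) (sA Z Q f0) n else 0)| ≤
        Y * (η * UC.Vk (Vq V w z c0) 0 (2 * N + 1) (sp n ∪ sp n')) := by
    intro n hn n' hn'
    have h := evA hS hJ hMv hn hn'
    rw [Co_vk c0 _ (by have := hcard n hn n' hn'; omega)]
    have e1 : (if n = n' then ms (UC.Vk (Vq V w z c0) 0 (2 * N + 1)) (sA Z Q f0) n else 0) =
        (if n = n' then Vq V w z c0 (sp n).card * ∏ i, sA Z (primorial z * V) f0 (n i) else 0) := by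
      split_ifs
      · unfold ms
        rw [Co_vk c0 _ (by have := hcard1 n hn; omega)]
      · rfl
    rw [e1]
    have e2 : Y * (η * Vq V w z c0 (sp n ∪ sp n').card) = η * (Y * Vq V w z c0 (sp n ∪ sp n').card) := by ring
    rw [e2]
    simpa only [one_mul] using h
  have hres := UC.abu (ι := ι) (m := m) (N := N) (v := v) (l := l) (vm := vm) (τ := τ)
    (V := UC.Vk (Vq V w z c0) 0 (2 * N + 1)) (μ := (Fintype.card ι : ℝ) * Vq V w z none 1) hVh hN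
    (s := sA Z Q f0) (q := fun a => f0 a * wA Z Q a)
    hs0 (by unfold sA; simp) hv0 hv00 hvm hNl hl0 hτ
    (fun a => mul_nonneg (hf0 a) (wA_nonneg _ hS.Zm a)) hq1
    (κ := Fin 2) (M := 1) le_rfl (by simp)
    (T := Ts) (g := H52GS.gA V w z W Z f0 c) (β := H52GS.bA V w z W R c)
    (ρ := fun i t => ∀ p : ℕ, p.Prime → p ≤ y0 → ¬ p ∣ W * t + c i)
    (η := η) (G := 1 / GG Q R)
    hη (by have := H52GS.CoU_GG Q R; positivity)
    (fun i t => by unfold H52GS.gA; simp)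
    (fun i t => H52GS.CoU_bA V w z W R c i t)
    (fun i t _ hr => H52GS.rough hS.Z0 hS.Zm hS.R_pos hRy hzy hZy hr)
    (pr := fun _ _ => True)
    (w := fun _ => 1)
    (fun t => zero_le_one)
    (X := Y) (Xj := fun _ => Y) hY (fun _ => hY.le)
    (Vj := fun _ => UC.Vk (Vq V w z c0) 0 (2 * N + 1)) (fun _ => hVh) (fun _ U => le_rfl)
    hA
    (fun _ n hn n' hn' => by simpa only [if_true] using hA n hn n' hn')
    (fun k n hn n' hn' hk hk' => by
      have h := evB hS hJ hMv hn hn' k hk hk'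
      have hc1 := hcard n hn n' hn'
      have hc2 : (insert k (sp n ∪ sp n')).card ≤ 2 * N + 1 := (Finset.card_insert_le _ _).trans (by omega)
      have hc3 : (insert k (sp n)).card ≤ 2 * N + 1 := (Finset.card_insert_le _ _).trans (by have := hcard1 n hn; omega)
      rw [Co_vk c0 _ hc2, Co_vk c0 _ hc3]
      have e2 : Y * (η * Vq V w z c0 (insert k (sp n ∪ sp n')).card) = η * (Y * Vq V w z c0 (insert k (sp n ∪ sp n')).card) := by ring
      rw [e2]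
      simpa only [one_mul] using h)
    (by
      simp only [Finset.sum_const, Finset.card_univ, Fintype.card_fin, nsmul_eq_mul]
      push_cast
      linarith)
    hE1 (by simpa using hE2) (by rw [hsum1]; simpa using hB)
  obtain ⟨t, ht, h1, -⟩ := hres
  refine ⟨t, ht, fun i => ?_⟩
  have h3 := h1 i
  push Not at h3
  exact h3

end H78TP
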