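import Pool.Agent.H78.TP.Co
import Pool.Agent.H78.TP.Abx

/-!
# The counting form of the abstract theorem applied along primes
-/

set_option autoImplicit false

open Finset EG H69PG H73PC

namespace H78TP

variable {ι : Type} [Fintype ι] [DecidableEq ι]

open Classical in
theorem cow {N m M M' V w z W R Sm J y0 : ℕ} {Z : ℕ → ℕ} {v f0 : ℕ → ℝ} {l vm τ Γ η Y : ℝ} {c0 : Option ℕ}
    (hS : Sv ι N m M V z R Sm Z v f0 l Γ) (hN : 1 ≤ N) {c : ι → ℕ} {Ts : Finset ℕ}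
    (h2w : 2 ≤ w) (hJw : 4 * J ≤ w) (hJ : 2 * N + 1 ≤ J) (hJ4 : 4 * N ≤ J) (hY : 0 < Y) (hSm : 1 ≤ Sm)
    (hMv : Mvv V (H52GS.th0 V w z) (Vq V w z c0) z W (2 * M) J Sm Γ η Ts Y c) (hη8 : η ≤ 1 / 8)
    (hc1 : ∀ i, 1 ≤ c i) (hLz : ∀ i, ∀ t ∈ Ts, W * t + c i ≤ z ^ M')
    (hv0 : ∀ a, 0 ≤ v a) (hv00 : v 0 = 0) (hvm : ∀ a ∈ Icc 1 m, v a ≤ vm) (hNl : ∀ a ∈ Icc 1 m, l ≤ N * v a)
    (hl0 : 0 ≤ l) (hτ : 0 ≤ τ)
    (hq1 : ∑ a ∈ Icc 1 m, f0 a * wA Z (primorial z * V) a = 1) (hRy : R ≤ y0) (hzy : z ≤ y0) (hZy : ∀ a ≤ m, Z a ≤ y0)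
    (hE1 : η * (1 + ((m : ℝ) + 1) ^ 2 * ((Fintype.card ι : ℝ) * Vq V w z none 1)) ^ (2 * N) ≤ 1 / 8)
    (hE2 : η * ((2 * (N : ℝ) + 1) *
      (1 + ((m : ℝ) + 1) ^ 2 * ((Fintype.card ι : ℝ) * Vq V w z none 1)) ^ (2 * N + 1)) ≤ 1 / 8)
    (hB : 1 / GG (primorial z * V) R * (((Fintype.card ι : ℝ) * Vq V w z none 1) *
      Real.exp (((Fintype.card ι : ℝ) * Vq V w z none 1) *
        (∑ a ∈ Icc 1 m, f0 a ^ 2 * wA Z (primorial z * V) a * (Real.exp (τ * v a) - 1)) - τ * (l - vm))) ≤ 1 / 8) :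
    Y ≤ 8 * ((1 + m * (2 * Γ * 2 ^ M')) ^ (4 * N) * ((4 * N).factorial : ℝ) * 2 ^ (4 * N + 1) *
        (1 + (Fintype.card ι : ℝ) * Vq V w z none 1) ^ (4 * N)) *
      ((Ts.filter (fun t => ∀ i, ∃ p : ℕ, p.Prime ∧ p ≤ y0 ∧ p ∣ W * t + c i)).card : ℝ) := by
  have hη : 0 ≤ η := hMv.2.1
  have hf0 := hS.f0_nonneg
  set Q := primorial z * V with hQ
  have hz1 : 1 ≤ z := by have := hS.z2; omega
  have hs0 : ∀ a, 0 ≤ sA Z Q f0 a := by
    intro a
    unfold sA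
    split_ifs
    · exact zero_le_one
    · exact mul_nonneg (sq_nonneg _) (wA_nonneg _ hS.Zm a)
  have hsum1 : ∑ a ∈ Icc 1 m, sA Z Q f0 a * (Real.exp (τ * v a) - 1) =
      ∑ a ∈ Icc 1 m, f0 a ^ 2 * wA Z Q a * (Real.exp (τ * v a) - 1) := by
    refine Finset.sum_congr rfl fun a ha => ?_
    unfold sA
    rw [if_neg (by have := (Finset.mem_Icc.1 ha).1; omega)]
  have hVh : Vh (UC.Vk (Vq V w z c0) 0 (4 * N) : Finset ι → ℝ) ((Fintype.card ι : ℝ) * Vq V w z none 1) (4 * N) :=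
    vqh c0 h2w (by omega)
  have hcard : ∀ n ∈ Cf ι m N v l, ∀ n' ∈ Cf ι m N v l, (sp n ∪ sp n').card ≤ 2 * N := by
    intro n hn n' hn'
    have h1 : (sp n).card ≤ N := ((Finset.mem_filter.1 hn).2).1
    have h2 : (sp n').card ≤ N := ((Finset.mem_filter.1 hn').2).1
    have h3 := Finset.card_union_le (sp n) (sp n')
    omega
  have hcard1 : ∀ n ∈ Cf ι m N v l, (sp n).card ≤ N := fun n hn => ((Finset.mem_filter.1 hn).2).1
  have hA : ∀ n ∈ Cf ι m N v l, ∀ n' ∈ Cf ι m N v l,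
      |∑ t ∈ Ts, ∏ i, (H52GS.gA V w z W Z f0 c i (n i) t * H52GS.gA V w z W Z f0 c i (n' i) t) -
        Y * (if n = n' then ms (UC.Vk (Vq V w z c0) 0 (4 * N)) (sA Z Q f0) n else 0)| ≤
        Y * (η * UC.Vk (Vq V w z c0) 0 (4 * N) (sp n ∪ sp n')) := by
    intro n hn n' hn'
    have h := evA hS hJ hMv hn hn'
    rw [Co_vk c0 _ (by have := hcard n hn n' hn'; omega)]
    have e1 : (if n = n' then ms (UC.Vk (Vq V w z c0) 0 (4 * N)) (sA Z Q f0) n else 0) =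
        (if n = n' then Vq V w z c0 (sp n).card * ∏ i, sA Z (primorial z * V) f0 (n i) else 0) := by
      split_ifs
      · unfold ms
        rw [Co_vk c0 _ (by have := hcard1 n hn; omega)]
      · rfl
    rw [e1]
    have e2 : Y * (η * Vq V w z c0 (sp n ∪ sp n').card) = η * (Y * Vq V w z c0 (sp n ∪ sp n').card) := by ring
    rw [e2]
    exact h
  -- the mass
  have hth : ∀ U : Finset ι, U.card ≤ 4 * N →
      |∑ t ∈ Ts, ∏ i ∈ U, H52GS.th0 V w z (W * t + c i) - Y * Vq V w z c0 U.card| ≤ η * (Y * Vq V w z c0 U.card) := by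
    intro U hU
    have h := hMv.2.2 U (by omega) (fun _ => H52GS.th0 V w z) (fun _ => 1) (fun _ => 1)
      (fun i _ => cdv1 hz1 hS.Γ_one) (by rw [Finset.prod_const_one]; exact hSm)
    rwa [Finset.prod_const_one, mul_one] at h
  have hT : |(Ts.card : ℝ) - Y| ≤ η * Y := by
    have h := hth ∅ (by simp)
    simp only [Finset.prod_empty, Finset.sum_const, nsmul_eq_mul, mul_one, Finset.card_empty, vq_zero] at h
    exact h
  have hTY1 : (Ts.card : ℝ) ≤ 2 * Y := by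
    have h1 := (abs_le.1 hT).2
    have h2 := mul_le_mul_of_nonneg_right hη8 hY.le
    linarith
  have hTY2 : Y ≤ 8 / 7 * (Ts.card : ℝ) := by
    have h1 := (abs_le.1 hT).1
    have h2 := mul_le_mul_of_nonneg_right hη8 hY.le
    linarith
  have h4 : ∀ U : Finset ι, U.card ≤ 4 * N → ∑ t ∈ Ts, ∏ i ∈ U, H52GS.th0 V w z (W * t + c i) ≤
      2 * (Ts.card : ℝ) * UC.Vk (Vq V w z c0) 0 (4 * N) U := by
    intro U hU
    rw [Co_vk c0 _ hU]
    have h1 := (abs_le.1 (hth U hU)).2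
    have hV0 : 0 ≤ Vq V w z c0 U.card := (vq_pos c0 h2w (by omega)).le
    have h2 : η * (Y * Vq V w z c0 U.card) ≤ 1 / 8 * (Y * Vq V w z c0 U.card) :=
      mul_le_mul_of_nonneg_right hη8 (mul_nonneg hY.le hV0)
    have h3 : Y * Vq V w z c0 U.card ≤ 8 / 7 * (Ts.card : ℝ) * Vq V w z c0 U.card := mul_le_mul_of_nonneg_right hTY2 hV0
    have h5 : 0 ≤ (Ts.card : ℝ) * Vq V w z c0 U.card := mul_nonneg (Nat.cast_nonneg _) hV0
    linarith
  have hC0 : (1 : ℝ) ≤ 2 * Γ * 2 ^ M' := by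
    have h1 := hS.Γ_one
    have h2 : (1 : ℝ) ≤ 2 ^ M' := one_le_pow₀ (by norm_num)
    nlinarith
  have hres := abx (ι := ι) (m := m) (N := N) hN (v := v) (l := l) (vm := vm) (τ := τ)
    (V := UC.Vk (Vq V w z c0) 0 (4 * N)) (μ := (Fintype.card ι : ℝ) * Vq V w z none 1) hVh
    (s := sA Z Q f0) (q := fun a => f0 a * wA Z Q a)
    hs0 (by unfold sA; simp) hv0 hv00 hvm hNl hl0 hτ
    (fun a => mul_nonneg (hf0 a) (wA_nonneg _ hS.Zm a)) hq1
    (T := Ts) (g := H52GS.gA V w z W Z f0 c) (β := H52GS.bA V w z W R c)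
    (th := fun i t => H52GS.th0 V w z (W * t + c i))
    (ρ := fun i t => ∀ p : ℕ, p.Prime → p ≤ y0 → ¬ p ∣ W * t + c i)
    (η := η) (G := 1 / GG Q R) (C0 := 2 * Γ * 2 ^ M') (X := Y)
    hη (by have := H52GS.CoU_GG Q R; positivity) hY hTY1 hC0
    (fun i t => by unfold H52GS.gA; simp)
    (fun i t => H52GS.CoU_bA V w z W R c i t)
    (fun i t => th_01 V w z _)
    (fun i t ht a ha => H52GS.gA_abs (M := M) (M' := M') hS.z2 hS.hM hS.Γ_one hS.ZM hS.ΓP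
      (fun a => by rw [abs_of_nonneg (hS.f0_nonneg a)]; exact hS.f0_le a)
      (by have := hc1 i; omega) (hLz i t ht) ha)
    (fun i t _ hr => H52GS.rough hS.Z0 hS.Zm hS.R_pos hRy hzy hZy hr)
    hA
    (fun k n hn n' hn' hk hk' => by
      have h := evB hS hJ hMv hn hn' k hk hk'
      have hc1 := hcard n hn n' hn'
      have hc2 : (insert k (sp n ∪ sp n')).card ≤ 4 * N := (Finset.card_insert_le _ _).trans (by omega)
      have hc3 : (insert k (sp n)).card ≤ 4 * N := (Finset.card_insert_le _ _).trans (by have := hcard1 n hn; omega)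
      rw [Co_vk c0 _ hc2, Co_vk c0 _ hc3]
      have e2 : Y * (η * Vq V w z c0 (insert k (sp n ∪ sp n')).card) = η * (Y * Vq V w z c0 (insert k (sp n ∪ sp n')).card) := by ring
      rw [e2]
      exact h)
    h4 hE1 hE2 (by rw [hsum1]; exact hB)
  refine hres.trans (le_of_eq ?_)
  congr 3
  ext t
  simp only [Finset.mem_filter]
  refine and_congr_right fun _ => forall_congr' fun i => ?_
  push Not
  rfl

end H78TP
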