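import Pool.Agent.H78.TP.Df

/-!
# Counting with prescribed divisors (as `crg0` in `Pool/Agent/H73/PC/Cr.lean`)
-/

set_option autoImplicit false

open Finset EG H69PG H73PC

namespace H78TP

open Classical in
/-- the count, from the equidistribution modulo the one modulus `(∏ B i) ∏ S` -/
theorem crv0 {ι : Type} [Fintype ι] [DecidableEq ι] {V w z W : ℕ} (hwz : w ≤ z) {c0 : Option ℕ} {c : ι → ℕ}
    (hF : FwV V w W c0 c) {Ts : Finset ℕ} {Y e : ℝ} (hE0 : 0 ≤ e) (B : ι → ℕ)
    (hBV : ∀ i, Squarefree (B i) ∧ Nat.Coprime (B i) (primorial z * V)) (hco : ∀ i i', i ≠ i' → Nat.Coprime (B i) (B i'))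
    (S : Finset ℕ) (hS : S ⊆ PK w z)
    (hmem : ∀ t ∈ Ts, ∀ p : ℕ, p.Prime → p ∣ (∏ i, B i) * ∏ p ∈ S, p → al W c0 p t)
    (hcnt : ∀ a : ℕ, (∀ p : ℕ, p.Prime → p ∣ (∏ i, B i) * ∏ p ∈ S, p → al W c0 p a) →
      |((Ts.filter (fun t => t ≡ a [MOD (∏ i, B i) * ∏ p ∈ S, p])).card : ℝ) - Y / Ph c0 ((∏ i, B i) * ∏ p ∈ S, p)| ≤ e) :
    |((Ts.filter (fun t => (∀ i, B i ∣ W * t + c i) ∧ ∀ p ∈ S, ∃ i, p ∣ W * t + c i)).card : ℝ) -
        Y / (∏ i, Ph c0 (B i)) * ∏ p ∈ S, gd W c0 c p| ≤ (Fintype.card ι : ℝ) ^ S.card * e := by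
  have hB : ∀ i, Squarefree (B i) ∧ Nat.Coprime (B i) (primorial z) := fun i =>
    ⟨(hBV i).1, Nat.Coprime.coprime_dvd_right (Dvd.intro V rfl) (hBV i).2⟩
  have hBnV : ∀ i, ∀ p : ℕ, p.Prime → p ∣ B i → ¬ p ∣ V := by
    intro i p hp h1 h6
    have h7 := Nat.dvd_gcd h1 (h6.mul_left (primorial z))
    rw [(hBV i).2] at h7
    exact hp.one_lt.ne' (Nat.dvd_one.1 h7)
  have hSp : ∀ p ∈ S, w < p ∧ p ≤ z ∧ p.Prime := fun p hp => bh_mem_PK.1 (hS hp)
  have hBz : ∀ i, ∀ p : ℕ, p.Prime → p ∣ B i → z < p := by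
    intro i p hp hpB
    by_contra hpz
    push Not at hpz
    have h2 : Nat.Coprime (B i) p :=
      Nat.Coprime.coprime_dvd_right ((hp.dvd_primorial_iff).2 hpz) (hB i).2
    have h3 := Nat.Coprime.eq_one_of_dvd h2.symm hpB
    exact hp.one_lt.ne' h3
  have hB0 : ∀ i, B i ≠ 0 := fun i => (hB i).1.ne_zero
  set b := ∏ i, B i with hbdef
  set q := ∏ p ∈ S, p with hqdef
  have hb0 : b ≠ 0 := prod_ne_zero_iff.2 fun i _ => hB0 i
  have hq0 : q ≠ 0 := prod_ne_zero_iff.2 fun p hp => (hSp p hp).2.2.ne_zero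
  have hbsq : Squarefree b := sqf_prod univ B (fun i _ => (hB i).1) (fun i _ i' _ h => hco i i' h)
  have hqsq : Squarefree q := sqf_prod S (fun p => p) (fun p hp => (hSp p hp).2.2.prime.squarefree)
    (fun p hp p' hp' h => (Nat.coprime_primes (hSp p hp).2.2 (hSp p' hp').2.2).2 h)
  have hbq : Nat.Coprime b q := by
    rw [hbdef, hqdef]
    refine Nat.Coprime.prod_left fun i _ => Nat.Coprime.prod_right fun p hp => ?_
    obtain ⟨h1, h2, h3⟩ := hSp p hp
    exact Nat.Coprime.coprime_dvd_right ((h3.dvd_primorial_iff).2 h2) (hB i).2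
  set d := b * q with hddef
  have hd0 : d ≠ 0 := mul_ne_zero hb0 hq0
  have hdsq : Squarefree d := (Nat.squarefree_mul hbq).2 ⟨hbsq, hqsq⟩
  have hqP : q.primeFactors = S := Nat.primeFactors_prod fun p hp => (hSp p hp).2.2
  have hPd : d.primeFactors = b.primeFactors ∪ S := by
    rw [hddef, Nat.primeFactors_mul hb0 hq0, hqP]
  have hbi : ∀ p : ℕ, p ∈ b.primeFactors → ∃ i, p ∣ B i := by
    intro p hp
    have h1 := Nat.prime_of_mem_primeFactors hp
    have h2 := Nat.dvd_of_mem_primeFactors hp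
    rw [hbdef, h1.prime.dvd_finsetProd_iff] at h2
    obtain ⟨i, _, hi⟩ := h2
    exact ⟨i, hi⟩
  have hdisj : Disjoint b.primeFactors S := by
    rw [← hqP]
    exact hbq.disjoint_primeFactors
  have hdw : ∀ p : ℕ, p.Prime → p ∣ d → w < p := by
    intro p hp hpd
    have h1 : p ∈ d.primeFactors := Nat.mem_primeFactors.2 ⟨hp, hpd, hd0⟩
    rw [hPd, mem_union] at h1
    rcases h1 with h1 | h1
    · obtain ⟨i, hi⟩ := hbi p h1
      have := hBz i p hp hi
      omega
    · exact (hSp p h1).1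
  set A : ℕ → ℕ → Prop := fun p a => al W c0 p a ∧ (p ∈ S → ∃ i, p ∣ W * a + c i) ∧ ∀ i, p ∣ B i → p ∣ W * a + c i with hA
  have hAmod : ∀ p t t' : ℕ, t ≡ t' [MOD p] → (A p t ↔ A p t') := by
    intro p t t' h
    simp only [hA]
    rw [al_iff h]
    simp only [dv_mod h]
  set Rs := (range d).filter (fun r => ∀ p ∈ d.primeFactors, A p (r % p)) with hRs
  have hiff : ∀ t ∈ Ts, (((∀ i, B i ∣ W * t + c i) ∧ ∀ p ∈ S, ∃ i, p ∣ W * t + c i) ↔ t % d ∈ Rs) := by
    intro t ht
    rw [hRs, mem_filter, mem_range]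
    have e1 : (∀ p ∈ d.primeFactors, A p (t % d % p)) ↔ ∀ p ∈ d.primeFactors, A p t := by
      refine forall₂_congr fun p hp => ?_
      rw [Nat.mod_mod_of_dvd _ (Nat.dvd_of_mem_primeFactors hp)]
      exact hAmod p _ _ (Nat.mod_modEq t p)
    rw [e1]
    constructor
    · rintro ⟨h1, h2⟩
      refine ⟨Nat.mod_lt _ (Nat.pos_of_ne_zero hd0), fun p hp => ⟨?_, fun hpS => h2 p hpS, fun i hi => hi.trans (h1 i)⟩⟩
      have hpp := Nat.prime_of_mem_primeFactors hp
      have hpd := Nat.dvd_of_mem_primeFactors hp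
      exact hmem t ht p hpp hpd
    · rintro ⟨_, h1⟩
      refine ⟨fun i => (sqf_dvd (hB i).1).2 fun p hp hpB => ?_, fun p hp => ?_⟩
      · have h2 : p ∈ d.primeFactors := Nat.mem_primeFactors.2
          ⟨hp, (hpB.trans (dvd_prod_of_mem B (mem_univ i))).trans (Dvd.intro _ rfl), hd0⟩
        exact (h1 p h2).2.2 i hpB
      · have h2 : p ∈ d.primeFactors := by
          rw [hPd, mem_union]
          exact Or.inr hp
        exact (h1 p h2).2.1 hp
  have hcard : (Ts.filter (fun t => (∀ i, B i ∣ W * t + c i) ∧ ∀ p ∈ S, ∃ i, p ∣ W * t + c i)).card =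
      ∑ r ∈ Rs, (Ts.filter (fun t => t ≡ r [MOD d])).card := by
    rw [card_eq_sum_card_fiberwise (f := fun t => t % d) (t := Rs)]
    · refine sum_congr rfl fun r hr => ?_
      congr 1
      ext t
      rw [mem_filter, mem_filter, mem_filter]
      have hrd : r % d = r := Nat.mod_eq_of_lt (mem_range.1 (mem_filter.1 hr).1)
      constructor
      · rintro ⟨⟨h1, _⟩, h3⟩
        refine ⟨h1, ?_⟩
        show t % d = r % d
        rw [hrd]
        exact h3
      · rintro ⟨h1, h2⟩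
        have h3 : t % d = r := by
          have h2' : t % d = r % d := h2
          rw [h2', hrd]
        refine ⟨⟨h1, (hiff t h1).2 (by rw [h3]; exact hr)⟩, h3⟩
    · intro t ht
      rw [mem_coe, mem_filter] at ht
      exact (hiff t ht.1).1 ht.2
  have hone : ∀ r ∈ Rs, |((Ts.filter (fun t => t ≡ r [MOD d])).card : ℝ) - Y / Ph c0 d| ≤ e := by
    intro r hr
    refine hcnt r fun p hp hpd => ?_
    have h1 := (mem_filter.1 hr).2 p (Nat.mem_primeFactors.2 ⟨hp, hpd, hd0⟩)
    exact al_mod (Nat.mod_modEq r p) h1.1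
  have hRcard : Rs.card = ∏ p ∈ S, nu W c0 c p := by
    have h1 := sqc d.primeFactors (fun p hp => Nat.prime_of_mem_primeFactors hp) A
    rw [Nat.prod_primeFactors_of_squarefree hdsq] at h1
    have h1' : Rs.card = ∏ p ∈ d.primeFactors, ((range p).filter (fun a => A p a)).card := by
      rw [hRs]
      convert h1
    rw [h1', hPd, prod_union hdisj]
    have h2 : ∏ p ∈ b.primeFactors, ((range p).filter (fun a => A p a)).card = 1 := by
      refine prod_eq_one fun p hp => ?_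
      obtain ⟨i, hi⟩ := hbi p hp
      have hpp := Nat.prime_of_mem_primeFactors hp
      have hpz := hBz i p hpp hi
      obtain ⟨r, hr, hr'⟩ := one_cls (k := c i) hpp (cop_Wv hF hpp (by omega))
      have h3 : (range p).filter (fun a => A p a) = {r} := by
        ext a
        rw [mem_filter, mem_range, mem_singleton]
        constructor
        · rintro ⟨h4, h5⟩
          exact (hr' a h4).1 (h5.2.2 i hi)
        · rintro rfl
          have h6 : p ∣ W * a + c i := (hr' a hr).2 rfl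
          refine ⟨hr, ?_, ?_, ?_⟩
          · intro k hk hpk
            exact hBnV i p hpp hi (hF.df0 k hk i p hpp (by omega) (dvd_sub_forms h6 hpk))
          · intro hpS
            exact absurd hpS (disjoint_left.1 hdisj hp)
          · intro i' hi'
            by_cases hii : i' = i
            · rw [hii]; exact h6
            · have h7 := Nat.Coprime.eq_one_of_dvd
                ((hco i' i hii).coprime_dvd_left hi') hi
              exact absurd h7 hpp.one_lt.ne'
      rw [h3, card_singleton]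
    rw [h2, one_mul]
    refine prod_congr rfl fun p hp => ?_
    rw [nu]
    congr 1
    ext a
    rw [@mem_filter, @mem_filter]
    refine and_congr_right fun _ => ?_
    constructor
    · rintro ⟨h3, h4, _⟩
      exact ⟨h3, h4 hp⟩
    · rintro ⟨h3, h4⟩
      refine ⟨h3, fun _ => h4, fun i hi => ?_⟩
      have h5 := hBz i p (hSp p hp).2.2 hi
      have h6 := (hSp p hp).2.1
      omega
  have hPhd : Ph c0 d = (∏ i, Ph c0 (B i)) * ∏ p ∈ S, ph c0 p := by
    rw [hddef, Ph_mul c0 hbq hb0 hq0, hbdef, Ph_prod c0 univ B (fun i _ => hB0 i) (fun i _ i' _ h => hco i i' h)]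
    congr 1
    rw [Ph, hqP]
  have hPB : 0 < ∏ i, Ph c0 (B i) := prod_pos fun i _ => Ph_pos c0 (B i)
  have hPS : 0 < ∏ p ∈ S, ph c0 p := prod_pos fun p hp => ph_pos c0 (hSp p hp).2.2
  have hmain : Y / (∏ i, Ph c0 (B i)) * ∏ p ∈ S, gd W c0 c p = ∑ r ∈ Rs, Y / Ph c0 d := by
    rw [sum_const, nsmul_eq_mul, hRcard, hPhd]
    simp only [gd]
    rw [prod_div_distrib]
    push_cast
    field_simp
  rw [hcard, hmain, Nat.cast_sum, ← sum_sub_distrib]
  refine (abs_sum_le_sum_abs _ _).trans ((sum_le_sum hone).trans ?_)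
  rw [sum_const, nsmul_eq_mul]
  refine mul_le_mul_of_nonneg_right ?_ hE0
  rw [hRcard]
  push_cast
  rw [← prod_const]
  exact prod_le_prod (fun _ _ => Nat.cast_nonneg _) fun p hp => by
    exact_mod_cast nu_lev hF (hSp p hp).2.2 (hSp p hp).1

end H78TP
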