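import Pool.Agent.H78.TP.Eg
import Pool.Agent.H78.TP.Vc
import Pool.Agent.H17.UC.Mvu

/-!
# Mean values with the main term in product form (as `mvu` in `Pool/Agent/H17/UC/Mvu.lean`)
-/

set_option autoImplicit false

open Finset EG H69PG H73PC

namespace H78TP

lemma good_of {z V : ℕ} {D : Finset ℕ} (h : Good (primorial z * V) D) : Good (primorial z) D := by
  intro B hB
  exact ⟨(h B hB).1, Nat.Coprime.coprime_dvd_right (Nat.dvd_mul_right _ _) (h B hB).2⟩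

theorem mvv : ∃ C : ℕ, 1 ≤ C ∧ ∀ (J b0 V w z W Dm Sm M : ℕ) (Γ η : ℝ), C * (J + 1) ≤ b0 → 4 * J ≤ w → 2 ≤ w → w ≤ z →
    J * M ≤ z → 1 ≤ Γ → ∀ (ι : Type) [Fintype ι] [DecidableEq ι] (c0 : Option ℕ) (c : ι → ℕ) (Ts : Finset ℕ)
    (Y : ℝ) (E : ℕ → ℝ), FwV V w W c0 c → DsV V w Dm W c0 Ts Y E → 0 < Y → Sm * z ^ (4 * b0 + 10) ≤ Dm →
    (3 * Real.exp (-(b0 : ℝ)) + 11 * ((J : ℝ) + 1) ^ 2 * (M + 1) / z) * (4 * Γ ^ 5) ^ J +
      (3 * Real.log z + 4) * (4 * Γ ^ 2) ^ J * ErS Dm (((J : ℝ) + 1) ^ 2 * 3) (Ev V E) / (Y * Vq V w z c0 J) ≤ η →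
    Mvv V (H52GS.th0 V w z) (Vq V w z c0) z W M J Sm Γ η Ts Y c := by
  classical
  obtain ⟨C, hC1, hC⟩ := egv
  refine ⟨C, hC1, fun J b0 V w z W Dm Sm M Γ η hb0 hJw h2w hwz hJM hΓ ι _ _ c0 c Ts Y E hF hDs hY hSm hη => ?_⟩
  have hz1 : 1 ≤ z := by omega
  have hz1' : (1 : ℝ) ≤ z := by exact_mod_cast hz1
  have hz0 : (0 : ℝ) < z := by linarith
  have hΓ2 : (1 : ℝ) ≤ Γ ^ 2 := one_le_pow₀ hΓ
  have hΓ5 : (1 : ℝ) ≤ Γ ^ 5 := one_le_pow₀ hΓ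
  have hFc : (1 : ℝ) ≤ 4 * Γ ^ 2 := by linarith
  have hA1 : (1 : ℝ) ≤ 4 * Γ ^ 5 := by linarith
  have hEp : ∀ d, 0 ≤ Ev V E d := Egv_Ev0 V hDs.E_nonneg
  have hVJ : 0 < Vq V w z c0 J := vq_pos c0 h2w hJw
  have hlog : 0 ≤ 3 * Real.log z + 4 := by
    have := Real.log_nonneg hz1'
    linarith
  have hE0 : 0 ≤ ErS Dm (((J : ℝ) + 1) ^ 2 * 3) (Ev V E) := UC.Mvu_ErS0 (by positivity) hEp
  have hexp : 0 ≤ Real.exp (-(b0 : ℝ)) := (Real.exp_pos _).le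
  have hη0 : 0 ≤ η := by
    refine le_trans ?_ hη
    have q1 : 0 ≤ (3 * Real.exp (-(b0 : ℝ)) + 11 * ((J : ℝ) + 1) ^ 2 * (M + 1) / z) * (4 * Γ ^ 5) ^ J := by positivity
    have q2 : 0 ≤ (3 * Real.log z + 4) * (4 * Γ ^ 2) ^ J * ErS Dm (((J : ℝ) + 1) ^ 2 * 3) (Ev V E) / (Y * Vq V w z c0 J) := by
      refine div_nonneg (mul_nonneg (mul_nonneg hlog (by positivity)) hE0) ?_
      exact (mul_pos hY hVJ).le
    linarith
  refine ⟨hY.le, hη0, fun U hcard F s sz hCd hsz => ?_⟩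
  have key : ∀ i : {i // i ∈ U}, Cdv V (H52GS.th0 V w z) z M Γ (sz i) (F i) (s i) := fun i => hCd i i.2
  choose Ds f g1' g2 g3 g4 g5 g6 g7 using key
  have g1 : ∀ i, Good (primorial z) (Ds i) := fun i => good_of (g1' i)
  have hc : Fintype.card {i // i ∈ U} = U.card := Fintype.card_coe U
  have hF' : FwV V w W c0 (fun i : {i // i ∈ U} => c i) :=
    ⟨hF.pos, hF.pr, fun i i' h => Subtype.ext (hF.inj h),
      fun i i' hne => hF.df i i' (fun h => hne (Subtype.ext h)), fun i => hF.cpos i,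
      fun k hk i => hF.df0 k hk i⟩
  have hj4 : 4 * U.card ≤ w := by omega
  have hjb : C * (U.card + 1) ≤ b0 := le_trans (Nat.mul_le_mul_left _ (by omega)) hb0
  have hjM : U.card * M ≤ z := le_trans (Nat.mul_le_mul_right _ hcard) hJM
  have hsize : ∀ B ∈ Fintype.piFinset Ds, (∏ i, B i) * z ^ (4 * b0 + 10) ≤ Dm := by
    intro B hB
    refine le_trans (Nat.mul_le_mul_right _ ?_) hSm
    refine le_trans ?_ hsz
    rw [← Finset.prod_coe_sort U sz]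
    refine Finset.prod_le_prod' fun i _ => ?_
    exact (g2 i (B i) (Fintype.mem_piFinset.1 hB i)).2
  have h1 := hC U.card b0 hjb {i // i ∈ U} hc V w z W Dm hj4 h2w hwz c0 (fun i => c i) Ts Y E hF' hDs
    Ds f g1' hsize
  have h2 := phb (z := z) (M := M) hz1 (by rw [hc]; exact hjM) c0 (A1 := 4 * Γ ^ 5) g1 (fun i B hB => (g2 i B hB).1) g4
  have h3 := erg (w := w) (z := z) (Dm := Dm) (e := 4 * b0 + 10) hwz hFc (by norm_num : (1 : ℝ) ≤ 3) g1 g3 hEp hsize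
  have h4 := H82LX.nco hz1 Ds f (fun _ => 4 * Γ ^ 5) g1 g4 g5
  rw [hc] at h2 h3 h4
  rw [Finset.prod_const, Finset.card_univ, hc] at h4
  have e1' : (∑ t ∈ Ts, ∏ i : {i // i ∈ U}, (H52GS.th0 V w z (W * t + c i) *
      Fn (Ds i) (f i) (W * t + c i))) = ∑ t ∈ Ts, ∏ i ∈ U, F i (W * t + c i) := by
    refine Finset.sum_congr rfl fun t _ => ?_
    rw [← Finset.prod_coe_sort U (fun i => F i (W * t + c i))]
    refine Finset.prod_congr rfl fun i _ => ?_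
    exact (g6 i _).symm
  have e2' : (∏ i : {i // i ∈ U}, SS (Ds i) (f i) 1) = ∏ i ∈ U, s i := by
    rw [← Finset.prod_coe_sort U s]
    exact Finset.prod_congr rfl fun i _ => g7 i
  rw [e1'] at h1
  rw [e2'] at h4
  have hjR : (U.card : ℝ) ≤ J := by exact_mod_cast hcard
  have hj0 : (0 : ℝ) ≤ U.card := Nat.cast_nonneg _
  have hM0 : (0 : ℝ) ≤ M := Nat.cast_nonneg _
  have hJ0 : (0 : ℝ) ≤ J := Nat.cast_nonneg _
  -- the error sum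
  have h5 : ∑ B ∈ PC Ds, (∏ i, |f i (B i)|) *
          ∑ S ∈ Sb w z (4 * b0 + 10), (U.card : ℝ) ^ S.card * Ev V E ((∏ i, B i) * ∏ p ∈ S, p) ≤
      (4 * Γ ^ 2) ^ J * ErS Dm (((J : ℝ) + 1) ^ 2 * 3) (Ev V E) := by
    refine h3.trans ?_
    have q1 : ErS Dm (((U.card : ℝ) + 1) ^ 2 * 3) (Ev V E) ≤ ErS Dm (((J : ℝ) + 1) ^ 2 * 3) (Ev V E) := by
      refine UC.Mvu_ErS (by positivity) ?_ hEp
      have : ((U.card : ℝ) + 1) ^ 2 ≤ ((J : ℝ) + 1) ^ 2 := pow_le_pow_left₀ (by linarith) (by linarith) 2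
      linarith
    exact mul_le_mul (pow_le_pow_right₀ hFc hcard) q1 (UC.Mvu_ErS0 (by positivity) hEp) (by positivity)
  have hdd : 2 * ((U.card : ℝ) * M) / z + 9 * (U.card : ℝ) ^ 2 / z ≤ 11 * ((J : ℝ) + 1) ^ 2 * (M + 1) / z := by
    rw [← add_div]
    refine div_le_div_of_nonneg_right ?_ hz0.le
    have q1 : (U.card : ℝ) * M ≤ ((J : ℝ) + 1) ^ 2 * (M + 1) := by
      have r1 : (U.card : ℝ) ≤ ((J : ℝ) + 1) ^ 2 := by nlinarith
      exact mul_le_mul r1 (by linarith) hM0 (by positivity)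
    have q2 : (U.card : ℝ) ^ 2 ≤ ((J : ℝ) + 1) ^ 2 * (M + 1) := by
      have r1 : (U.card : ℝ) ^ 2 ≤ ((J : ℝ) + 1) ^ 2 := pow_le_pow_left₀ hj0 (by linarith) 2
      have r2 : 0 ≤ ((J : ℝ) + 1) ^ 2 * M := by positivity
      nlinarith
    linarith
  have hfin := UC.Mvu_num (T := ∑ t ∈ Ts, ∏ i ∈ U, F i (W * t + c i)) (P0 := ∏ i ∈ U, s i)
    (Vj := Vq V w z c0 U.card) (VJ := Vq V w z c0 J) hY hVJ (vq_anti c0 h2w hcard hJw) hexp hlog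
    (mul_nonneg (by positivity) hE0) (by positivity) (by positivity) hdd (by positivity : (0 : ℝ) ≤ (4 * Γ ^ 5) ^ U.card)
    (pow_le_pow_right₀ hA1 hcard) h1 h2.1 h2.2 h4 h5
  refine hfin.trans ?_
  have hVj : 0 < Vq V w z c0 U.card := vq_pos c0 h2w hj4
  refine mul_le_mul_of_nonneg_right ?_ (mul_pos hY hVj).le
  rw [← mul_assoc (3 * Real.log z + 4)]
  exact hη

end H78TP
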