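import Pool.Agent.H17.UC.Lvu
import Pool.Agent.H17.UC.Epw

/-!
# Numerical estimates, without an upper bound of `log x` (as `Lvu.lean`, `Epw.lean` in `Pool/Agent/H17/UC`)
-/

set_option autoImplicit false

open Finset EG H69PG H73PC UC

namespace H78TP

/-- the 256-th root of `L` -/
lemma root {n L : ℝ} (hn : 1 ≤ n) (hL : n ^ 256 ≤ L) : ∃ s : ℝ, n ≤ s ∧ s ^ 256 = L ∧ Real.log L = 256 * Real.log s := by
  have hL0 : 0 < L := lt_of_lt_of_le (by positivity) hL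
  refine ⟨L ^ (1 / 256 : ℝ), ?_, ?_, ?_⟩
  · calc n = (n ^ 256) ^ (1 / 256 : ℝ) := by
          rw [← Real.rpow_natCast n 256, ← Real.rpow_mul (by linarith)]
          norm_num
      _ ≤ L ^ (1 / 256 : ℝ) := Real.rpow_le_rpow (by positivity) hL (by norm_num)
  · rw [← Real.rpow_natCast, ← Real.rpow_mul hL0.le]
    norm_num
  · rw [Real.log_rpow hL0]
    ring

lemma log_le_s {s : ℝ} (hs : 1 ≤ s) : Real.log s ≤ s := by
  have := Real.log_le_sub_one_of_pos (by linarith : 0 < s)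
  linarith

theorem lvy : ∃ N0 : ℕ, ∀ N : ℕ, N0 ≤ N → ∀ x : ℝ, 1 ≤ x → (N : ℝ) ^ 256 ≤ Real.log x →
    2 ≤ 1 / (N : ℝ) ^ 2 * Real.log x ∧ Real.log x ^ 3 ≤ (⌊x ^ (1 / (N : ℝ) ^ 2)⌋₊ : ℝ) ∧
    (4 * N + 1) * (2 * (2 * N ^ 2)) ≤ ⌊x ^ (1 / (N : ℝ) ^ 2)⌋₊ ∧ x ≤ (⌊x ^ (1 / (N : ℝ) ^ 2)⌋₊ : ℝ) ^ (2 * N ^ 2) ∧
    ⌊x ^ (7 / 32 : ℝ)⌋₊ * ⌊x ^ (1 / (N : ℝ) ^ 2)⌋₊ ^ (4 * (N ^ 2 / 60) + 10) ≤ ⌊x ^ (3 / 8 : ℝ)⌋₊ ∧
    x ^ (5 / 32 : ℝ) ≤ (⌊x ^ (7 / 32 : ℝ)⌋₊ : ℝ) ∧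
    4 * (4 * (N : ℝ) + 1) ≤ Real.log x ∧ ((((4 * N + 1 : ℕ) : ℝ) + 1) ^ 2 * 3) ≤ Real.log x ^ (1 / 80 : ℝ) := by
  obtain ⟨M, hM⟩ := Lvu_big
  refine ⟨max M 800, fun N hN x hx hL1 => ?_⟩
  have hNM : M ≤ N := (le_max_left _ _).trans hN
  have hNK : 800 ≤ N := (le_max_right _ _).trans hN
  have hK : (800 : ℝ) ≤ N := by exact_mod_cast hNK
  obtain ⟨n, hn⟩ : ∃ n : ℝ, n = N := ⟨_, rfl⟩
  obtain ⟨L, hL⟩ : ∃ L : ℝ, L = Real.log x := ⟨_, rfl⟩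
  rw [← hn] at hL1 hK
  rw [← hL] at hL1
  have hn100 : 100 ≤ n := by linarith
  have hn1 : 1 ≤ n := by linarith
  have hn0 : 0 < n := by linarith
  have hx0 : 0 < x := by linarith
  have hbig : n ^ 771 ≤ Real.exp (n ^ 254 / 2) := by
    rw [hn]
    exact hM N hNM
  have hL0 : 0 < L := lt_of_lt_of_le (by positivity) hL1
  have hn256 : n ^ 2 * n ^ 254 = n ^ 256 := by rw [← pow_add]
  have h254 : n ^ 254 ≤ 1 / n ^ 2 * L := by
    rw [one_div, ← div_eq_inv_mul, le_div_iff₀ (by positivity), mul_comm, hn256]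
    exact hL1
  have h254a : n ≤ n ^ 254 := le_self_pow₀ hn1 (by norm_num)
  have h2 : 2 ≤ 1 / n ^ 2 * L := by linarith
  obtain ⟨z, hz⟩ : ∃ z : ℕ, z = ⌊x ^ (1 / (N : ℝ) ^ 2)⌋₊ := ⟨_, rfl⟩
  have hfl : Real.exp (1 / n ^ 2 * L / 2) ≤ (z : ℝ) := by
    rw [hz, hL, hn]
    refine Lvu_floor hx ?_
    rw [← hn, ← hL]
    exact h2
  have hz1 : Real.exp (n ^ 254 / 2) ≤ (z : ℝ) := by
    refine le_trans (Real.exp_le_exp.2 ?_) hfl
    linarith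
  have hz771 : n ^ 771 ≤ (z : ℝ) := hbig.trans hz1
  have hzle : (z : ℝ) ≤ x ^ (1 / (N : ℝ) ^ 2) := by
    rw [hz]
    exact Nat.floor_le (by positivity)
  rw [← hz, ← hL, ← hn]
  refine ⟨h2, ?_, ?_, ?_, ?_, ?_, ?_, ?_⟩
  · refine le_trans ?_ hfl
    obtain ⟨s, hs1, hs2, hs3⟩ := root hn1 hL1
    have hs0 : 0 < s := by linarith
    rw [← Real.log_le_iff_le_exp (by positivity), Real.log_pow, hs3]
    have h3 : Real.log s ≤ s := log_le_s (by linarith)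
    have h4 : s ^ 254 ≤ 1 / n ^ 2 * L := by
      rw [one_div, ← div_eq_inv_mul, le_div_iff₀ (by positivity), ← hs2]
      calc s ^ 254 * n ^ 2 ≤ s ^ 254 * s ^ 2 := by
            have : n ^ 2 ≤ s ^ 2 := pow_le_pow_left₀ hn0.le hs1 2
            exact mul_le_mul_of_nonneg_left this (by positivity)
        _ = s ^ 256 := by rw [← pow_add]
    have h5 : s ^ 3 ≤ s ^ 254 := pow_le_pow_right₀ (by linarith) (by norm_num)
    have h6 : 768 * s ≤ s ^ 3 / 2 := by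
      have h7 : (10000 : ℝ) ≤ s ^ 2 := by nlinarith
      have : s ^ 3 = s ^ 2 * s := by ring
      nlinarith
    push_cast
    linarith
  · have h3 : (4 * n + 1) * (2 * (2 * n ^ 2)) ≤ z := by
      refine le_trans ?_ hz771
      have h6 : (4 * n + 1) * (2 * (2 * n ^ 2)) ≤ n ^ 4 := by
        have : n ^ 4 = n * n ^ 3 := by ring
        have h8 : 0 ≤ n ^ 3 := by positivity
        have h9 : n ^ 2 ≤ n ^ 3 := pow_le_pow_right₀ hn1 (by norm_num)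
        nlinarith
      have h7 : n ^ 4 ≤ n ^ 771 := pow_le_pow_right₀ hn1 (by norm_num)
      linarith
    rw [hn] at h3
    exact_mod_cast h3
  · have h3 : Real.exp (1 / n ^ 2 * L / 2) ^ (2 * N ^ 2) = x := by
      rw [← Real.exp_nat_mul]
      push_cast
      rw [← hn]
      have : 2 * n ^ 2 * (1 / n ^ 2 * L / 2) = L := by
        field_simp
      rw [this, hL, Real.exp_log hx0]
    calc x = Real.exp (1 / n ^ 2 * L / 2) ^ (2 * N ^ 2) := h3.symm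
      _ ≤ (z : ℝ) ^ (2 * N ^ 2) := pow_le_pow_left₀ (Real.exp_pos _).le hfl _
  · refine Nat.le_floor ?_
    push_cast
    have h3 : (⌊x ^ (7 / 32 : ℝ)⌋₊ : ℝ) ≤ x ^ (7 / 32 : ℝ) := Nat.floor_le (by positivity)
    have h4 : (z : ℝ) ^ (4 * (N ^ 2 / 60) + 10) ≤ x ^ (1 / 15 + 1 / 100 : ℝ) := by
      calc (z : ℝ) ^ (4 * (N ^ 2 / 60) + 10) ≤ (x ^ (1 / (N : ℝ) ^ 2)) ^ (4 * (N ^ 2 / 60) + 10) :=
            pow_le_pow_left₀ (Nat.cast_nonneg _) hzle _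
        _ = x ^ (1 / (N : ℝ) ^ 2 * ((4 * (N ^ 2 / 60) + 10 : ℕ) : ℝ)) := by
            rw [Real.rpow_mul hx0.le, Real.rpow_natCast]
        _ ≤ x ^ (1 / 15 + 1 / 100 : ℝ) := by
            refine Real.rpow_le_rpow_of_exponent_le hx ?_
            have h5 : (((N ^ 2 / 60 : ℕ)) : ℝ) ≤ (N : ℝ) ^ 2 / 60 := by
              have := Nat.cast_div_le (α := ℝ) (m := N ^ 2) (n := 60)
              push_cast at this
              exact this
            push_cast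
            rw [← hn] at h5 ⊢
            rw [one_div, ← div_eq_inv_mul, div_le_iff₀ (by positivity)]
            have h8 : 10000 ≤ n ^ 2 := by nlinarith
            linarith
    calc (⌊x ^ (7 / 32 : ℝ)⌋₊ : ℝ) * (z : ℝ) ^ (4 * (N ^ 2 / 60) + 10) ≤
          x ^ (7 / 32 : ℝ) * x ^ (1 / 15 + 1 / 100 : ℝ) :=
          mul_le_mul h3 h4 (by positivity) (by positivity)
      _ = x ^ (7 / 32 + (1 / 15 + 1 / 100) : ℝ) := by
          rw [Real.rpow_add hx0 (7 / 32) (1 / 15 + 1 / 100)]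
      _ ≤ x ^ (3 / 8 : ℝ) := Real.rpow_le_rpow_of_exponent_le hx (by norm_num)
  · have h3 : x ^ (7 / 32 : ℝ) < (⌊x ^ (7 / 32 : ℝ)⌋₊ : ℝ) + 1 := Nat.lt_floor_add_one _
    have h4 : x ^ (7 / 32 : ℝ) = x ^ (5 / 32 : ℝ) * x ^ (1 / 16 : ℝ) := by
      rw [← Real.rpow_add hx0]
      norm_num
    have h5 : 2 ≤ x ^ (1 / 16 : ℝ) := by
      have h6 : Real.exp 1 ≤ x ^ (1 / 16 : ℝ) := by
        rw [Real.rpow_def_of_pos hx0, ← hL]
        refine Real.exp_le_exp.2 ?_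
        have : n ≤ n ^ 256 := le_self_pow₀ hn1 (by norm_num)
        linarith
      have := Real.exp_one_gt_d9
      linarith
    have h7 : 1 ≤ x ^ (5 / 32 : ℝ) := Real.one_le_rpow hx (by norm_num)
    nlinarith
  · have : n ^ 2 ≤ n ^ 256 := pow_le_pow_right₀ hn1 (by norm_num)
    nlinarith
  · push_cast
    rw [← hn]
    have h3 : n ^ 3 ≤ L ^ (1 / 80 : ℝ) := by
      calc n ^ 3 = n ^ (3 : ℝ) := by
            rw [← Real.rpow_natCast n 3]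
            norm_num
        _ ≤ n ^ ((256 : ℝ) * (1 / 80)) := Real.rpow_le_rpow_of_exponent_le hn1 (by norm_num)
        _ = (n ^ 256) ^ (1 / 80 : ℝ) := by
            rw [← Real.rpow_natCast n 256, ← Real.rpow_mul hn0.le]
            norm_num
        _ ≤ L ^ (1 / 80 : ℝ) := Real.rpow_le_rpow (by positivity) hL1 (by norm_num)
    refine le_trans ?_ h3
    have h5 : (4 * n + 1 + 1) ^ 2 ≤ (5 * n) ^ 2 := pow_le_pow_left₀ (by positivity) (by linarith) 2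
    have h6 : n ^ 3 = n * n ^ 2 := by ring
    have h7 : 0 ≤ n ^ 2 := by positivity
    nlinarith

noncomputable def ety (D C : ℝ) (N z : ℕ) (x : ℝ) : ℝ :=
  (3 * Real.exp (-((N ^ 2 / 60 : ℕ) : ℝ)) + 11 * (((4 * N + 1 : ℕ) : ℝ) + 1) ^ 2 * (((2 * (2 * N ^ 2) : ℕ) : ℝ) + 1) / z) *
      (4 * (2 * D * (N : ℝ) ^ 2) ^ 5) ^ (4 * N + 1) +
    (3 * Real.log z + 4) * (4 * (2 * D * (N : ℝ) ^ 2) ^ 2) ^ (4 * N + 1) *
      (Real.exp (-Real.log x ^ (1 / 25 : ℝ)) * (C * Real.log z) ^ (8 * (4 * N + 1)))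

/-- the last factor is tiny -/
lemma ep_last {n L C l : ℝ} {N : ℕ} (hnN : n = N) (hn : 100000 ≤ n) (hL : n ^ 256 ≤ L) (hC1 : 1 ≤ C) (hC : C ≤ n) (hl0 : 0 ≤ l) (hl : l ≤ L) :
    (3 * l + 4) * (Real.exp (-L ^ (1 / 25 : ℝ)) * (C * l) ^ (8 * (4 * N + 1))) ≤ Real.exp (-n ^ 2) := by
  obtain ⟨s, hs1, hs2, hs3⟩ := root (by linarith) hL
  have hs0 : 0 < s := by linarith
  have hn0 : 0 < n := by linarith
  have hn1 : 1 ≤ n := by linarith
  have hnL : n ≤ L := (le_self_pow₀ hn1 (by norm_num)).trans hL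
  have hL0 : 0 < L := by linarith
  have h1 : 3 * l + 4 ≤ L ^ 2 := by nlinarith
  have h2 : C * l ≤ L ^ 2 := by
    calc C * l ≤ L * L := mul_le_mul (hC.trans hnL) hl hl0 hL0.le
      _ = L ^ 2 := by ring
  have h3 : (C * l) ^ (8 * (4 * N + 1)) ≤ (L ^ 2) ^ (8 * (4 * N + 1)) := pow_le_pow_left₀ (by positivity) h2 _
  have h4 : (3 * l + 4) * (Real.exp (-L ^ (1 / 25 : ℝ)) * (C * l) ^ (8 * (4 * N + 1))) ≤
      L ^ 2 * (Real.exp (-L ^ (1 / 25 : ℝ)) * (L ^ 2) ^ (8 * (4 * N + 1))) := by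
    refine mul_le_mul h1 (mul_le_mul_of_nonneg_left h3 (Real.exp_pos _).le) (by positivity) (by positivity)
  refine h4.trans ?_
  have h5 : L ^ 2 * (Real.exp (-L ^ (1 / 25 : ℝ)) * (L ^ 2) ^ (8 * (4 * N + 1))) =
      Real.exp (-L ^ (1 / 25 : ℝ)) * L ^ (2 + 2 * (8 * (4 * N + 1))) := by
    rw [pow_add, pow_mul L 2]
    ring
  rw [h5]
  have h6 : L ^ (2 + 2 * (8 * (4 * N + 1))) = Real.exp ((2 + 2 * (8 * (4 * n + 1))) * Real.log L) := by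
    have := Real.exp_nat_mul (Real.log L) (2 + 2 * (8 * (4 * N + 1)))
    rw [Real.exp_log hL0] at this
    rw [← this, hnN]
    congr 1
    push_cast
    ring
  rw [h6, ← Real.exp_add]
  refine Real.exp_le_exp.2 ?_
  rw [hs3]
  have h7 : Real.log s ≤ s := log_le_s (by linarith)
  have h8 : s ^ 3 ≤ L ^ (1 / 25 : ℝ) := by
    rw [← hs2, ← Real.rpow_natCast s 256, ← Real.rpow_mul hs0.le, ← Real.rpow_natCast s 3]
    exact Real.rpow_le_rpow_of_exponent_le (by linarith) (by norm_num)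
  have h9 : (2 + 2 * (8 * (4 * n + 1))) * (256 * Real.log s) ≤ (65 * n) * (256 * s) := by
    refine mul_le_mul (by linarith) (by linarith) ?_ (by positivity)
    have : 0 ≤ Real.log s := Real.log_nonneg (by linarith)
    positivity
  have h10 : (65 * n) * (256 * s) ≤ 16640 * s ^ 2 := by nlinarith
  have h11 : n ^ 2 ≤ s ^ 2 := pow_le_pow_left₀ hn0.le hs1 2
  have h12 : 16641 * s ^ 2 ≤ s ^ 3 := by
    have : s ^ 3 = s * s ^ 2 := by ring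
    have h13 : 0 ≤ s ^ 2 := by positivity
    nlinarith
  linarith

theorem epy {D C : ℝ} (hD : 1 ≤ D) (hC : 1 ≤ C) : ∃ N0 : ℕ, ∀ N : ℕ, N0 ≤ N → ∀ (m z : ℕ) (x μ : ℝ),
    1 ≤ x → (N : ℝ) ^ 256 ≤ Real.log x → m + 1 ≤ N → 0 ≤ μ → μ ≤ m * (N : ℝ) ^ 2 →
    (z : ℝ) ≤ x ^ (1 / (N : ℝ) ^ 2) → Real.exp (1 / (N : ℝ) ^ 2 / 2 * Real.log x) ≤ z →
    ety D C N z x * ((2 * (N : ℝ) + 1) * (1 + ((m : ℝ) + 1) ^ 2 * μ) ^ (2 * N + 1)) ≤ 1 / 8 := by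
  obtain ⟨N1, hN1⟩ := Epw_num
  refine ⟨N1 + 100000 + ⌈128 * D ^ 5⌉₊ + ⌈C⌉₊, ?_⟩
  intro N hN m z x μ hx hlx1 hm hμ0 hμ hz1 hz2
  have hnum := hN1 N (by omega)
  obtain ⟨n, hn⟩ : ∃ n : ℝ, n = N := ⟨_, rfl⟩
  have hN25 : (100000 : ℝ) ≤ n := by
    have : 100000 ≤ N := by omega
    rw [hn]
    exact_mod_cast this
  have hnD : 128 * D ^ 5 ≤ n := by
    rw [hn]
    refine (Nat.le_ceil _).trans ?_
    have : ⌈128 * D ^ 5⌉₊ ≤ N := by omega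
    exact_mod_cast this
  have hnC : C ≤ n := by
    rw [hn]
    refine (Nat.le_ceil _).trans ?_
    have : ⌈C⌉₊ ≤ N := by omega
    exact_mod_cast this
  have hmn : (m : ℝ) + 1 ≤ n := by
    rw [hn]
    exact_mod_cast hm
  obtain ⟨L, hL⟩ : ∃ L : ℝ, L = Real.log x := ⟨_, rfl⟩
  unfold ety
  rw [← hL] at hlx1 hz2 ⊢
  push_cast
  rw [← hn] at hnum hlx1 hμ hz1 hz2 ⊢
  have hn0 : 0 < n := by linarith
  have hn1 : 1 ≤ n := by linarith
  have hx0 : 0 < x := by linarith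
  have hD0 : 0 < D := by linarith
  have hL0 : 0 < L := lt_of_lt_of_le (by positivity) hlx1
  have hz0 : (0 : ℝ) < z := (Real.exp_pos _).trans_le hz2
  have hm0 : (0 : ℝ) ≤ m := Nat.cast_nonneg m
  -- the powers
  obtain ⟨J, hJ⟩ : ∃ J : ℕ, J = 4 * N + 1 := ⟨_, rfl⟩
  have hN1' : 1 ≤ N := by omega
  have p1 : (4 * (2 * D * n ^ 2) ^ 5) ^ (4 * N + 1) ≤ n ^ (55 * N) := by
    have h1 : 4 * (2 * D * n ^ 2) ^ 5 ≤ n ^ 11 := by
      have e : 4 * (2 * D * n ^ 2) ^ 5 = 128 * D ^ 5 * n ^ 10 := by ring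
      rw [e]
      calc 128 * D ^ 5 * n ^ 10 ≤ n * n ^ 10 := mul_le_mul_of_nonneg_right hnD (by positivity)
        _ = n ^ 11 := by ring
    calc (4 * (2 * D * n ^ 2) ^ 5) ^ (4 * N + 1) ≤ (n ^ 11) ^ (4 * N + 1) := pow_le_pow_left₀ (by positivity) h1 _
      _ = n ^ (11 * (4 * N + 1)) := by rw [← pow_mul]
      _ ≤ n ^ (55 * N) := pow_le_pow_right₀ hn1 (by omega)
  have p2 : (4 * (2 * D * n ^ 2) ^ 2) ^ (4 * N + 1) ≤ n ^ (55 * N) := by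
    have h1 : 4 * (2 * D * n ^ 2) ^ 2 ≤ n ^ 11 := by
      have e : 4 * (2 * D * n ^ 2) ^ 2 = 16 * D ^ 2 * n ^ 4 := by ring
      rw [e]
      have h2 : D ^ 2 ≤ D ^ 5 := pow_le_pow_right₀ hD (by norm_num)
      have h3 : 16 * D ^ 2 ≤ n := by
        have : 0 ≤ D ^ 5 := by positivity
        linarith
      calc 16 * D ^ 2 * n ^ 4 ≤ n * n ^ 4 := mul_le_mul_of_nonneg_right h3 (by positivity)
        _ = n ^ 5 := by ring
        _ ≤ n ^ 11 := pow_le_pow_right₀ hn1 (by norm_num)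
    calc (4 * (2 * D * n ^ 2) ^ 2) ^ (4 * N + 1) ≤ (n ^ 11) ^ (4 * N + 1) := pow_le_pow_left₀ (by positivity) h1 _
      _ = n ^ (11 * (4 * N + 1)) := by rw [← pow_mul]
      _ ≤ n ^ (55 * N) := pow_le_pow_right₀ hn1 (by omega)
  have p3 : (2 * n + 1) * (1 + ((m : ℝ) + 1) ^ 2 * μ) ^ (2 * N + 1) ≤ n ^ (20 * N) := by
    have h1 : 1 + ((m : ℝ) + 1) ^ 2 * μ ≤ n ^ 6 := by
      have h2 : μ ≤ n * n ^ 2 := hμ.trans (mul_le_mul_of_nonneg_right (by linarith) (by positivity))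
      have h3 : ((m : ℝ) + 1) ^ 2 ≤ n ^ 2 := pow_le_pow_left₀ (by linarith) hmn 2
      have h4 : ((m : ℝ) + 1) ^ 2 * μ ≤ n ^ 2 * (n * n ^ 2) := mul_le_mul h3 h2 hμ0 (by positivity)
      have h5 : n ^ 6 = n * (n ^ 2 * (n * n ^ 2)) := by ring
      have h6 : 1 ≤ n ^ 2 * (n * n ^ 2) := by
        have : n ^ 2 * (n * n ^ 2) = n ^ 5 := by ring
        rw [this]
        exact one_le_pow₀ hn1
      rw [h5]
      nlinarith
    have h7 : (1 + ((m : ℝ) + 1) ^ 2 * μ) ^ (2 * N + 1) ≤ n ^ (18 * N) := by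
      calc (1 + ((m : ℝ) + 1) ^ 2 * μ) ^ (2 * N + 1) ≤ (n ^ 6) ^ (2 * N + 1) := pow_le_pow_left₀ (by positivity) h1 _
        _ = n ^ (6 * (2 * N + 1)) := by rw [← pow_mul]
        _ ≤ n ^ (18 * N) := pow_le_pow_right₀ hn1 (by omega)
    have h8 : 2 * n + 1 ≤ n ^ (2 * N) := by
      calc 2 * n + 1 ≤ n ^ 2 := by nlinarith
        _ ≤ n ^ (2 * N) := pow_le_pow_right₀ hn1 (by omega)
    calc (2 * n + 1) * (1 + ((m : ℝ) + 1) ^ 2 * μ) ^ (2 * N + 1) ≤ n ^ (2 * N) * n ^ (18 * N) :=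
          mul_le_mul h8 h7 (by positivity) (by positivity)
      _ = n ^ (20 * N) := by rw [← pow_add]; congr 1; ring
  -- the exponentials
  obtain ⟨e0, he0⟩ : ∃ e0 : ℝ, e0 = Real.exp (-(n ^ 2 / 60 - 1)) := ⟨_, rfl⟩
  have he00 : 0 < e0 := by rw [he0]; exact Real.exp_pos _
  have q1 : 3 * Real.exp (-((N ^ 2 / 60 : ℕ) : ℝ)) ≤ 3 * e0 := by
    rw [he0]
    refine mul_le_mul_of_nonneg_left (Real.exp_le_exp.2 ?_) (by norm_num)
    have h5 : (N : ℝ) ^ 2 / 60 - 1 ≤ (((N ^ 2 / 60 : ℕ)) : ℝ) := by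
      have h6 : N ^ 2 < 60 * (N ^ 2 / 60 + 1) := by omega
      have h7 : ((N : ℝ) ^ 2) < 60 * (((N ^ 2 / 60 : ℕ) : ℝ) + 1) := by exact_mod_cast h6
      linarith
    rw [← hn] at h5
    linarith
  have q2 : 11 * (4 * n + 1 + 1) ^ 2 * (2 * (2 * n ^ 2) + 1) / z ≤ e0 := by
    rw [div_le_iff₀ hz0]
    have h1 : 11 * (4 * n + 1 + 1) ^ 2 * (2 * (2 * n ^ 2) + 1) ≤ n ^ 5 := by
      have h2 : (4 * n + 1 + 1) ^ 2 ≤ (5 * n) ^ 2 := pow_le_pow_left₀ (by positivity) (by linarith) 2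
      have h3 : 2 * (2 * n ^ 2) + 1 ≤ 5 * n ^ 2 := by nlinarith
      calc 11 * (4 * n + 1 + 1) ^ 2 * (2 * (2 * n ^ 2) + 1) ≤ 11 * (5 * n) ^ 2 * (5 * n ^ 2) :=
            mul_le_mul (mul_le_mul_of_nonneg_left h2 (by norm_num)) h3 (by positivity) (by positivity)
        _ = 1375 * n ^ 4 := by ring
        _ ≤ n * n ^ 4 := mul_le_mul_of_nonneg_right (by linarith) (by positivity)
        _ = n ^ 5 := by ring
    have h4 : Real.exp (n ^ 254 / 2) ≤ z := by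
      refine le_trans (Real.exp_le_exp.2 ?_) hz2
      have h5 : n ^ 254 ≤ 1 / n ^ 2 * L := by
        rw [one_div, ← div_eq_inv_mul, le_div_iff₀ (by positivity)]
        refine le_trans (le_of_eq ?_) hlx1
        rw [← pow_add]
      linarith
    have h6 : n ^ 5 ≤ Real.exp (5 * n) := by
      have h7 : n ≤ Real.exp n := by
        have := Real.add_one_le_exp n
        linarith
      calc n ^ 5 ≤ Real.exp n ^ 5 := pow_le_pow_left₀ hn0.le h7 5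
        _ = Real.exp (5 * n) := by rw [← Real.exp_nat_mul]; norm_num
    refine h1.trans (h6.trans ?_)
    calc Real.exp (5 * n) ≤ e0 * Real.exp (n ^ 254 / 2) := by
          rw [he0, ← Real.exp_add]
          refine Real.exp_le_exp.2 ?_
          have h8 : n ^ 3 ≤ n ^ 254 := pow_le_pow_right₀ hn1 (by norm_num)
          have h9 : n ^ 3 = n * n ^ 2 := by ring
          have h10 : 0 ≤ n ^ 2 := by positivity
          nlinarith
      _ ≤ e0 * z := mul_le_mul_of_nonneg_left h4 he00.le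
  have hlz0 : 0 ≤ Real.log z := Real.log_natCast_nonneg z
  have hlz : Real.log z ≤ L := by
    have h1 := Real.log_le_log hz0 hz1
    rw [Real.log_rpow hx0, ← hL] at h1
    refine h1.trans ?_
    have h2 : 1 / n ^ 2 ≤ 1 := by
      rw [div_le_one (by positivity)]
      exact one_le_pow₀ hn1
    calc 1 / n ^ 2 * L ≤ 1 * L := mul_le_mul_of_nonneg_right h2 hL0.le
      _ = L := one_mul L
  have q3 := ep_last hn hN25 hlx1 hC hnC hlz0 hlz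
  have q4 : Real.exp (-n ^ 2) ≤ e0 := by
    rw [he0]
    refine Real.exp_le_exp.2 ?_
    have : 0 ≤ n ^ 2 := by positivity
    linarith
  -- together
  have r1 : (3 * Real.exp (-((N ^ 2 / 60 : ℕ) : ℝ)) + 11 * (4 * n + 1 + 1) ^ 2 * (2 * (2 * n ^ 2) + 1) / z) *
      (4 * (2 * D * n ^ 2) ^ 5) ^ (4 * N + 1) ≤ (4 * e0) * n ^ (55 * N) :=
    mul_le_mul (by linarith) p1 (by positivity) (by positivity)
  have r2 : (3 * Real.log z + 4) * (4 * (2 * D * n ^ 2) ^ 2) ^ (4 * N + 1) *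
      (Real.exp (-L ^ (1 / 25 : ℝ)) * (C * Real.log z) ^ (8 * (4 * N + 1))) ≤ e0 * n ^ (55 * N) := by
    calc (3 * Real.log z + 4) * (4 * (2 * D * n ^ 2) ^ 2) ^ (4 * N + 1) *
          (Real.exp (-L ^ (1 / 25 : ℝ)) * (C * Real.log z) ^ (8 * (4 * N + 1))) =
        ((3 * Real.log z + 4) * (Real.exp (-L ^ (1 / 25 : ℝ)) * (C * Real.log z) ^ (8 * (4 * N + 1)))) *
          (4 * (2 * D * n ^ 2) ^ 2) ^ (4 * N + 1) := by ring
      _ ≤ e0 * n ^ (55 * N) := mul_le_mul (q3.trans q4) p2 (by positivity) he00.le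
  have r3 : 0 ≤ (2 * n + 1) * (1 + ((m : ℝ) + 1) ^ 2 * μ) ^ (2 * N + 1) := by positivity
  have r4 : e0 * n ^ (75 * N) ≤ 1 / 72 := by
    have h1 : n ^ (75 * N) ≤ n ^ (7000 * N) := pow_le_pow_right₀ hn1 (by omega)
    have h2 : 72 * n ^ (75 * N) ≤ Real.exp (n ^ 2 / 60 - 1) := by linarith
    have h3 : e0 * Real.exp (n ^ 2 / 60 - 1) = 1 := by
      rw [he0, ← Real.exp_add, neg_add_cancel, Real.exp_zero]
    have h4 := mul_le_mul_of_nonneg_left h2 he00.le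
    rw [h3] at h4
    linarith
  have r5 : n ^ (75 * N) = n ^ (55 * N) * n ^ (20 * N) := by rw [← pow_add]; congr 1; ring
  have r6 := mul_le_mul (add_le_add r1 r2) p3 r3 (by positivity)
  refine r6.trans ?_
  have r7 : (4 * e0 * n ^ (55 * N) + e0 * n ^ (55 * N)) * n ^ (20 * N) = 5 * (e0 * n ^ (75 * N)) := by
    rw [r5]
    ring
  rw [r7]
  linarith

end H78TP
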