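import Pool.Agent.H78.TP.Cow
import Pool.Agent.H78.TP.Nu
import Pool.Agent.H78.TP.Crp

/-!
# The core theorem along primes in counting form, uniform in the number `m` of scales
-/

set_option autoImplicit false

open Finset EG H69PG H73PC UC

namespace H78TP

theorem cond_y {D C3 Γ ρ η x Y V E : ℝ} {N z J : ℕ} (hJ : J = 4 * N + 1) (hΓ : Γ = 2 * D * (N : ℝ) ^ 2)
    (hρ : ρ = Real.exp (-Real.log x ^ (1 / 25 : ℝ))) (hη : η = ety D C3 N z x) (hC30 : 0 < C3) (hlz0 : 0 < Real.log z) (hΓ0 : 0 ≤ Γ)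
    (hV : 0 < V) (hV2 : 1 / (C3 * Real.log z) ^ (8 * J) ≤ V) (hY : 0 < Y) (hE : E ≤ Y * ρ) :
    (3 * Real.exp (-((N ^ 2 / 60 : ℕ) : ℝ)) + 11 * ((J : ℝ) + 1) ^ 2 * (((2 * (2 * N ^ 2) : ℕ) : ℝ) + 1) / z) * (4 * Γ ^ 5) ^ J +
      (3 * Real.log z + 4) * (4 * Γ ^ 2) ^ J * E / (Y * V) ≤ η := by
  rw [hη]
  unfold ety
  rw [← hJ, ← hΓ, ← hρ]
  have hρ0 : 0 < ρ := by rw [hρ]; exact Real.exp_pos _
  have h1 : E / (Y * V) ≤ ρ * (C3 * Real.log z) ^ (8 * J) := by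
    rw [div_le_iff₀ (by positivity)]
    refine hE.trans ?_
    have h2 : 1 ≤ (C3 * Real.log z) ^ (8 * J) * V := by
      rw [div_le_iff₀ (by positivity)] at hV2
      rw [mul_comm]
      exact hV2
    calc Y * ρ = Y * ρ * 1 := (mul_one _).symm
      _ ≤ Y * ρ * ((C3 * Real.log z) ^ (8 * J) * V) := mul_le_mul_of_nonneg_left h2 (by positivity)
      _ = _ := by ring
  have h3 : 0 ≤ (3 * Real.log z + 4) * (4 * Γ ^ 2) ^ J := by positivity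
  have h4 := mul_le_mul_of_nonneg_left h1 h3
  rw [← mul_div_assoc] at h4
  exact add_le_add le_rfl h4

/-- the constant of the fourth moment -/
theorem c4_le {D n μ Γ : ℝ} {N m : ℕ} (hn : n = N) (hn1 : 100 ≤ n) (hD : 1 ≤ D) (hDn : 4 * D ≤ n) (hm : (m : ℝ) ≤ n)
    (hΓ : Γ = 2 * D * n ^ 2) (hμ0 : 0 ≤ μ) (hμ : μ ≤ n ^ 3) :
    8 * ((1 + m * (2 * Γ * 2 ^ (2 * N ^ 2 * N))) ^ (4 * N) * ((4 * N).factorial : ℝ) * 2 ^ (4 * N + 1) *
        (1 + μ) ^ (4 * N)) ≤ Real.exp (n ^ 5) := by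
  have hn0 : 0 < n := by linarith
  have hD0 : 0 < D := by linarith
  have hm0 : (0 : ℝ) ≤ m := Nat.cast_nonneg m
  have h2e : (2 : ℝ) ≤ Real.exp 1 := by
    have := Real.add_one_le_exp (1 : ℝ)
    linarith
  have h2p : ∀ k : ℕ, (2 : ℝ) ^ k ≤ Real.exp k := by
    intro k
    calc (2 : ℝ) ^ k ≤ Real.exp 1 ^ k := pow_le_pow_left₀ (by norm_num) h2e k
      _ = Real.exp k := by rw [← Real.exp_nat_mul, mul_one]
  have hΓ0 : 0 < Γ := by rw [hΓ]; positivity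
  have hΓn : 2 * Γ ≤ n ^ 3 := by
    rw [hΓ]
    have h1 : n ^ 3 = n * n ^ 2 := by ring
    have h2 : 0 ≤ n ^ 2 := by positivity
    rw [h1]
    nlinarith
  have hne : ∀ y : ℝ, y + 1 ≤ Real.exp y := Real.add_one_le_exp
  -- first factor
  have a1 : 1 + m * (2 * Γ * 2 ^ (2 * N ^ 2 * N)) ≤ Real.exp (n ^ 3 * 3) := by
    have b1 : (2 : ℝ) ^ (2 * N ^ 2 * N) ≤ Real.exp (2 * n ^ 3) := by
      refine (h2p _).trans (Real.exp_le_exp.2 ?_)
      push_cast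
      rw [← hn]
      exact le_of_eq (by ring)
    have b2 : (m : ℝ) * (2 * Γ * 2 ^ (2 * N ^ 2 * N)) ≤ n * (n ^ 3 * Real.exp (2 * n ^ 3)) :=
      mul_le_mul hm (mul_le_mul hΓn b1 (by positivity) (by positivity)) (by positivity) hn0.le
    have b3 : n ^ 4 + 1 ≤ Real.exp (n ^ 3) := by
      have c1 : n ^ 4 + 1 ≤ n ^ 3 * n ^ 3 / 2 := by
        have c2 : (1 : ℝ) ≤ n ^ 4 := one_le_pow₀ (by linarith)
        have c3 : n ^ 3 * n ^ 3 = n ^ 2 * n ^ 4 := by ring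
        have c4 : (10000 : ℝ) ≤ n ^ 2 := by nlinarith
        rw [c3]
        nlinarith
      have c5 := Real.quadratic_le_exp_of_nonneg (by positivity : 0 ≤ n ^ 3)
      have c6 : 0 ≤ n ^ 3 := by positivity
      nlinarith
    have b4 : (1 : ℝ) ≤ Real.exp (2 * n ^ 3) := Real.one_le_exp (by positivity)
    have b5 : Real.exp (n ^ 3 * 3) = Real.exp (n ^ 3) * Real.exp (2 * n ^ 3) := by
      rw [← Real.exp_add]
      ring_nf
    rw [b5]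
    have b6 := mul_le_mul_of_nonneg_right b3 (Real.exp_pos (2 * n ^ 3)).le
    have b7 : n * (n ^ 3 * Real.exp (2 * n ^ 3)) = n ^ 4 * Real.exp (2 * n ^ 3) := by ring
    rw [b7] at b2
    linarith
  have a1' : (1 + m * (2 * Γ * 2 ^ (2 * N ^ 2 * N))) ^ (4 * N) ≤ Real.exp (12 * n ^ 4) := by
    refine (pow_le_pow_left₀ (by positivity) a1 _).trans (le_of_eq ?_)
    rw [← Real.exp_nat_mul]
    congr 1
    push_cast
    rw [← hn]
    ring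
  have a2 : ((4 * N).factorial : ℝ) ≤ Real.exp (16 * n ^ 2) := by
    have b1 : ((4 * N).factorial : ℝ) ≤ ((4 * N : ℕ) : ℝ) ^ (4 * N) := by exact_mod_cast Nat.factorial_le_pow (4 * N)
    refine b1.trans ?_
    have b2 : ((4 * N : ℕ) : ℝ) ≤ Real.exp (4 * n) := by
      push_cast
      rw [← hn]
      have := hne (4 * n)
      linarith
    refine (pow_le_pow_left₀ (Nat.cast_nonneg _) b2 _).trans (le_of_eq ?_)
    rw [← Real.exp_nat_mul]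
    congr 1
    push_cast
    rw [← hn]
    ring
  have a3 : (2 : ℝ) ^ (4 * N + 1) ≤ Real.exp (4 * n + 1) := by
    refine (h2p _).trans (Real.exp_le_exp.2 ?_)
    push_cast
    rw [← hn]
  have a4 : (1 + μ) ^ (4 * N) ≤ Real.exp (4 * n ^ 4) := by
    have b1 : 1 + μ ≤ Real.exp (n ^ 3) := by
      have := hne (n ^ 3)
      linarith
    refine (pow_le_pow_left₀ (by positivity) b1 _).trans (le_of_eq ?_)
    rw [← Real.exp_nat_mul]
    congr 1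
    push_cast
    rw [← hn]
    ring
  have a5 : (8 : ℝ) ≤ Real.exp 7 := by
    have := hne 7
    linarith
  have h := mul_le_mul a5 (mul_le_mul (mul_le_mul (mul_le_mul a1' a2 (by positivity) (by positivity)) a3 (by positivity) (by positivity)) a4
    (by positivity) (by positivity)) (by positivity) (by positivity)
  refine h.trans ?_
  rw [← Real.exp_add, ← Real.exp_add, ← Real.exp_add, ← Real.exp_add]
  refine Real.exp_le_exp.2 ?_
  have c1 : n ^ 5 = n * n ^ 4 := by ring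
  have c2 : n ^ 2 ≤ n ^ 4 := pow_le_pow_right₀ (by linarith) (by norm_num)
  have c3 : n ≤ n ^ 4 := le_self_pow₀ (by linarith) (by norm_num)
  have c4 : 1 ≤ n ^ 4 := one_le_pow₀ (by linarith)
  rw [c1]
  nlinarith

open Classical in
theorem crw : ∃ (B : ℕ) (c0 : ℝ) (m0 : ℕ), 2 ≤ B ∧ 0 < c0 ∧ ∀ m : ℕ, m0 ≤ m → ∀ x : ℝ, 1 ≤ x → (B : ℝ) ^ (512 * m) ≤ Real.log x →
    ∀ (ι : Type) [Fintype ι] [DecidableEq ι] (V w W k0 : ℕ) (c : ι → ℕ) (Ts : Finset ℕ) (Y : ℝ) (E : ℕ → ℝ),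
    (Fintype.card ι : ℝ) * Real.log w ≤ c0 * m * Real.log x →
    1 ≤ V → Real.log V ≤ 1 / 2 * (w * Real.log w) →
    Real.log x ≤ w → (w : ℝ) ≤ Real.log x ^ 3 → FwV V w W (some k0) c →
    DsV V w ⌊x ^ (3 / 8 : ℝ)⌋₊ W (some k0) Ts Y E → 0 < Y →
    (∀ C : ℝ, 1 ≤ C → C ≤ Real.log x ^ (1 / 80 : ℝ) →
        ErS ⌊x ^ (3 / 8 : ℝ)⌋₊ C (Ev V E) ≤ Y * Real.exp (-Real.log x ^ (1 / 25 : ℝ))) →
    (∀ i, ∀ t ∈ Ts, ((W * t + c i : ℕ) : ℝ) ≤ x ^ (m + 1)) →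
    Y ≤ Real.exp ((B : ℝ) ^ (10 * m)) *
      ((Ts.filter (fun t => ∀ i, ∃ p : ℕ, p.Prime ∧ (p : ℝ) ≤ x ^ (1 / 64 : ℝ) ∧ p ∣ W * t + c i)).card : ℝ) := by
  obtain ⟨D, hD, hwbu⟩ := H52GS.wbu
  obtain ⟨C0, hC01, hmv⟩ := mvv
  obtain ⟨C2, hC2, hvv1⟩ := H52GS.vv1
  obtain ⟨C3, hC3, hvql⟩ := vq_low
  have hD0 : 0 < D := by linarith
  have hC20 : 0 < C2 := by linarith
  have hC30 : 0 < C3 := by linarith
  obtain ⟨K, hK⟩ : ∃ K : ℕ, K = 2 := ⟨_, rfl⟩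
  have hK0 : 1 ≤ K := by omega
  have hKr : (1 : ℝ) ≤ K := by exact_mod_cast hK0
  obtain ⟨B, hB16, hB8⟩ : ∃ B : ℕ, 16 ≤ B ∧ 8 * D ^ 2 ≤ (B : ℝ) := by
    refine ⟨⌈8 * D ^ 2⌉₊ + 16, by omega, ?_⟩
    push_cast
    linarith [Nat.le_ceil (8 * D ^ 2)]
  have hBr : (16 : ℝ) ≤ B := by exact_mod_cast hB16
  have hB0 : (0 : ℝ) < B := by linarith
  obtain ⟨N1, hepy⟩ := epy hD hC3
  obtain ⟨N2, hlvy⟩ := lvy
  obtain ⟨c0, hc0⟩ : ∃ c0 : ℝ, c0 = 1 / (64 * (1024 * D * K) * (2 * C2)) := ⟨_, rfl⟩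
  have hc00 : 0 < c0 := by rw [hc0]; positivity
  refine ⟨B, c0, N1 + N2 + 300 * C0 + ⌈4 * D⌉₊ + 100, by omega, hc00, ?_⟩
  intro m hm x hx1 hBx ι _ _ V w W k0 c Ts Y E hι hV1 hVw hw1 hw2 hF hDs hY hEr hLx
  have hx0 : 0 < x := by linarith
  have hm1 : 1 ≤ m := by omega
  obtain ⟨N, hN⟩ : ∃ N : ℕ, N = B ^ (2 * m) := ⟨_, rfl⟩
  have hN256 : (N : ℝ) ^ 256 ≤ Real.log x := by
    refine le_trans (le_of_eq ?_) hBx
    rw [hN]
    push_cast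
    rw [← pow_mul]
    congr 1
    ring
  have hmN : m + 1 ≤ N := by
    have h3 : 2 * m < 2 ^ (2 * m) := Nat.lt_two_pow_self
    have h4 : 2 ^ (2 * m) ≤ B ^ (2 * m) := Nat.pow_le_pow_left (by omega) _
    omega
  have hNbig : N1 + N2 + 300 * C0 + ⌈4 * D⌉₊ + 100 ≤ N := by omega
  have hHpos : 1 ≤ Real.log x := by
    refine le_trans ?_ hBx
    exact one_le_pow₀ (by linarith)
  have hN64 : 100 ≤ N := by omega
  have hNr : (100 : ℝ) ≤ N := by exact_mod_cast hN64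
  have hN0 : (0 : ℝ) < N := by linarith
  have hmr : (0 : ℝ) < m := by exact_mod_cast hm1
  obtain ⟨l1, l2, l3, l4, l5, l6, l8, l9⟩ := hlvy N (by omega) x hx1 hN256
  obtain ⟨ε, hε⟩ : ∃ ε : ℝ, ε = 1 / (N : ℝ) ^ 2 := ⟨_, rfl⟩
  have hε0 : 0 < ε := by rw [hε]; positivity
  rw [← hε] at l1 l2 l3 l4 l5
  obtain ⟨z, hz⟩ : ∃ z : ℕ, z = ⌊x ^ ε⌋₊ := ⟨_, rfl⟩
  rw [← hz] at l2 l3 l4 l5
  obtain ⟨Dm, hDm⟩ : ∃ Dm : ℕ, Dm = ⌊x ^ (3 / 8 : ℝ)⌋₊ := ⟨_, rfl⟩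
  obtain ⟨Sm, hSm⟩ : ∃ Sm : ℕ, Sm = ⌊x ^ (7 / 32 : ℝ)⌋₊ := ⟨_, rfl⟩
  rw [← hSm] at l5 l6
  rw [← hDm] at l5
  have hz2 : 2 ≤ z := by
    have h6 : 1 ≤ (4 * N + 1) * N ^ 2 := Nat.one_le_iff_ne_zero.2 (by positivity)
    calc 2 ≤ 4 * 1 := by norm_num
      _ ≤ 4 * ((4 * N + 1) * N ^ 2) := Nat.mul_le_mul_left 4 h6
      _ = (4 * N + 1) * (2 * (2 * N ^ 2)) := by ring
      _ ≤ z := l3
  have hzx : (z : ℝ) ≤ x ^ ε := by rw [hz]; exact Nat.floor_le (Real.rpow_nonneg hx0.le _)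
  obtain ⟨u1, u2, u3, u4⟩ := H82LX.zfu (ε := ε) hx1 l1
  have hzf : zf ε x = z := by rw [hz]; rfl
  rw [hzf] at u1 u2 u3 u4
  have hwz : w ≤ z := by
    have h1 : (w : ℝ) ≤ z := hw2.trans l2
    exact_mod_cast h1
  obtain ⟨J, hJ⟩ : ∃ J : ℕ, J = 4 * N + 1 := ⟨_, rfl⟩
  have hJw : 4 * J ≤ w := by
    have h1 : ((4 * J : ℕ) : ℝ) ≤ w := by
      refine le_trans ?_ hw1
      rw [hJ]
      push_cast
      linarith only [l8]
    exact_mod_cast h1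
  have hw2' : 2 ≤ w := by omega
  -- the P-scales
  have hBm : (0 : ℝ) < (B : ℝ) ^ m := by positivity
  obtain ⟨v, hv⟩ : ∃ v : ℝ, v = 1 / (B : ℝ) ^ m := ⟨_, rfl⟩
  have hv0 : 0 < v := by rw [hv]; positivity
  have hBm64 : (64 : ℝ) ≤ (B : ℝ) ^ m := by
    have h1 : 64 ≤ B ^ m := by
      calc 64 ≤ 16 ^ 2 := by norm_num
        _ ≤ B ^ 2 := Nat.pow_le_pow_left hB16 2
        _ ≤ B ^ m := Nat.pow_le_pow_right (by omega) (by omega)
    exact_mod_cast h1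
  have hv64 : v ≤ 1 / 64 := by
    rw [hv]
    exact one_div_le_one_div_of_le (by norm_num) hBm64
  have hB1' : 1 ≤ B := by omega
  obtain ⟨vP, hvP⟩ : ∃ vP : ℕ → ℝ, vP = vs B m v := ⟨_, rfl⟩
  have hvPm : Monotone vP := by rw [hvP]; exact vs_mono hB1' hv0.le
  have hvP0 : ∀ a, 0 ≤ vP a := by rw [hvP]; exact vs_nonneg hv0.le
  have hvPv : ∀ a, vP a ≤ v := by rw [hvP]; exact vs_le hB1' hv0.le
  have hvPz : vP 0 = 0 := by rw [hvP]; simp [vs]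
  have hvP1N : 1 / (N : ℝ) ≤ vP 1 := by
    have e1 : vP 1 = v / (B : ℝ) ^ (m - 1) := by rw [hvP]; simp [vs]
    rw [e1, hv, hN, div_div]
    push_cast
    apply one_div_le_one_div_of_le (by positivity)
    rw [← pow_add]
    exact pow_le_pow_right₀ (by linarith) (by omega)
  have hvP1 : 0 < vP 1 := lt_of_lt_of_le (by positivity) hvP1N
  have hceilD : 4 * D ≤ N := by
    refine (Nat.le_ceil _).trans ?_
    have : ⌈4 * D⌉₊ ≤ N := by omega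
    exact_mod_cast this
  have hεP : 4 * D * ε ≤ vP 1 := by
    refine le_trans ?_ hvP1N
    rw [hε, mul_one_div, div_le_div_iff₀ (by positivity) hN0]
    calc 4 * D * N ≤ N * N := mul_le_mul_of_nonneg_right hceilD hN0.le
      _ = 1 * (N : ℝ) ^ 2 := by ring
  have hε64 : ε ≤ 1 / 64 := by
    rw [hε]
    apply one_div_le_one_div_of_le (by norm_num)
    nlinarith only [hNr]
  have hVz : Real.log V ≤ 1 / 2 * ((zf ε x : ℝ) * Real.log (zf ε x)) := by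
    rw [hzf]
    exact H52GS.cond_mono (by omega) hwz hVw
  have hεvs : ε ≤ vs B m v 1 / (4 * D) := by
    rw [le_div_iff₀ (by positivity), ← hvP]
    linarith only [hεP]
  obtain ⟨a1, a2, r1, r2⟩ := hwbu V B m v (1 / 64) ε x hV1 hVz hB8 hm1 hv0 (hv64.trans (by norm_num)) (by norm_num) (by norm_num) hε0
    hεvs hε64 hx1 l1
  obtain ⟨ZP, hZP⟩ : ∃ ZP : ℕ → ℕ, ZP = fun a => zf (vP a) x := ⟨_, rfl⟩
  obtain ⟨R, hR⟩ : ∃ R : ℕ, R = ⌊x ^ (1 / 64 : ℝ)⌋₊ := ⟨_, rfl⟩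
  have hzfR : zf (1 / 64) x = R := by rw [hR]; rfl
  rw [hzf, ← hvP] at a1
  rw [hzf, ← hvP] at a2
  rw [hzf, hzfR] at r1 r2
  rw [← hZP] at a1
  have a2' : ∀ a ≤ m, GG (primorial z * V) (ZP a) ≤ 2 * D / ε := by
    intro a ha
    rw [hZP]
    exact a2 a ha
  have hZPle : ∀ a, (ZP a : ℝ) ≤ x ^ vP a := fun a => by rw [hZP]; exact zf_le hx0.le
  have hZPm : Monotone ZP := by rw [hZP]; exact fun a b hab => zf_mono hx1 (hvPm hab)
  have hZP0 : ZP 0 = 1 := by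
    rw [hZP]
    simp only [hvPz]
    exact zf_zero x
  have hRx : (R : ℝ) ≤ x ^ (1 / 64 : ℝ) := by rw [hR]; exact Nat.floor_le (Real.rpow_nonneg hx0.le _)
  have hzR : z ≤ R := by
    rw [hz, hR]
    exact Nat.floor_le_floor (Real.rpow_le_rpow_of_exponent_le hx1 hε64)
  have hR1 : 1 ≤ R := by omega
  have hle : ∀ (n : ℕ) (e : ℝ), (n : ℝ) ≤ x ^ e → e ≤ 1 / 64 → n ≤ R := by
    intro n e h1 h2
    rw [hR]
    exact Nat.le_floor (h1.trans (Real.rpow_le_rpow_of_exponent_le hx1 h2))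
  have hRxx : (R : ℝ) ≤ x := by
    refine hRx.trans ?_
    calc x ^ (1 / 64 : ℝ) ≤ x ^ (1 : ℝ) := Real.rpow_le_rpow_of_exponent_le hx1 (by norm_num)
      _ = x := Real.rpow_one x
  have hRM : R ≤ z ^ (2 * N ^ 2) := by
    have h1 : (R : ℝ) ≤ ((z ^ (2 * N ^ 2) : ℕ) : ℝ) := by
      push_cast
      exact hRxx.trans l4
    exact_mod_cast h1
  have hZPR : ∀ a, ZP a ≤ R := fun a => hle _ _ (hZPle a) ((hvPv a).trans hv64)
  obtain ⟨Γ, hΓ⟩ : ∃ Γ : ℝ, Γ = 2 * D * (N : ℝ) ^ 2 := ⟨_, rfl⟩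
  have hΓe : 2 * D / ε = Γ := by rw [hε, hΓ, div_div_eq_mul_div, div_one]
  rw [hΓe] at a2' r1
  have hΓ1 : 1 ≤ Γ := by
    rw [hΓ]
    have h1 : (1 : ℝ) ≤ (N : ℝ) ^ 2 := one_le_pow₀ (by linarith only [hNr])
    nlinarith only [h1, hD]
  -- the coefficients
  obtain ⟨cφ, hcφ0, hcφE, hs1, -, hs3⟩ := CoB_f0 (m := m) hm1 (w := vP) (W := wA ZP (primorial z * V)) (v1 := vP 1) (E := 4 * D * ε)
    hvP1 (fun a ha => hvPm (Finset.mem_Icc.1 ha).1) (by positivity) (fun a ha => a1 a ha)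
  obtain ⟨f0, hf0⟩ : ∃ f0 : ℕ → ℝ, f0 = fun a => if a = 0 then 0 else cφ / vP a := ⟨_, rfl⟩
  have hf0' : ∀ a ∈ Icc 1 m, f0 a = cφ / vP a := by
    intro a ha
    have := (Finset.mem_Icc.1 ha).1
    rw [hf0]
    simp only
    rw [if_neg (by omega)]
  have hf0n : ∀ a, 0 ≤ f0 a := by
    intro a
    rw [hf0]
    simp only
    split_ifs
    · exact le_rfl
    · exact div_nonneg hcφ0.le (hvP0 a)
  have hf0le : ∀ a, f0 a ≤ 1 := by
    intro a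
    rw [hf0]
    simp only
    split_ifs with ha
    · norm_num
    · have hwa : vP 1 ≤ vP a := hvPm (by omega)
      have hwa0 : 0 < vP a := lt_of_lt_of_le hvP1 hwa
      rw [div_le_one hwa0]
      refine le_trans ?_ hwa
      refine hcφE.trans ?_
      rw [div_le_iff₀ hmr]
      have h2 : (1 : ℝ) ≤ m := by exact_mod_cast hm1
      exact hεP.trans (le_mul_of_one_le_right hvP1.le h2)
  have hsum1 : ∑ a ∈ Icc 1 m, f0 a * wA ZP (primorial z * V) a = 1 := by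
    rw [← hs1]
    exact Finset.sum_congr rfl fun a ha => by rw [hf0' a ha]
  have hsum3 : ∑ a ∈ Icc 1 m, f0 a ^ 2 * wA ZP (primorial z * V) a * vP a = cφ := by
    refine Eq.trans ?_ hs3
    exact Finset.sum_congr rfl fun a ha => by rw [hf0' a ha]
  -- the structure Sv
  have h2Mz : 2 * (2 * N ^ 2) ≤ z := by
    refine le_trans ?_ l3
    exact Nat.le_mul_of_pos_left _ (by omega)
  have hS : Sv ι N m (2 * N ^ 2) V z R Sm ZP vP f0 (1 / 32) Γ :=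
    { z2 := hz2
      hM := h2Mz
      Z0 := hZP0
      Zm := hZPm
      ZM := fun a _ => (hZPR a).trans hRM
      RM := hRM
      R_pos := hR1
      Γ_one := hΓ1
      ΓP := fun a ha => a2' a ha
      ΓR := r1
      f0_nonneg := hf0n
      f0_le := hf0le
      lev := Crp_lev hx1 hZPle hRx l6 }
  have hSm1 : 1 ≤ Sm := by
    have h1 : (1 : ℝ) ≤ Sm := (Real.one_le_rpow hx1 (by norm_num : (0 : ℝ) ≤ 5 / 32)).trans l6
    exact_mod_cast h1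
  -- densities
  have hVp : ∀ c0' : Option ℕ, ∀ j ≤ J, 0 < Vq V w z c0' j := fun c0' j hj => vq_pos c0' hw2' (by omega)
  have hlogw0 : 0 ≤ Real.log w := Real.log_natCast_nonneg w
  have hlz0 : 0 < Real.log z := Real.log_pos (by
    have : (2 : ℝ) ≤ z := by exact_mod_cast hz2
    linarith)
  obtain ⟨v1, hv1⟩ : ∃ v1 : ℝ, v1 = Vq V w z none 1 := ⟨_, rfl⟩
  have hv1pos : 0 < v1 := by rw [hv1]; exact hVp none 1 (by omega)
  have hv1le : v1 ≤ C2 * Real.log w / (ε / 2 * Real.log x) := by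
    have h1 := hvv1 V w z hw2' hwz hV1 hVw
    have h2 : v1 = H52GS.VV V w z 1 := by rw [hv1]; exact vq_one V w z
    rw [h2]
    refine h1.trans ?_
    apply div_le_div₀ (by positivity) le_rfl (by positivity) u1
  obtain ⟨μ, hμ⟩ : ∃ μ : ℝ, μ = (Fintype.card ι : ℝ) * v1 := ⟨_, rfl⟩
  have hμ0 : 0 ≤ μ := by rw [hμ]; positivity
  have hμU : μ ≤ 1 / 64 * m * (N : ℝ) ^ 2 / (1024 * D * K) := by
    have hcn : (0 : ℝ) ≤ Fintype.card ι := Nat.cast_nonneg _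
    have hx0' : Real.log x ≠ 0 := by linarith
    rw [hμ]
    calc (Fintype.card ι : ℝ) * v1 ≤ (Fintype.card ι : ℝ) * (C2 * Real.log w / (ε / 2 * Real.log x)) :=
          mul_le_mul_of_nonneg_left hv1le hcn
      _ = C2 * ((Fintype.card ι : ℝ) * Real.log w) / (ε / 2 * Real.log x) := by ring
      _ ≤ C2 * (c0 * m * Real.log x) / (ε / 2 * Real.log x) := by
          refine div_le_div_of_nonneg_right (mul_le_mul_of_nonneg_left hι hC20.le) (by positivity)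
      _ = 1 / 64 * m * (N : ℝ) ^ 2 / (1024 * D * K) := by
          rw [hε, hc0]
          field_simp
  have hμN : μ ≤ m * (N : ℝ) ^ 2 := by
    refine hμU.trans ?_
    rw [div_le_iff₀ (by positivity)]
    have h1 : 0 ≤ (m : ℝ) * (N : ℝ) ^ 2 := by positivity
    have h2 : 1 ≤ D * K := one_le_mul_of_one_le_of_one_le hD hKr
    have h3 := mul_le_mul_of_nonneg_left h2 h1
    have h4 : (m : ℝ) * (N : ℝ) ^ 2 * (1024 * D * K) = 1024 * (m * (N : ℝ) ^ 2 * (D * K)) := by ring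
    rw [h4]
    linarith only [h1, h3]
  -- the errors
  obtain ⟨ρ, hρ⟩ : ∃ ρ : ℝ, ρ = Real.exp (-Real.log x ^ (1 / 25 : ℝ)) := ⟨_, rfl⟩
  have hρ0 : 0 < ρ := by rw [hρ]; exact Real.exp_pos _
  obtain ⟨η, hη⟩ : ∃ η : ℝ, η = ety D C3 N z x := ⟨_, rfl⟩
  have hb0 : C0 * (J + 1) ≤ N ^ 2 / 60 := by
    rw [Nat.le_div_iff_mul_le (by norm_num), hJ]
    have h2 : 4 * N + 1 + 1 ≤ 5 * N := by omega
    have h4 : 300 * C0 ≤ N := by omega
    calc C0 * (4 * N + 1 + 1) * 60 ≤ C0 * (5 * N) * 60 := Nat.mul_le_mul_right _ (Nat.mul_le_mul_left _ h2)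
      _ = (300 * C0) * N := by ring
      _ ≤ N * N := Nat.mul_le_mul_right _ h4
      _ = N ^ 2 := by ring
  have hCJ1 : (1 : ℝ) ≤ ((J : ℝ) + 1) ^ 2 * 3 := by
    have h1 : (0 : ℝ) ≤ J := Nat.cast_nonneg J
    nlinarith only [h1]
  have hCJ2 : ((J : ℝ) + 1) ^ 2 * 3 ≤ Real.log x ^ (1 / 80 : ℝ) := by
    rw [hJ]
    exact l9
  have hcond : (3 * Real.exp (-((N ^ 2 / 60 : ℕ) : ℝ)) + 11 * ((J : ℝ) + 1) ^ 2 * (((2 * (2 * N ^ 2) : ℕ) : ℝ) + 1) / z) * (4 * Γ ^ 5) ^ J +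
      (3 * Real.log z + 4) * (4 * Γ ^ 2) ^ J * ErS Dm (((J : ℝ) + 1) ^ 2 * 3) (Ev V E) / (Y * Vq V w z (some k0) J) ≤ η :=
    cond_y hJ hΓ hρ hη hC30 hlz0 (le_trans zero_le_one hΓ1) (hVp (some k0) J le_rfl) (hvql V w z J (some k0) hw2' hJw hwz) hY (by
      rw [hDm, hρ]
      exact hEr _ hCJ1 hCJ2)
  have hJM : J * (2 * (2 * N ^ 2)) ≤ z := by rw [hJ]; exact l3
  have hMv : Mvv V (H52GS.th0 V w z) (Vq V w z (some k0)) z W (2 * (2 * N ^ 2)) J Sm Γ η Ts Y c := by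
    refine hmv J (N ^ 2 / 60) V w z W Dm Sm (2 * (2 * N ^ 2)) Γ η hb0 hJw hw2' hwz hJM hΓ1 ι (some k0) c Ts Y E hF ?_ hY l5 hcond
    rw [hDm]
    exact hDs
  have e2 := hepy N (by omega) m z x μ hx1 hN256 hmN hμ0 hμN (by rw [← hε]; exact hzx) (by rw [← hε]; exact u3)
  rw [← hη] at e2
  have hη0 : 0 ≤ η := hMv.2.1
  have hbase : (1 : ℝ) ≤ 1 + ((m : ℝ) + 1) ^ 2 * μ := by
    have : 0 ≤ ((m : ℝ) + 1) ^ 2 * μ := by positivity
    linarith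
  have h2N1 : (1 : ℝ) ≤ 2 * (N : ℝ) + 1 := by linarith
  have e1 : η * (1 + ((m : ℝ) + 1) ^ 2 * μ) ^ (2 * N) ≤ 1 / 8 := by
    refine le_trans (mul_le_mul_of_nonneg_left ?_ hη0) e2
    have h1 : (1 + ((m : ℝ) + 1) ^ 2 * μ) ^ (2 * N) ≤ (1 + ((m : ℝ) + 1) ^ 2 * μ) ^ (2 * N + 1) :=
      pow_le_pow_right₀ hbase (by omega)
    exact h1.trans (le_mul_of_one_le_left (by positivity) h2N1)
  have e0 : η ≤ 1 / 8 := by
    refine le_trans ?_ e1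
    exact le_mul_of_one_le_right hη0 (one_le_pow₀ hbase)
  have hLz : ∀ i, ∀ t ∈ Ts, W * t + c i ≤ z ^ (2 * N ^ 2 * N) := by
    intro i t ht
    have h1 : ((W * t + c i : ℕ) : ℝ) ≤ ((z ^ (2 * N ^ 2 * N) : ℕ) : ℝ) := by
      refine (hLx i t ht).trans ?_
      push_cast
      rw [pow_mul]
      calc x ^ (m + 1) ≤ x ^ N := pow_le_pow_right₀ hx1 hmN
        _ ≤ ((z : ℝ) ^ (2 * N ^ 2)) ^ N := pow_le_pow_left₀ hx0.le l4 N
    exact_mod_cast h1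
  have hres := cow (N := N) (m := m) (M := 2 * N ^ 2) (M' := 2 * N ^ 2 * N) (V := V) (w := w) (z := z) (W := W) (R := R) (Sm := Sm)
    (J := J) (y0 := R) (Z := ZP) (v := vP) (f0 := f0) (l := 1 / 32)
    (vm := v) (τ := (B : ℝ) ^ m) (Γ := Γ) (η := η) (Y := Y) (c0 := some k0) hS (by omega)
    (c := c) (Ts := Ts) hw2' hJw (by omega) (by omega) hY hSm1 hMv e0 hF.cpos hLz
    hvP0 hvPz (fun a _ => hvPv a) (by
      intro a ha
      have h1 : vP 1 ≤ vP a := hvPm (Finset.mem_Icc.1 ha).1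
      have h2 : (N : ℝ) * (1 / N) ≤ N * vP a := mul_le_mul_of_nonneg_left (hvP1N.trans h1) hN0.le
      have h3 : (N : ℝ) * (1 / N) = 1 := by field_simp
      linarith only [h2, h3]) (by norm_num) hBm.le hsum1 le_rfl hzR (fun a _ => hZPR a)
    (by
      rw [← hv1, ← hμ]
      exact e1)
    (by
      rw [← hv1, ← hμ]
      exact e2)
    (by
      rw [← hv1, ← hμ]
      have hcn := cnv (D := D) (r := 1 / 64) (Nr := N) (m := m) (cφ := cφ) (G := 1 / GG (primorial z * V) R) (μ := μ)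
        (S := ∑ a ∈ Icc 1 m, f0 a ^ 2 * wA ZP (primorial z * V) a * (Real.exp ((B : ℝ) ^ m * vP a) - 1)) (τ := (B : ℝ) ^ m)
        (lv := 1 / 32 - v) (E := Real.exp (-((B : ℝ) ^ m / 128))) (Kr := K)
        hD (by norm_num) (by norm_num) hN0 hmr hKr ?_ ?_ hμ0 hμU hcφ0 ?_
        hBm.le (H82LX.Cor_S hBm.le ?_ ?_ hsum3) (by linarith only [hv64]) rfl (mcv2 m B (by omega) (by omega))
      · rw [hK] at hcn
        push_cast at hcn
        linarith only [hcn]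
      · have hGG : 1 ≤ GG (primorial z * V) R := gg_ge_one _ (by omega)
        exact div_nonneg (by norm_num) (le_trans zero_le_one hGG)
      · rw [← hε]
        exact r2
      · rw [← hε]
        exact hcφE
      · intro a ha
        refine ⟨hvP0 a, ?_⟩
        calc (B : ℝ) ^ m * vP a ≤ (B : ℝ) ^ m * v := mul_le_mul_of_nonneg_left (hvPv a) hBm.le
          _ = 1 := by rw [hv]; field_simp
      · intro a _
        exact wA_nonneg _ hZPm a)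
  refine hres.trans ?_
  rw [← hv1, ← hμ]
  have hmn : (m : ℝ) ≤ N := by
    have : m ≤ N := by omega
    exact_mod_cast this
  have hc4 := c4_le (D := D) (n := (N : ℝ)) (μ := μ) (Γ := Γ) (N := N) (m := m) rfl hNr hD hceilD hmn hΓ hμ0 (by
    refine hμN.trans ?_
    calc (m : ℝ) * (N : ℝ) ^ 2 ≤ N * (N : ℝ) ^ 2 := mul_le_mul_of_nonneg_right hmn (by positivity)
      _ = (N : ℝ) ^ 3 := by ring)
  have hN5 : (N : ℝ) ^ 5 = (B : ℝ) ^ (10 * m) := by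
    rw [hN]
    push_cast
    rw [← pow_mul]
    congr 1
    ring
  rw [hN5] at hc4
  refine mul_le_mul hc4 ?_ (Nat.cast_nonneg _) (Real.exp_pos _).le
  refine Nat.cast_le.2 (Finset.card_le_card ?_)
  intro t ht
  rw [Finset.mem_filter] at ht ⊢
  refine ⟨ht.1, fun i => ?_⟩
  obtain ⟨p, hp, hpR, hpd⟩ := ht.2 i
  refine ⟨p, hp, ?_, hpd⟩
  calc (p : ℝ) ≤ R := by exact_mod_cast hpR
    _ ≤ x ^ (1 / 64 : ℝ) := hRx

end H78TP
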