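import Pool.Agent.H78.TP.Fw
import Pool.Agent.H78.TP.Cb

/-!
# The frequency of the `n` without a small index
-/

set_option autoImplicit false

namespace H78TP

open Pool.Agent.H78.CB

lemma pr_pi {p : ℕ} (hp : p.Prime) : pr (Nat.primeCounting p) = p := by
  unfold pr
  have h1 : Nat.primeCounting p = Nat.count Nat.Prime p + 1 := by
    unfold Nat.primeCounting Nat.primeCounting'
    rw [Nat.count_succ, if_pos hp]
  rw [h1, Nat.add_sub_cancel]
  exact Nat.nth_count hp

/-- `t / log t` is increasing -/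
lemma div_log_mono {a b : ℝ} (ha : Real.exp 1 ≤ a) (hab : a ≤ b) : a / Real.log a ≤ b / Real.log b := by
  have ha0 : 0 < a := (Real.exp_pos _).trans_le ha
  have h1 : 1 ≤ Real.log a := (Real.le_log_iff_exp_le ha0).2 ha
  have h2 : Real.log a ≤ Real.log b := Real.log_le_log ha0 hab
  have h3 := Real.log_div_self_antitoneOn (a := a) (b := b) ha (ha.trans hab) hab
  have hb0 : 0 < b := ha0.trans_le hab
  have hlb : 0 < Real.log b := by linarith
  simp only at h3
  rw [div_le_div_iff₀ hb0 ha0] at h3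
  rw [div_le_div_iff₀ (by linarith) hlb]
  linarith

open Classical in
theorem cbmainw : ∃ c C : ℝ, 0 < c ∧ 0 < C ∧ c * C ≤ 1 / 2 ∧ ∃ N0 : ℕ, ∀ N : ℕ, N0 ≤ N → ∀ lam : ℝ, 1 ≤ lam →
    lam ≤ c * Real.log (Real.log N) →
    (N : ℝ) ≤ Real.exp (Real.exp (C * lam)) * (((Finset.Icc 1 N).filter (fun n : ℕ => ∀ k : ℕ, 1 < k →
      (k : ℝ) ≤ lam * Real.log N / Real.log (Real.log N) → ¬ (pr n + cb k).Prime ∧
      ∃ q : ℕ, q.Prime ∧ (q : ℝ) ≤ (N : ℝ) ^ (1 / 32 : ℝ) ∧ q ∣ pr n + cb k)).card : ℝ) := by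
  obtain ⟨c1, C1, x0, hc1, hC1, hcC1, hmain⟩ := mainw 45 (by norm_num)
  -- Chebyshev
  obtain ⟨x1, hx1⟩ := Filter.eventually_atTop.1 (Chebyshev.eventually_primeCounting_le (ε := 1) one_pos)
  -- growth
  obtain ⟨t1, ht1⟩ := Filter.eventually_atTop.1 ((Real.isLittleO_log_id_atTop.bound (show (0 : ℝ) < 1 / 45 by norm_num)))
  refine ⟨min c1 (min 1 (1 / (2 * (C1 + 2)))), C1 + 2, by positivity, by linarith, ?_, ?_⟩
  · calc min c1 (min 1 (1 / (2 * (C1 + 2)))) * (C1 + 2) ≤ 1 / (2 * (C1 + 2)) * (C1 + 2) :=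
          mul_le_mul_of_nonneg_right ((min_le_right _ _).trans (min_le_right _ _)) (by linarith)
      _ = 1 / 2 := by field_simp
  refine ⟨⌈x0⌉₊ + ⌈x1⌉₊ + ⌈t1⌉₊ + ⌈Real.exp 64⌉₊ + 2, fun N hN lam hlam1 hlam2 => ?_⟩
  have hNx0 : x0 ≤ N := (Nat.le_ceil x0).trans (by exact_mod_cast (by omega : ⌈x0⌉₊ ≤ N))
  have hNx1 : x1 ≤ N := (Nat.le_ceil x1).trans (by exact_mod_cast (by omega : ⌈x1⌉₊ ≤ N))
  have hNt1 : t1 ≤ N := (Nat.le_ceil t1).trans (by exact_mod_cast (by omega : ⌈t1⌉₊ ≤ N))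
  have hNe : Real.exp 64 ≤ N := (Nat.le_ceil _).trans (by exact_mod_cast (by omega : ⌈Real.exp 64⌉₊ ≤ N))
  have hN2 : 2 ≤ N := by omega
  have hN0 : (0 : ℝ) < N := (Real.exp_pos _).trans_le hNe
  have hlN : 64 ≤ Real.log N := (Real.le_log_iff_exp_le hN0).2 hNe
  have hllN : 1 ≤ Real.log (Real.log N) := by
    rw [Real.le_log_iff_exp_le (by linarith)]
    linarith [Real.exp_one_lt_d9]
  obtain ⟨x, hx⟩ : ∃ x : ℝ, x = (pr N : ℝ) := ⟨_, rfl⟩
  have hNx : (N : ℝ) ≤ x := by rw [hx]; exact_mod_cast le_pr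
  have hx0 : 0 < x := hN0.trans_le hNx
  have hxN2 : x ≤ (N : ℝ) ^ 2 := by
    rw [hx]
    refine (pr_le hN2).trans ?_
    have h1 := ht1 N hNt1
    simp only [id_eq, Real.norm_eq_abs] at h1
    rw [abs_of_nonneg (by linarith : (0 : ℝ) ≤ Real.log N), abs_of_nonneg hN0.le] at h1
    have h2 : (N : ℝ) * Real.log N ≤ N * (1 / 45 * N) := mul_le_mul_of_nonneg_left h1 hN0.le
    calc 45 * ((N : ℝ) * Real.log N) ≤ 45 * (N * (1 / 45 * N)) := by linarith
      _ = (N : ℝ) ^ 2 := by ring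
  have hlx : Real.log N ≤ Real.log x := Real.log_le_log hN0 hNx
  have hllx : Real.log (Real.log N) ≤ Real.log (Real.log x) := Real.log_le_log (by linarith) hlx
  have hlam3 : lam ≤ c1 * Real.log (Real.log x) := by
    refine hlam2.trans ?_
    calc min c1 (min 1 (1 / (2 * (C1 + 2)))) * Real.log (Real.log N) ≤ c1 * Real.log (Real.log N) :=
          mul_le_mul_of_nonneg_right (min_le_left _ _) (by linarith)
      _ ≤ c1 * Real.log (Real.log x) := mul_le_mul_of_nonneg_left hllx hc1.le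
  have hlam4 : lam ≤ Real.log (Real.log N) := by
    refine hlam2.trans ?_
    calc min c1 (min 1 (1 / (2 * (C1 + 2)))) * Real.log (Real.log N) ≤ 1 * Real.log (Real.log N) :=
          mul_le_mul_of_nonneg_right ((min_le_right _ _).trans (min_le_left _ _)) (by linarith)
      _ = Real.log (Real.log N) := one_mul _
  obtain ⟨u, hu⟩ : ∃ u : ℝ, u = lam * Real.log N / Real.log (Real.log N) := ⟨_, rfl⟩
  have hu0 : 0 ≤ u := by rw [hu]; positivity
  have huN : u ≤ Real.log N := by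
    rw [hu, div_le_iff₀ (by linarith)]
    calc lam * Real.log N ≤ Real.log (Real.log N) * Real.log N := mul_le_mul_of_nonneg_right hlam4 (by linarith)
      _ = Real.log N * Real.log (Real.log N) := by ring
  have hux : u ≤ lam * Real.log x / Real.log (Real.log x) := by
    rw [hu, mul_div_assoc, mul_div_assoc]
    refine mul_le_mul_of_nonneg_left (div_log_mono ?_ hlx) (by linarith)
    linarith [Real.exp_one_lt_d9]
  rw [← hu]
  set S : Finset ℤ := (Finset.Icc 2 ⌊u⌋₊).image (fun k => ((cb k : ℕ) : ℤ)) with hSdef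
  have hcard : (S.card : ℝ) ≤ lam * Real.log x / Real.log (Real.log x) := by
    have h1 : S.card ≤ ⌊u⌋₊ := by
      refine Finset.card_image_le.trans ?_
      rw [Nat.card_Icc]
      omega
    have h2 : (S.card : ℝ) ≤ u := le_trans (by exact_mod_cast h1) (Nat.floor_le hu0)
    exact h2.trans hux
  have hres := hmain x (hNx0.trans hNx) lam hlam1 hlam3 S hcard (by
    intro s hs
    rw [hSdef, Finset.mem_image] at hs
    obtain ⟨k, hk, rfl⟩ := hs
    rw [Finset.mem_Icc] at hk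
    have hku : (k : ℝ) ≤ u := le_trans (by exact_mod_cast hk.2) (Nat.floor_le hu0)
    have hk2 : (2 : ℝ) ≤ k := by exact_mod_cast hk.1
    have hpos := cb_pos k
    refine ⟨by exact_mod_cast hpos.ne', ?_, ?_⟩
    · have h1 : (0 : ℝ) ≤ (((cb k : ℕ) : ℤ) : ℝ) := by exact_mod_cast Nat.zero_le _
      linarith
    · have h1 : (((cb k : ℕ) : ℤ) : ℝ) = (cb k : ℝ) := by push_cast; rfl
      rw [h1, Real.rpow_def_of_pos hx0]
      refine (cb_le hk.1).trans (Real.exp_le_exp.2 ?_)
      have h2 : Real.log k ≤ Real.log (Real.log N) := Real.log_le_log (by linarith) (hku.trans huN)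
      have h3 : (k : ℝ) * Real.log k ≤ u * Real.log (Real.log N) :=
        mul_le_mul hku h2 (Real.log_nonneg (by linarith)) hu0
      have h4 : u * Real.log (Real.log N) = lam * Real.log N := by
        rw [hu]
        have : Real.log (Real.log N) ≠ 0 := by linarith
        field_simp
      have h5 : lam * Real.log N ≤ lam * Real.log x := mul_le_mul_of_nonneg_left hlx (by linarith)
      linarith)
  -- counting
  have hflx : ⌊x⌋₊ = pr N := by rw [hx]; exact Nat.floor_natCast _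
  have hinj : (((Finset.Icc 1 ⌊x⌋₊).filter (fun p : ℕ => p.Prime ∧ x / 3 ≤ (p : ℝ) ∧
        ∀ s ∈ S, ∃ q : ℕ, q.Prime ∧ (q : ℝ) ≤ x ^ (1 / 64 : ℝ) ∧ (q : ℤ) ∣ (p : ℤ) + s)).card : ℝ) ≤
      (((Finset.Icc 1 N).filter (fun n : ℕ => ∀ k : ℕ, 1 < k →
      (k : ℝ) ≤ u → ¬ (pr n + cb k).Prime ∧
      ∃ q : ℕ, q.Prime ∧ (q : ℝ) ≤ (N : ℝ) ^ (1 / 32 : ℝ) ∧ q ∣ pr n + cb k)).card : ℝ) := by
    refine Nat.cast_le.2 (Finset.card_le_card_of_injOn Nat.primeCounting ?_ ?_)
    · intro p hp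
      rw [Finset.mem_coe, Finset.mem_filter, Finset.mem_Icc, hflx] at hp
      obtain ⟨⟨-, hp1⟩, hp2, hp3, hp4⟩ := hp
      rw [Finset.mem_coe, Finset.mem_filter, Finset.mem_Icc]
      refine ⟨⟨?_, ?_⟩, ?_⟩
      · have h1 : Nat.primeCounting p = Nat.count Nat.Prime p + 1 := by
          unfold Nat.primeCounting Nat.primeCounting'
          rw [Nat.count_succ, if_pos hp2]
        omega
      · have h1 := Nat.monotone_primeCounting hp1
        rwa [pi_pr (by omega)] at h1
      · intro k hk1 hk2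
        rw [pr_pi hp2]
        obtain ⟨q, hq1, hq2, hq3⟩ := hp4 ((cb k : ℕ) : ℤ) (by
          rw [hSdef, Finset.mem_image]
          refine ⟨k, ?_, rfl⟩
          rw [Finset.mem_Icc]
          exact ⟨hk1, Nat.le_floor hk2⟩)
        have hq4 : q ∣ p + cb k := by exact_mod_cast hq3
        refine ⟨?_, q, hq1, ?_, hq4⟩
        · intro hpr
          have h1 : q = p + cb k := (Nat.prime_dvd_prime_iff_eq hq1 hpr).1 hq4
          have h2 := UC.Cru_x64 (x := x) (by
            have := Real.add_one_le_exp (64 : ℝ)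
            linarith) (by linarith)
          have h3 : (p : ℝ) ≤ q := by
            rw [h1]
            push_cast
            have : (0 : ℝ) ≤ (cb k : ℝ) := Nat.cast_nonneg _
            linarith
          linarith
        · refine hq2.trans ?_
          calc x ^ (1 / 64 : ℝ) ≤ ((N : ℝ) ^ 2) ^ (1 / 64 : ℝ) := Real.rpow_le_rpow hx0.le hxN2 (by norm_num)
            _ = (N : ℝ) ^ (1 / 32 : ℝ) := by
                rw [← Real.rpow_natCast (N : ℝ) 2, ← Real.rpow_mul hN0.le]
                norm_num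
    · intro a ha b hb hab
      rw [Finset.mem_coe, Finset.mem_filter] at ha hb
      rw [← pr_pi ha.2.1, ← pr_pi hb.2.1, hab]
  have hcheb : (N : ℝ) ≤ 3 * (x / Real.log x) := by
    have h1 := hx1 x (hNx1.trans hNx)
    rw [hflx, pi_pr (by omega)] at h1
    refine h1.trans ?_
    have h2 : Real.log 4 + 1 ≤ 3 := by
      have h3 : Real.log 4 = 2 * Real.log 2 := by
        rw [show (4 : ℝ) = 2 ^ 2 by norm_num, Real.log_pow]
        push_cast
        ring
      have h4 := Real.log_two_lt_d9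
      linarith
    rw [mul_div_assoc]
    exact mul_le_mul_of_nonneg_right h2 (div_nonneg hx0.le (by linarith))
  have hexp : 3 * Real.exp (Real.exp (C1 * lam)) ≤ Real.exp (Real.exp ((C1 + 2) * lam)) := by
    obtain ⟨F, hF⟩ : ∃ F : ℝ, F = Real.exp (C1 * lam) := ⟨_, rfl⟩
    have hF1 : 1 ≤ F := by rw [hF]; exact Real.one_le_exp (by positivity)
    have h1 : Real.exp ((C1 + 2) * lam) = F * Real.exp (2 * lam) := by
      rw [hF, ← Real.exp_add]
      congr 1
      ring
    have h2 : 3 ≤ Real.exp (2 * lam) := by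
      have := Real.add_one_le_exp (2 * lam)
      linarith
    have h3 : F + 2 ≤ F * Real.exp (2 * lam) := by nlinarith
    have h4 : (3 : ℝ) ≤ Real.exp 2 := by
      have := Real.add_one_le_exp (2 : ℝ)
      linarith
    rw [← hF, h1]
    calc 3 * Real.exp F ≤ Real.exp 2 * Real.exp F := mul_le_mul_of_nonneg_right h4 (Real.exp_pos _).le
      _ = Real.exp (2 + F) := by rw [Real.exp_add]
      _ ≤ Real.exp (F * Real.exp (2 * lam)) := Real.exp_le_exp.2 (by linarith)
  calc (N : ℝ) ≤ 3 * (x / Real.log x) := hcheb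
    _ ≤ 3 * (Real.exp (Real.exp (C1 * lam)) * _) := mul_le_mul_of_nonneg_left hres (by norm_num)
    _ = (3 * Real.exp (Real.exp (C1 * lam))) * _ := by ring
    _ ≤ Real.exp (Real.exp ((C1 + 2) * lam)) * _ := mul_le_mul hexp hinj (Nat.cast_nonneg _) (Real.exp_pos _).le

end H78TP
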