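import Pool.Agent.H17.UC.Dgu
import Pool.Agent.H52.GS.Df

/-!
# Primes `p` with `p + s` composite for all `s` in an arbitrary set of `c log x` shifts: definitions

As `Pool/Agent/H17/UC` (helper17), with the primes dividing a number `V` removed (as in `Pool/Agent/H52/GS`), and without a cluster.
-/

set_option autoImplicit false

open Finset EG H69PG H73PC

namespace H78TP

/-- the product of the local factors for `j` forms -/
noncomputable def Vq (V w z : ℕ) (c0 : Option ℕ) (j : ℕ) : ℝ := ∏ p ∈ H52GS.PK V w z, (1 - (j : ℝ) / ph c0 p)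

open Classical in
/-- errors, `0` for the moduli not coprime to `V` -/
noncomputable def Ev (V : ℕ) (E : ℕ → ℝ) (d : ℕ) : ℝ := if Nat.Coprime d V then E d else 0

/-- equidistribution of `Ts` in the alive classes modulo `d` for squarefree `d ≤ Dm` coprime to `V` with all prime factors `> w` -/
structure DsV (V w Dm W : ℕ) (c0 : Option ℕ) (Ts : Finset ℕ) (Y : ℝ) (E : ℕ → ℝ) : Prop where
  Y_nonneg : 0 ≤ Y
  E_nonneg : ∀ d, 0 ≤ E d
  mem : ∀ t ∈ Ts, ∀ p : ℕ, p.Prime → w < p → p ≤ Dm → ¬ p ∣ V → al W c0 p t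
  cnt : ∀ d : ℕ, Squarefree d → d ≤ Dm → (∀ p : ℕ, p.Prime → p ∣ d → w < p) → Nat.Coprime d V → ∀ a : ℕ,
    (∀ p : ℕ, p.Prime → p ∣ d → al W c0 p a) →
    |((Ts.filter (fun t => t ≡ a [MOD d])).card : ℝ) - Y / Ph c0 d| ≤ E d

/-- linear forms `W t + c i` whose differences have large prime factors only in `V` -/
structure FwV {ι : Type} (V w W : ℕ) (c0 : Option ℕ) (c : ι → ℕ) : Prop where
  pos : 1 ≤ W
  pr : ∀ p : ℕ, p.Prime → p ∣ W → p ≤ w
  inj : Function.Injective c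
  df : ∀ i j, i ≠ j → ∀ p : ℕ, p.Prime → w < p → (p : ℤ) ∣ (c i : ℤ) - c j → p ∣ V
  cpos : ∀ i, 1 ≤ c i
  df0 : ∀ k ∈ c0, ∀ i, ∀ p : ℕ, p.Prime → w < p → (p : ℤ) ∣ (c i : ℤ) - k → p ∣ V

/-- a function of one form of the shape `th · (divisor sum)`, mean value `s`, moduli at most `sz` -/
def Cdv (V : ℕ) (th : ℕ → ℝ) (z M : ℕ) (Γ : ℝ) (sz : ℕ) (F : ℕ → ℝ) (s : ℝ) : Prop :=
  ∃ (D : Finset ℕ) (f : ℕ → ℝ), Good (primorial z * V) D ∧ (∀ B ∈ D, B ≤ z ^ M ∧ B ≤ sz) ∧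
    (∀ B ∈ D, |f B| ≤ 4 * Γ ^ 2 * 3 ^ B.primeFactors.card) ∧ (∑ B ∈ D, |f B| / (B : ℝ) ≤ 4 * Γ ^ 5) ∧
    (∀ p : ℕ, p.Prime → z < p → ∑ B ∈ D.filter (fun B => p ∣ B), |f B| / (B : ℝ) ≤ 3 / (p : ℝ) * (4 * Γ ^ 5)) ∧
    (∀ L, F L = th L * Fn D f L) ∧ SS D f 1 = s

/-- mean values of products over sets `U` with at most `J` elements and total size of the moduli at most `Sm` -/
def Mvv (V : ℕ) {ι : Type} (th : ℕ → ℝ) (Vf : ℕ → ℝ) (z W M J Sm : ℕ) (Γ η : ℝ) (Ts : Finset ℕ) (Y : ℝ) (c : ι → ℕ) : Prop :=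
  0 ≤ Y ∧ 0 ≤ η ∧ ∀ U : Finset ι, U.card ≤ J → ∀ (F : ι → ℕ → ℝ) (s : ι → ℝ) (sz : ι → ℕ),
    (∀ i ∈ U, Cdv V th z M Γ (sz i) (F i) (s i)) → ∏ i ∈ U, sz i ≤ Sm →
    |∑ t ∈ Ts, ∏ i ∈ U, F i (W * t + c i) - Y * Vf U.card * ∏ i ∈ U, s i| ≤ η * (Y * Vf U.card)

theorem th_01 (V w z L : ℕ) : H52GS.th0 V w z L = 0 ∨ H52GS.th0 V w z L = 1 := by
  unfold H52GS.th0
  split_ifs
  · exact Or.inr rfl
  · exact Or.inl rfl

theorem th_sq (V w z L : ℕ) : H52GS.th0 V w z L * H52GS.th0 V w z L = H52GS.th0 V w z L := by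
  rcases th_01 V w z L with h | h <;> rw [h] <;> norm_num

theorem mem_PKv {V w z p : ℕ} : p ∈ H52GS.PK V w z ↔ (w < p ∧ p ≤ z) ∧ p.Prime ∧ ¬ p ∣ V := by
  unfold H52GS.PK
  rw [Finset.mem_filter, Finset.mem_Ioc]

theorem PKv_sub {V w z p : ℕ} (h : p ∈ H52GS.PK V w z) : p ∈ PK w z := by
  have := mem_PKv.1 h
  unfold PK
  rw [Finset.mem_filter, Finset.mem_Ioc]
  exact ⟨this.1, this.2.1⟩

lemma cop_Wv {ι : Type} {V w W : ℕ} {c0 : Option ℕ} {c : ι → ℕ} (hF : FwV V w W c0 c) {p : ℕ}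
    (hp : p.Prime) (hpw : w < p) : Nat.Coprime p W := by
  rw [hp.coprime_iff_not_dvd]
  intro h
  have := hF.pr p hp h
  omega

lemma dvd_sub_forms {W a p x y : ℕ} (h1 : p ∣ W * a + x) (h2 : p ∣ W * a + y) : (p : ℤ) ∣ (x : ℤ) - y := by
  have h3 : (p : ℤ) ∣ ((W * a + x : ℕ) : ℤ) := by exact_mod_cast h1
  have h4 : (p : ℤ) ∣ ((W * a + y : ℕ) : ℤ) := by exact_mod_cast h2
  have h5 := dvd_sub h3 h4
  have h6 : ((W * a + x : ℕ) : ℤ) - ((W * a + y : ℕ) : ℤ) = (x : ℤ) - y := by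
    push_cast
    ring
  rwa [h6] at h5

theorem nuv {ι : Type} [Fintype ι] [DecidableEq ι] {V w W : ℕ} {c0 : Option ℕ} {c : ι → ℕ} (hF : FwV V w W c0 c)
    {p : ℕ} (hp : p.Prime) (hpw : w < p) (hpV : ¬ p ∣ V) : nu W c0 c p = Fintype.card ι := by
  classical
  choose r hr hr' using fun i => one_cls (k := c i) hp (cop_Wv hF hp hpw)
  have hrd : ∀ i, p ∣ W * r i + c i := fun i => (hr' i (r i) (hr i)).2 rfl
  have hinj : Function.Injective r := by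
    intro i i' h
    by_contra hne
    refine hpV (hF.df i i' hne p hp hpw (dvd_sub_forms (hrd i) ?_))
    rw [h]
    exact hrd i'
  have heq : (range p).filter (fun a => al W c0 p a ∧ ∃ i, p ∣ W * a + c i) = univ.image r := by
    ext a
    rw [mem_filter, mem_range, mem_image]
    constructor
    · rintro ⟨h1, h2, i, hi⟩
      exact ⟨i, mem_univ _, ((hr' i a h1).1 hi).symm⟩
    · rintro ⟨i, -, rfl⟩
      refine ⟨hr i, ?_, i, hrd i⟩
      intro k hk hd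
      exact hpV (hF.df0 k hk i p hp hpw (dvd_sub_forms (hrd i) hd))
  have h9 : nu W c0 c p = (univ.image r).card := by
    rw [nu, ← heq]
    congr
  rw [h9, card_image_of_injective _ hinj, card_univ]

theorem gdv {ι : Type} [Fintype ι] [DecidableEq ι] {V w W : ℕ} {c0 : Option ℕ} {c : ι → ℕ} (hF : FwV V w W c0 c)
    {p : ℕ} (hp : p.Prime) (hpw : w < p) (hpV : ¬ p ∣ V) : gd W c0 c p = (Fintype.card ι : ℝ) / ph c0 p := by
  rw [gd, nuv hF hp hpw hpV]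

theorem nu_lev {ι : Type} [Fintype ι] [DecidableEq ι] {V w W : ℕ} {c0 : Option ℕ} {c : ι → ℕ} (hF : FwV V w W c0 c) {p : ℕ}
    (hp : p.Prime) (hpw : w < p) : nu W c0 c p ≤ Fintype.card ι := by
  classical
  choose r hr hr' using fun i => one_cls (k := c i) hp (cop_Wv hF hp hpw)
  rw [nu]
  refine (card_le_card (t := univ.image r) ?_).trans (card_image_le.trans (le_of_eq card_univ))
  intro a ha
  rw [@mem_filter, mem_range] at ha
  obtain ⟨h1, h2, i, hi⟩ := ha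
  rw [mem_image]
  exact ⟨i, mem_univ _, ((hr' i a h1).1 hi).symm⟩

/-- two of the forms have no common large prime factor outside `V` -/
lemma cop_forms {ι : Type} {V w z W : ℕ} {c0 : Option ℕ} {c : ι → ℕ} (hwz : w ≤ z) (hF : FwV V w W c0 c) {B : ι → ℕ}
    (hB : ∀ i, Squarefree (B i) ∧ Nat.Coprime (B i) (primorial z * V)) {t : ℕ} (ht : ∀ i, B i ∣ W * t + c i)
    {i i' : ι} (hi : i ≠ i') : Nat.Coprime (B i) (B i') := by
  by_contra hcon
  obtain ⟨p, hp, h1, h2⟩ := Nat.Prime.not_coprime_iff_dvd.1 hcon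
  have hzp : z < p := by
    by_contra hle
    have h3 : p ∣ primorial z * V := ((Nat.Prime.dvd_primorial_iff hp).2 (not_lt.1 hle)).mul_right V
    have h4 := Nat.dvd_gcd h1 h3
    rw [(hB i).2] at h4
    exact hp.one_lt.ne' (Nat.dvd_one.1 h4)
  have h5 := dvd_sub_forms (h1.trans (ht i)) (h2.trans (ht i'))
  have h6 : p ∣ V := hF.df i i' hi p hp (by omega) h5
  have h7 := Nat.dvd_gcd h1 (h6.mul_left (primorial z))
  rw [(hB i).2] at h7
  exact hp.one_lt.ne' (Nat.dvd_one.1 h7)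

end H78TP
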