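import Pool.Agent.H78.TP.Cr
import Pool.Agent.H17.UC.Egu

/-!
# Means of products of divisor sums, uniformly in the number of forms (as `egu` in `Pool/Agent/H17/UC/Egu.lean`)
-/

set_option autoImplicit false

open Finset EG H69PG H73PC

namespace H78TP

lemma Egv_th {ι : Type} [Fintype ι] (V w z W : ℕ) (c : ι → ℕ) (t : ℕ) :
    ∏ i, H52GS.th0 V w z (W * t + c i) =
      (open Classical in if ∀ p ∈ PK w z, ¬ (¬ p ∣ V ∧ ∃ i, p ∣ W * t + c i) then (1 : ℝ) else 0) := by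
  classical
  by_cases h : ∀ p ∈ PK w z, ¬ (¬ p ∣ V ∧ ∃ i, p ∣ W * t + c i)
  · rw [if_pos h]
    refine prod_eq_one fun i _ => ?_
    unfold H52GS.th0
    rw [if_pos]
    intro p hp hd
    exact h p (PKv_sub hp) ⟨(mem_PKv.1 hp).2.2, i, hd⟩
  · rw [if_neg h]
    push Not at h
    obtain ⟨p, hp, hne, i, hd⟩ := h
    refine prod_eq_zero (mem_univ i) ?_
    unfold H52GS.th0
    rw [if_neg]
    intro h'
    refine h' p ?_ hd
    rw [mem_PKv]
    obtain ⟨h1, h2, h3⟩ := bh_mem_PK.1 hp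
    exact ⟨⟨h1, h2⟩, h3, hne⟩

lemma Egv_Ev0 (V : ℕ) {E : ℕ → ℝ} (hE : ∀ d, 0 ≤ E d) (d : ℕ) : 0 ≤ Ev V E d := by
  unfold Ev
  split_ifs
  · exact hE d
  · exact le_rfl

theorem egv : ∃ C : ℕ, 1 ≤ C ∧ ∀ J b0 : ℕ, C * (J + 1) ≤ b0 → ∀ (ι : Type) [Fintype ι] [DecidableEq ι], Fintype.card ι = J →
    ∀ V w z W Dm : ℕ, 4 * J ≤ w → 2 ≤ w → w ≤ z → ∀ (c0 : Option ℕ) (c : ι → ℕ) (Ts : Finset ℕ) (Y : ℝ)
    (E : ℕ → ℝ), FwV V w W c0 c → DsV V w Dm W c0 Ts Y E → ∀ (Ds : ι → Finset ℕ) (f : ι → ℕ → ℝ),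
    (∀ i, Good (primorial z * V) (Ds i)) → (∀ B ∈ Fintype.piFinset Ds, (∏ i, B i) * z ^ (4 * b0 + 10) ≤ Dm) →
    |∑ t ∈ Ts, ∏ i, (H52GS.th0 V w z (W * t + c i) * Fn (Ds i) (f i) (W * t + c i)) -
        Y * Vq V w z c0 J * ∑ B ∈ PC Ds, ∏ i, (f i (B i) / Ph c0 (B i))| ≤
      Real.exp (-(b0 : ℝ)) * (Y * Vq V w z c0 J * ∑ B ∈ PC Ds, ∏ i, (|f i (B i)| / Ph c0 (B i))) +
        (3 * Real.log z + 4) * ∑ B ∈ PC Ds, (∏ i, |f i (B i)|) *
          ∑ S ∈ Sb w z (4 * b0 + 10), (J : ℝ) ^ S.card * Ev V E ((∏ i, B i) * ∏ p ∈ S, p) := by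
  classical
  obtain ⟨C0, hC01, hC0⟩ := H60PP.bhG
  refine ⟨C0, hC01, fun J b0 hb0 ι _ _ hj V w z W Dm hJw hw hwz c0 c Ts Y E hF hD Ds f hG hDm => ?_⟩
  have hY := hD.Y_nonneg
  have hz2 : 2 ≤ z := hw.trans hwz
  set g : ℕ → ℝ := fun p => if p ∣ V then 0 else (J : ℝ) / ph c0 p with hgdef
  have hJ0 : (0 : ℝ) ≤ J := Nat.cast_nonneg J
  have hgd : ∀ p ∈ PK w z, 0 ≤ g p ∧ g p ≤ 2 * (J : ℝ) / p := by
    intro p hp
    obtain ⟨h1, h2, h3⟩ := bh_mem_PK.1 hp
    have h5 : (0 : ℝ) < p := by exact_mod_cast h3.pos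
    have h4 := ph_pos c0 h3
    have h6 := ph_half c0 h3
    rw [hgdef]
    by_cases hpP : p ∣ V
    · simp only [if_pos hpP]
      exact ⟨le_rfl, by positivity⟩
    · simp only [if_neg hpP]
      refine ⟨by positivity, ?_⟩
      rw [div_le_div_iff₀ h4 h5]
      nlinarith
  have hVc : ∏ p ∈ PK w z, (1 - g p) = Vq V w z c0 J := by
    unfold Vq
    have h0 : H52GS.PK V w z = (PK w z).filter (fun p => ¬ p ∣ V) := by
      ext p
      rw [mem_PKv, Finset.mem_filter, bh_mem_PK]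
      tauto
    rw [h0, Finset.prod_filter]
    refine prod_congr rfl fun p hp => ?_
    rw [hgdef]
    by_cases hpP : p ∣ V
    · simp only [if_pos hpP]
      rw [if_neg (by simpa using hpP)]
      ring
    · simp only [if_neg hpP]
      rw [if_pos (by simpa using hpP)]
  -- the number of `t` for the tuple `B`
  set Nn : (ι → ℕ) → ℝ := fun B =>
    (((Ts.filter (fun t => ∀ i, B i ∣ W * t + c i)).filter
      (fun t => ∀ p ∈ PK w z, ¬ (¬ p ∣ V ∧ ∃ i, p ∣ W * t + c i))).card : ℝ) with hNn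
  have hexp : ∑ t ∈ Ts, ∏ i, (H52GS.th0 V w z (W * t + c i) * Fn (Ds i) (f i) (W * t + c i)) =
      ∑ B ∈ Fintype.piFinset Ds, (∏ i, f i (B i)) * Nn B := by
    have h1 : ∀ t ∈ Ts, ∏ i, (H52GS.th0 V w z (W * t + c i) * Fn (Ds i) (f i) (W * t + c i)) =
        ∑ B ∈ Fintype.piFinset Ds, (∏ i, f i (B i)) *
          (if (∀ i, B i ∣ W * t + c i) ∧ ∀ p ∈ PK w z, ¬ (¬ p ∣ V ∧ ∃ i, p ∣ W * t + c i)
            then (1 : ℝ) else 0) := by
      intro t _
      rw [prod_mul_distrib, Egv_th, ega_Fn, mul_sum]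
      refine sum_congr rfl fun B _ => ?_
      by_cases h1 : ∀ p ∈ PK w z, ¬ (¬ p ∣ V ∧ ∃ i, p ∣ W * t + c i)
      · by_cases h2 : ∀ i, B i ∣ W * t + c i
        · rw [if_pos h1, if_pos h2, if_pos ⟨h2, h1⟩]
          ring
        · have h3 : ¬ ((∀ i, B i ∣ W * t + c i) ∧ ∀ p ∈ PK w z, ¬ (¬ p ∣ V ∧ ∃ i, p ∣ W * t + c i)) :=
            fun h => h2 h.1
          rw [if_neg h3, if_neg h2]
          ring
      · have h3 : ¬ ((∀ i, B i ∣ W * t + c i) ∧ ∀ p ∈ PK w z, ¬ (¬ p ∣ V ∧ ∃ i, p ∣ W * t + c i)) :=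
          fun h => h1 h.2
        rw [if_neg h3, if_neg h1]
        ring
    rw [sum_congr rfl h1, sum_comm]
    refine sum_congr rfl fun B _ => ?_
    rw [← mul_sum, sum_boole]
    have e : Nn B = ((Ts.filter (fun t => (∀ i, B i ∣ W * t + c i) ∧
        ∀ p ∈ PK w z, ¬ (¬ p ∣ V ∧ ∃ i, p ∣ W * t + c i))).card : ℝ) := by
      rw [hNn]
      beta_reduce
      rw [filter_filter]
    rw [e]
  have hPC : ∑ B ∈ Fintype.piFinset Ds, (∏ i, f i (B i)) * Nn B =
      ∑ B ∈ PC Ds, (∏ i, f i (B i)) * Nn B := by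
    symm
    unfold PC
    apply sum_subset (filter_subset _ _)
    intro B hB hB'
    have hBD := Fintype.mem_piFinset.1 hB
    have h1 : Nn B = 0 := by
      rw [hNn]
      simp only [Nat.cast_eq_zero, card_eq_zero]
      rw [filter_filter, filter_eq_empty_iff]
      rintro t _ ⟨ht, _⟩
      apply hB'
      rw [mem_filter]
      exact ⟨hB, fun i i' hii => cop_forms hwz hF (fun i => hG i (B i) (hBD i)) ht hii⟩
    rw [h1, mul_zero]
  rw [hexp, hPC]
  -- the estimate for one tuple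
  have hone : ∀ B ∈ PC Ds, |Nn B - Y / (∏ i, Ph c0 (B i)) * Vq V w z c0 J| ≤
      Real.exp (-(b0 : ℝ)) * (Y / (∏ i, Ph c0 (B i)) * Vq V w z c0 J) +
        (3 * Real.log z + 4) * ∑ S ∈ Sb w z (4 * b0 + 10), (J : ℝ) ^ S.card *
          Ev V E ((∏ i, B i) * ∏ p ∈ S, p) := by
    intro B hB
    unfold PC at hB
    rw [mem_filter] at hB
    obtain ⟨hB1, hB2⟩ := hB
    have hBD := Fintype.mem_piFinset.1 hB1
    have hBgV : ∀ i, Squarefree (B i) ∧ Nat.Coprime (B i) (primorial z * V) := fun i => hG i (B i) (hBD i)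
    have hBg : ∀ i, Squarefree (B i) ∧ Nat.Coprime (B i) (primorial z) := fun i =>
      ⟨(hBgV i).1, Nat.Coprime.coprime_dvd_right (Dvd.intro V rfl) (hBgV i).2⟩
    have hPh : 0 < ∏ i, Ph c0 (B i) := prod_pos fun i _ => Ph_pos c0 (B i)
    have hBV : ∀ i, Nat.Coprime (B i) V := fun i =>
      Nat.Coprime.coprime_dvd_right (Dvd.intro_left (primorial z) rfl) (hBgV i).2
    have hPb : Nat.Coprime (∏ i, B i) V := Nat.Coprime.prod_left fun i _ => hBV i
    have h1 := hC0 J b0 hb0 w z hJw hw hwz g hgd (Ts.filter (fun t => ∀ i, B i ∣ W * t + c i))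
      (fun t p => ¬ p ∣ V ∧ ∃ i, p ∣ W * t + c i)
      (Y / (∏ i, Ph c0 (B i))) (fun S => (J : ℝ) ^ S.card * Ev V E ((∏ i, B i) * ∏ p ∈ S, p))
      (by positivity) (fun S => mul_nonneg (by positivity) (Egv_Ev0 V hD.E_nonneg _)) (by
        intro S hS hSz
        by_cases hPS : ∃ p ∈ S, p ∣ V
        · obtain ⟨p0, hp0S, hp0V⟩ := hPS
          have h3 : ((Ts.filter (fun t => ∀ i, B i ∣ W * t + c i)).filter
              (fun t => ∀ p ∈ S, ¬ p ∣ V ∧ ∃ i, p ∣ W * t + c i)) = ∅ := by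
            rw [filter_eq_empty_iff]
            intro t _ h
            exact (h p0 hp0S).1 hp0V
          have h4 : ∏ p ∈ S, g p = 0 := by
            refine prod_eq_zero hp0S ?_
            rw [hgdef]
            simp only [if_pos hp0V]
          have h5 : (0 : ℝ) ≤ (J : ℝ) ^ S.card * Ev V E ((∏ i, B i) * ∏ p ∈ S, p) :=
            mul_nonneg (by positivity) (Egv_Ev0 V hD.E_nonneg _)
          rw [h4, mul_zero, sub_zero]
          refine le_trans (le_of_eq ?_) h5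
          rw [abs_eq_zero, Nat.cast_eq_zero, card_eq_zero]
          convert h3
        · push Not at hPS
          have hSp : ∀ p ∈ S, w < p ∧ p ≤ z ∧ p.Prime := fun p hp => bh_mem_PK.1 (hS hp)
          have hPq : Nat.Coprime (∏ p ∈ S, p) V := Nat.Coprime.prod_left fun p hp => by
            rw [(hSp p hp).2.2.coprime_iff_not_dvd]
            exact hPS p hp
          have hPd : Nat.Coprime ((∏ i, B i) * ∏ p ∈ S, p) V := Nat.Coprime.mul_left hPb hPq
          have hEp : Ev V E ((∏ i, B i) * ∏ p ∈ S, p) = E ((∏ i, B i) * ∏ p ∈ S, p) := by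
            unfold Ev
            rw [if_pos hPd]
          have hbsq : Squarefree (∏ i, B i) := sqf_prod univ B (fun i _ => (hBg i).1)
            (fun i _ i' _ h => hB2 i i' h)
          have hqsq : Squarefree (∏ p ∈ S, p) := sqf_prod S (fun p => p)
            (fun p hp => (hSp p hp).2.2.prime.squarefree)
            (fun p hp p' hp' h => (Nat.coprime_primes (hSp p hp).2.2 (hSp p' hp').2.2).2 h)
          have hbq : Nat.Coprime (∏ i, B i) (∏ p ∈ S, p) := by
            refine Nat.Coprime.prod_left fun i _ => Nat.Coprime.prod_right fun p hp => ?_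
            obtain ⟨h1, h2, h3⟩ := hSp p hp
            exact Nat.Coprime.coprime_dvd_right ((h3.dvd_primorial_iff).2 h2) (hBg i).2
          have hdsq : Squarefree ((∏ i, B i) * ∏ p ∈ S, p) := (Nat.squarefree_mul hbq).2 ⟨hbsq, hqsq⟩
          have hdpos : 0 < (∏ i, B i) * ∏ p ∈ S, p := Nat.pos_of_ne_zero hdsq.ne_zero
          have hdw : ∀ p : ℕ, p.Prime → p ∣ (∏ i, B i) * ∏ p ∈ S, p → w < p := by
            intro p hp hpd
            rcases (hp.dvd_mul).1 hpd with h | h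
            · rw [hp.prime.dvd_finsetProd_iff] at h
              obtain ⟨i, _, hi⟩ := h
              by_contra hpw
              have h2 : Nat.Coprime (B i) p :=
                Nat.Coprime.coprime_dvd_right ((hp.dvd_primorial_iff).2 (by omega)) (hBg i).2
              exact hp.one_lt.ne' (Nat.Coprime.eq_one_of_dvd h2.symm hi)
            · rw [hp.prime.dvd_finsetProd_iff] at h
              obtain ⟨q, hq, hpq⟩ := h
              have h3 := (Nat.prime_dvd_prime_iff_eq hp (hSp q hq).2.2).1 hpq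
              rw [h3]
              exact (hSp q hq).1
          have hdDm : (∏ i, B i) * ∏ p ∈ S, p ≤ Dm := (Nat.mul_le_mul_left _ hSz).trans (hDm B hB1)
          have h6 := crv0 hwz hF (hD.E_nonneg ((∏ i, B i) * ∏ p ∈ S, p)) B hBgV (fun i i' h => hB2 i i' h) S hS
            (Ts := Ts) (Y := Y)
            (fun t ht p hp hpd => hD.mem t ht p hp (hdw p hp hpd) ((Nat.le_of_dvd hdpos hpd).trans hdDm)
              (fun h => (hp.coprime_iff_not_dvd.1 (Nat.Coprime.coprime_dvd_left hpd hPd)) h))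
            (fun a ha => hD.cnt _ hdsq hdDm hdw hPd a ha)
          rw [hj] at h6
          have h7 : ∏ p ∈ S, g p = ∏ p ∈ S, gd W c0 c p := by
            refine prod_congr rfl fun p hp => ?_
            have h8 : ¬ p ∣ V := hPS p hp
            rw [hgdef, gdv hF (hSp p hp).2.2 (hSp p hp).1 h8, hj]
            simp only [if_neg h8]
          beta_reduce
          rw [h7, hEp]
          convert h6 using 5
          ext t
          simp only [mem_filter]
          constructor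
          · rintro ⟨⟨h9, h10⟩, h11⟩
            exact ⟨h9, h10, fun p hp => (h11 p hp).2⟩
          · rintro ⟨h9, h10, h11⟩
            exact ⟨⟨h9, h10⟩, fun p hp => ⟨hPS p hp, h11 p hp⟩⟩)
    rw [hVc] at h1
    have h10 : (PK w z).powerset.filter (fun S => ∏ p ∈ S, p ≤ z ^ (4 * b0 + 10)) = Sb w z (4 * b0 + 10) := rfl
    have h11 : (0 : ℝ) ≤ ∑ S ∈ Sb w z (4 * b0 + 10), (J : ℝ) ^ S.card *
        Ev V E ((∏ i, B i) * ∏ p ∈ S, p) :=
      sum_nonneg fun S _ => mul_nonneg (by positivity) (Egv_Ev0 V hD.E_nonneg _)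
    have h12 := mul_le_mul_of_nonneg_right (UC.Egu_log hz2) h11
    rw [hNn]
    refine le_trans ?_ (h1.trans (add_le_add le_rfl h12))
    apply le_of_eq
    congr!
  have e1 : ∑ B ∈ PC Ds, (∏ i, f i (B i)) * Nn B -
      Y * Vq V w z c0 J * ∑ B ∈ PC Ds, ∏ i, (f i (B i) / Ph c0 (B i)) =
      ∑ B ∈ PC Ds, (∏ i, f i (B i)) * (Nn B - Y / (∏ i, Ph c0 (B i)) * Vq V w z c0 J) := by
    rw [mul_sum, ← sum_sub_distrib]
    refine sum_congr rfl fun B _ => ?_
    rw [prod_div_distrib]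
    ring
  rw [e1]
  calc |∑ B ∈ PC Ds, (∏ i, f i (B i)) * (Nn B - Y / (∏ i, Ph c0 (B i)) * Vq V w z c0 J)|
      ≤ ∑ B ∈ PC Ds, (∏ i, |f i (B i)|) * (Real.exp (-(b0 : ℝ)) * (Y / (∏ i, Ph c0 (B i)) * Vq V w z c0 J) +
        (3 * Real.log z + 4) * ∑ S ∈ Sb w z (4 * b0 + 10), (J : ℝ) ^ S.card *
          Ev V E ((∏ i, B i) * ∏ p ∈ S, p)) := by
        refine (abs_sum_le_sum_abs _ _).trans (sum_le_sum fun B hB => ?_)
        rw [abs_mul, abs_prod]
        exact mul_le_mul_of_nonneg_left (hone B hB) (prod_nonneg fun i _ => abs_nonneg _)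
    _ = _ := by
        rw [mul_sum, mul_sum, mul_sum, ← sum_add_distrib]
        refine sum_congr rfl fun B _ => ?_
        rw [prod_div_distrib]
        ring

end H78TP
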