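import Pool.Agent.H78.TP.Cd
import Pool.Agent.H17.UC.Evg

/-!
# Mean values of the pairs of configurations (as `Pool/Agent/H17/UC/Evg.lean`, without the cluster)
-/

set_option autoImplicit false

open Finset EG H69PG H73PC

namespace H78TP

/-- the data of the block functions -/
structure Sv (ι : Type) [Fintype ι] [DecidableEq ι] (N m M V z R Sm : ℕ) (Z : ℕ → ℕ) (v f0 : ℕ → ℝ) (l Γ : ℝ) : Prop where
  z2 : 2 ≤ z
  hM : 2 * M ≤ z
  Z0 : Z 0 = 1
  Zm : Monotone Z
  ZM : ∀ a ≤ m, Z a ≤ z ^ M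
  RM : R ≤ z ^ M
  R_pos : 1 ≤ R
  Γ_one : 1 ≤ Γ
  ΓP : ∀ a ≤ m, GG (primorial z * V) (Z a) ≤ Γ
  ΓR : GG (primorial z * V) R ≤ Γ
  f0_nonneg : ∀ a, 0 ≤ f0 a
  f0_le : ∀ a, f0 a ≤ 1
  lev : ∀ n ∈ Cf ι m N v l, ∀ n' ∈ Cf ι m N v l, (∏ i, (Z (n i) * Z (n' i))) * (R * R) ≤ Sm

variable {ι : Type} [Fintype ι] [DecidableEq ι]

omit [Fintype ι] [DecidableEq ι] in
theorem ev_fac {V w z W : ℕ} {Z : ℕ → ℕ} {f0 : ℕ → ℝ} (hZ0 : Z 0 = 1) (hZ : Monotone Z) (c : ι → ℕ) (i : ι)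
    (a a' t : ℕ) (h : a ≠ 0 ∨ a' ≠ 0) :
    H52GS.gA V w z W Z f0 c i a t * H52GS.gA V w z W Z f0 c i a' t =
      (H1v_ff f0 a * H1v_ff f0 a') * (H52GS.th0 V w z (W * t + c i) *
        Fn (DAB Z (primorial z * V) a a') (fAB Z (primorial z * V) a a') (W * t + c i)) := by
  have hth1 := th_sq V w z (W * t + c i)
  unfold DAB fAB
  rw [← fn_mul]
  by_cases ha : a = 0
  · have ha' : a' ≠ 0 := by tauto
    subst ha
    rw [H1v_Fn_zero (primorial z * V) hZ0 hZ]
    unfold H52GS.gA H1v_ff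
    rw [if_pos rfl, if_pos rfl, if_neg ha', if_neg ha']
    ring
  · by_cases ha' : a' = 0
    · subst ha'
      rw [H1v_Fn_zero (primorial z * V) hZ0 hZ]
      unfold H52GS.gA H1v_ff
      rw [if_neg ha, if_neg ha, if_pos rfl, if_pos rfl]
      ring
    · unfold H52GS.gA H1v_ff
      rw [if_neg ha, if_neg ha, if_neg ha', if_neg ha']
      linear_combination (f0 a * f0 a' * Fn (sq (primorial z * V) (Z a)) (lamA Z (primorial z * V) a) (W * t + c i) *
        Fn (sq (primorial z * V) (Z a')) (lamA Z (primorial z * V) a') (W * t + c i)) * hth1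

open Classical in
theorem ev_gen {N m M V w z W R Sm J : ℕ} {Z : ℕ → ℕ} {v f0 : ℕ → ℝ} {l Γ η Y : ℝ} {Vf : ℕ → ℝ}
    (hS : Sv ι N m M V z R Sm Z v f0 l Γ) {c : ι → ℕ} {Ts : Finset ℕ}
    (hJ : 2 * N + 1 ≤ J) (hMv : Mvv V (H52GS.th0 V w z) Vf z W (2 * M) J Sm Γ η Ts Y c)
    {n n' : ι → Fin (m + 1)} (hn : n ∈ Cf ι m N v l) (hn' : n' ∈ Cf ι m N v l)
    (X : Finset ι) (hX : X.card ≤ 1) (hXd : Disjoint X (sp n ∪ sp n')) (FX : ι → ℕ → ℝ) (sX : ι → ℝ) (zX : ι → ℕ)
    (hFX : ∀ i ∈ X, Cdv V (H52GS.th0 V w z) z (2 * M) Γ (zX i) (FX i) (sX i)) (hzX : ∏ i ∈ X, zX i ≤ R * R) :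
    |∑ t ∈ Ts, ((∏ i, (H52GS.gA V w z W Z f0 c i (n i) t * H52GS.gA V w z W Z f0 c i (n' i) t)) * ∏ i ∈ X, FX i (W * t + c i)) -
        (Y * (if n = n' then (∏ i ∈ X, sX i) * (Vf (X ∪ sp n).card *
            ∏ i, sA Z (primorial z * V) f0 (n i)) else 0))| ≤
      η * (Y * Vf (X ∪ (sp n ∪ sp n')).card) := by
  set U : Finset ι := sp n ∪ sp n' with hU
  set th : ℕ → ℝ := H52GS.th0 V w z with hthd
  set Q : ℕ := primorial z * V with hQ
  have hz1 : 1 ≤ z := by have := hS.z2; omega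
  have hcn : (sp n).card ≤ N := ((Finset.mem_filter.1 hn).2).1
  have hcn' : (sp n').card ≤ N := ((Finset.mem_filter.1 hn').2).1
  have hUc : U.card ≤ 2 * N := by
    have h1 : U.card ≤ (sp n).card + (sp n').card := Finset.card_union_le (sp n) (sp n')
    omega
  have hXU : (X ∪ U).card ≤ 2 * N + 1 := by
    have h1 := Finset.card_union_le X U
    omega
  have hmU : ∀ i, i ∈ U ↔ ((n i : ℕ) ≠ 0 ∨ (n' i : ℕ) ≠ 0) := by
    intro i
    rw [hU, Finset.mem_union, H1v_mem_sp, H1v_mem_sp]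
  have hle : ∀ i, (n i : ℕ) ≤ m := fun i => Nat.lt_succ_iff.1 (n i).2
  have hle' : ∀ i, (n' i : ℕ) ≤ m := fun i => Nat.lt_succ_iff.1 (n' i).2
  have hf0 : ∀ a, |f0 a| ≤ 1 := fun a => by
    rw [abs_of_nonneg (hS.f0_nonneg a)]
    exact hS.f0_le a
  have hφ : ∀ i, |H1v_ff f0 (n i) * H1v_ff f0 (n' i)| ≤ 1 := by
    intro i
    rw [abs_mul]
    exact mul_le_one₀ (H1v_ff_le hf0 _) (abs_nonneg _) (H1v_ff_le hf0 _)
  set PI : ι → ℕ → ℝ := fun i => if i ∈ X then FX i else fun L => H1v_ff f0 (n i) * H1v_ff f0 (n' i) *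
      (th L * (Fn (sq (primorial z * V) (Z (n i))) (lamA Z (primorial z * V) (n i)) L *
      Fn (sq (primorial z * V) (Z (n' i))) (lamA Z (primorial z * V) (n' i)) L)) with hPI
  set sI : ι → ℝ := fun i => if i ∈ X then sX i else H1v_ff f0 (n i) * H1v_ff f0 (n' i) *
      (if (n i : ℕ) = n' i then wA Z (primorial z * V) (n i) else 0) with hsI
  set zI : ι → ℕ := fun i => if i ∈ X then zX i else Z (n i) * Z (n' i) with hzI
  have hUX : ∀ i ∈ U, i ∉ X := fun i hi hiX => Finset.disjoint_left.1 hXd hiX hi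
  have core := hMv.2.2 (X ∪ U) (by omega) PI sI zI
    (by
      intro i hi
      by_cases hiX : i ∈ X
      · simp only [hPI, hsI, hzI, if_pos hiX]
        exact hFX i hiX
      · simp only [hPI, hsI, hzI, if_neg hiX]
        exact cdvA hz1 hS.hM hS.Z0 hS.Zm (hS.ZM _ (hle i)) (hS.ZM _ (hle' i)) hS.Γ_one (hS.ΓP _ (hle i))
          (hS.ΓP _ (hle' i)) (hφ i))
    (by
      have hlev := hS.lev n hn n' hn'
      have hp2 : ∏ i ∈ U, (Z (n i) * Z (n' i)) ≤ ∏ i, (Z (n i) * Z (n' i)) := by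
        refine Nat.le_of_dvd ?_ (Finset.prod_dvd_prod_of_subset _ _ _ (Finset.subset_univ _))
        refine Finset.prod_pos fun h _ => ?_
        exact Nat.mul_pos (Eva_one_le hS.Z0 hS.Zm _) (Eva_one_le hS.Z0 hS.Zm _)
      rw [Finset.prod_union hXd]
      have e1 : ∏ i ∈ X, zI i = ∏ i ∈ X, zX i := Finset.prod_congr rfl fun i hi => by simp only [hzI, if_pos hi]
      have e2 : ∏ i ∈ U, zI i = ∏ i ∈ U, (Z (n i) * Z (n' i)) :=
        Finset.prod_congr rfl fun i hi => by simp only [hzI, if_neg (hUX i hi)]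
      rw [e1, e2]
      calc (∏ i ∈ X, zX i) * ∏ i ∈ U, (Z (n i) * Z (n' i))
          ≤ (R * R) * ∏ i, (Z (n i) * Z (n' i)) := Nat.mul_le_mul hzX hp2
        _ = (∏ i, (Z (n i) * Z (n' i))) * (R * R) := by ring
        _ ≤ Sm := hlev)
  have hsum : ∑ t ∈ Ts, ((∏ i, (H52GS.gA V w z W Z f0 c i (n i) t * H52GS.gA V w z W Z f0 c i (n' i) t)) *
        ∏ i ∈ X, FX i (W * t + c i)) =
      ∑ t ∈ Ts, ∏ i ∈ X ∪ U, PI i (W * t + c i) := by
    refine Finset.sum_congr rfl fun t _ => ?_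
    have h1 : ∏ i, (H52GS.gA V w z W Z f0 c i (n i) t * H52GS.gA V w z W Z f0 c i (n' i) t) = ∏ i ∈ U, PI i (W * t + c i) := by
      have h2 : ∏ i, (H52GS.gA V w z W Z f0 c i (n i) t * H52GS.gA V w z W Z f0 c i (n' i) t) =
          ∏ i ∈ U, (H52GS.gA V w z W Z f0 c i (n i) t * H52GS.gA V w z W Z f0 c i (n' i) t) := by
        symm
        refine Finset.prod_subset (Finset.subset_univ U) fun i _ hi => ?_
        rw [hmU, not_or, not_not, not_not] at hi
        rw [hi.1, hi.2]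
        simp [H52GS.gA]
      rw [h2]
      refine Finset.prod_congr rfl fun i hi => ?_
      simp only [hPI, if_neg (hUX i hi)]
      rw [ev_fac hS.Z0 hS.Zm c i (n i) (n' i) t ((hmU i).1 hi)]
      unfold DAB fAB
      rw [← fn_mul]
    rw [h1, Finset.prod_union hXd]
    have h3 : ∏ i ∈ X, PI i (W * t + c i) = ∏ i ∈ X, FX i (W * t + c i) := by
      refine Finset.prod_congr rfl fun i hi => ?_
      simp only [hPI, if_pos hi]
    rw [h3]
    ring
  have hmain : (Y * (if n = n' then (∏ i ∈ X, sX i) * (Vf (X ∪ sp n).card *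
            ∏ i, sA Z (primorial z * V) f0 (n i)) else 0)) =
      Y * Vf (X ∪ U).card * ∏ i ∈ X ∪ U, sI i := by
      rw [Finset.prod_union hXd]
      have e2 : ∏ i ∈ X, sI i = ∏ i ∈ X, sX i := Finset.prod_congr rfl fun i hi => by simp only [hsI, if_pos hi]
      rw [e2]
      by_cases hnn : n = n'
      · rw [if_pos hnn]
        have hUn : U = sp n := by rw [hU, ← hnn, Finset.union_self]
        have e3 : ∏ i, sA Z (primorial z * V) f0 (n i) = ∏ i ∈ U, sI i := by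
          have e4 : ∏ i, sA Z (primorial z * V) f0 (n i) = ∏ i ∈ U, sA Z (primorial z * V) f0 (n i) := by
            symm
            refine Finset.prod_subset (Finset.subset_univ U) fun i _ hi => ?_
            rw [hmU, not_or, not_not, not_not] at hi
            rw [hi.1]
            simp [sA]
          rw [e4]
          refine Finset.prod_congr rfl fun i hi => ?_
          have h3 : (n i : ℕ) ≠ 0 := by
            have := (hmU i).1 hi
            rw [← hnn] at this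
            tauto
          simp only [hsI, if_neg (hUX i hi)]
          rw [← hnn, if_pos rfl]
          unfold H1v_ff sA
          rw [if_neg h3, if_neg h3]
          ring
        rw [e3, ← hUn]
        ring
      · rw [if_neg hnn]
        obtain ⟨i, hi⟩ : ∃ i, n i ≠ n' i := by
          by_contra hcon
          push Not at hcon
          exact hnn (funext hcon)
        have hi' : (n i : ℕ) ≠ (n' i : ℕ) := fun h => hi (Fin.ext h)
        have hiU : i ∈ U := by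
          rw [hmU]
          by_contra hcon
          rw [not_or, not_not, not_not] at hcon
          exact hi' (hcon.1.trans hcon.2.symm)
        have h0 : ∏ i ∈ U, sI i = 0 := by
          refine Finset.prod_eq_zero hiU ?_
          simp only [hsI, if_neg (hUX i hiU), if_neg hi', mul_zero]
        rw [h0]
        ring
  rw [hsum, hmain]
  exact core

open Classical in
theorem evA {N m M V w z W R Sm J : ℕ} {Z : ℕ → ℕ} {v f0 : ℕ → ℝ} {l Γ η Y : ℝ} {Vf : ℕ → ℝ}
    (hS : Sv ι N m M V z R Sm Z v f0 l Γ) {c : ι → ℕ} {Ts : Finset ℕ}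
    (hJ : 2 * N + 1 ≤ J) (hMv : Mvv V (H52GS.th0 V w z) Vf z W (2 * M) J Sm Γ η Ts Y c)
    {n n' : ι → Fin (m + 1)} (hn : n ∈ Cf ι m N v l) (hn' : n' ∈ Cf ι m N v l) :
    |∑ t ∈ Ts, (∏ i, (H52GS.gA V w z W Z f0 c i (n i) t * H52GS.gA V w z W Z f0 c i (n' i) t)) -
        (Y * (if n = n' then Vf (sp n).card * ∏ i, sA Z (primorial z * V) f0 (n i) else 0))| ≤
      η * (Y * Vf (sp n ∪ sp n').card) := by
  have h := ev_gen hS hJ hMv hn hn' ∅ (by simp) (by simp) (fun _ _ => 1) (fun _ => 1) (fun _ => 1)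
    (by simp) (by
      rw [Finset.prod_empty]
      exact Nat.mul_pos hS.R_pos hS.R_pos)
  simp only [Finset.prod_empty, mul_one, one_mul, Finset.empty_union] at h
  exact h

open Classical in
theorem evB {N m M V w z W R Sm J : ℕ} {Z : ℕ → ℕ} {v f0 : ℕ → ℝ} {l Γ η Y : ℝ} {Vf : ℕ → ℝ}
    (hS : Sv ι N m M V z R Sm Z v f0 l Γ) {c : ι → ℕ} {Ts : Finset ℕ}
    (hJ : 2 * N + 1 ≤ J) (hMv : Mvv V (H52GS.th0 V w z) Vf z W (2 * M) J Sm Γ η Ts Y c)
    {n n' : ι → Fin (m + 1)} (hn : n ∈ Cf ι m N v l) (hn' : n' ∈ Cf ι m N v l) (k : ι) (hk : n k = 0) (hk' : n' k = 0) :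
    |∑ t ∈ Ts, ((∏ i, (H52GS.gA V w z W Z f0 c i (n i) t * H52GS.gA V w z W Z f0 c i (n' i) t)) * H52GS.bA V w z W R c k t) -
        (Y * (if n = n' then 1 / GG (primorial z * V) R * (Vf (insert k (sp n)).card *
            ∏ i, sA Z (primorial z * V) f0 (n i)) else 0))| ≤
      η * (Y * Vf (insert k (sp n ∪ sp n')).card) := by
  have hz1 : 1 ≤ z := by have := hS.z2; omega
  have hkn : k ∉ sp n ∪ sp n' := by
    rw [Finset.mem_union, H1v_mem_sp, H1v_mem_sp, hk, hk']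
    simp
  have h := ev_gen hS hJ hMv hn hn' {k} (by simp) (Finset.disjoint_singleton_left.2 hkn)
    (fun _ L => H52GS.th0 V w z L * be (primorial z * V) R L) (fun _ => 1 / GG (primorial z * V) R) (fun _ => R * R)
    (fun i _ => cdvB hz1 hS.R_pos hS.RM hS.Γ_one hS.ΓR) (by rw [Finset.prod_singleton])
  simp only [Finset.prod_singleton, Finset.singleton_union] at h
  exact h

end H78TP
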