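import Pool.Agent.H78.TP.Crp
import Pool.Agent.H17.UC.DsU
import Pool.Agent.H82.LW.ParB

/-!
# Primes `p` with `p + s` composite for all `s` in a set of `c log x` shifts
-/

set_option autoImplicit false

open Finset EG H69PG H73PC UC

namespace H78TP

theorem dsv_of {P V w Dm W : ℕ} {c0 : Option ℕ} {Ts : Finset ℕ} {Y : ℝ} {E : ℕ → ℝ} (hP : P.Prime) (hPV : P ∣ V)
    (h : DsP P w Dm W c0 Ts Y E) : DsV V w Dm W c0 Ts Y E where
  Y_nonneg := h.Y_nonneg
  E_nonneg := h.E_nonneg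
  mem := fun t ht p hp h1 h2 h3 => h.mem t ht p hp h1 h2 (fun h4 => h3 (h4 ▸ hPV))
  cnt := fun d h1 h2 h3 h4 a ha => h.cnt d h1 h2 h3 (fun h5 => by
    have h6 := Nat.dvd_gcd h5 hPV
    rw [h4] at h6
    exact hP.one_lt.ne' (Nat.dvd_one.1 h6)) a ha

theorem ev_le {P V Dm : ℕ} {C : ℝ} {E : ℕ → ℝ} (hP : P.Prime) (hPV : P ∣ V) (hC : 0 ≤ C) (hE : ∀ d, 0 ≤ E d) :
    ErS Dm C (Ev V E) ≤ ErS Dm C (Ep P E) := by
  unfold ErS
  refine Finset.sum_le_sum fun d _ => mul_le_mul_of_nonneg_left ?_ (by positivity)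
  unfold Ev Ep
  by_cases h : Nat.Coprime d V
  · rw [if_pos h, if_neg]
    intro h5
    have h6 := Nat.dvd_gcd h5 hPV
    rw [h] at h6
    exact hP.one_lt.ne' (Nat.dvd_one.1 h6)
  · rw [if_neg h]
    split_ifs
    · exact le_rfl
    · exact hE d

/-- the numbers used in the final step -/
lemma fi_num {L w V K : ℝ} (hL : 64 ≤ L) (hl : 1 ≤ Real.log L) (hw : L ^ 3 - 1 ≤ w)
    (hK0 : 0 ≤ K) (hK : K ≤ 1 / 4 * L + 1) (hV : V ≤ L + K ^ 2 * (2 * (L * Real.log L))) :
    V ≤ 1 / 2 * (w * Real.log w) := by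
  have h1 : K ≤ 17 / 64 * L := by linarith
  have h2 : K ^ 2 ≤ (17 / 64 * L) ^ 2 := pow_le_pow_left₀ hK0 h1 2
  have hL0 : 0 < L := by linarith
  have h3 : L ^ 3 / 2 ≤ w := by nlinarith [pow_pos hL0 2]
  have h4 : 1 ≤ L ^ 3 / 2 := by nlinarith [pow_pos hL0 2]
  have hw0 : 0 < w := by linarith
  have h5 : L ^ 2 ≤ w := by nlinarith [pow_pos hL0 2]
  have h6 : 2 * Real.log L ≤ Real.log w := by
    have := Real.log_le_log (by positivity) h5
    rwa [Real.log_pow] at this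
  have h7 : L ^ 3 / 2 * (2 * Real.log L) ≤ w * Real.log w := mul_le_mul h3 h6 (by linarith) hw0.le
  have h8 : K ^ 2 * (2 * (L * Real.log L)) ≤ (17 / 64 * L) ^ 2 * (2 * (L * Real.log L)) :=
    mul_le_mul_of_nonneg_right h2 (by positivity)
  have h9 : L ≤ 1 / 4 * (L ^ 3 * Real.log L) := by
    have a1 : L ^ 3 * 1 ≤ L ^ 3 * Real.log L := mul_le_mul_of_nonneg_left hl (by positivity)
    nlinarith [pow_pos hL0 2]
  have h10 : 0 < L ^ 3 * Real.log L := by positivity
  nlinarith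

/-- there is `c > 0` such that for all large `x` and all sets `S` of at most `c log x` nonzero integers between `-x/4` and
`exp (log x loglog x)` there is a prime `p` in `[x/3, x]` such that every `p + s`, `s ∈ S`, has a prime factor `≤ x^(1/64)` -/
theorem main : ∃ c x0 : ℝ, 0 < c ∧ ∀ x : ℝ, x0 ≤ x → ∀ S : Finset ℤ, (S.card : ℝ) ≤ c * Real.log x →
    (∀ s ∈ S, s ≠ 0 ∧ -(x / 4) ≤ (s : ℝ) ∧ (s : ℝ) ≤ Real.exp (Real.log x * Real.log (Real.log x))) →
    ∃ p : ℕ, p.Prime ∧ x / 3 ≤ (p : ℝ) ∧ (p : ℝ) ≤ x ∧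
      ∀ s ∈ S, ∃ q : ℕ, q.Prime ∧ (q : ℝ) ≤ x ^ (1 / 64 : ℝ) ∧ (q : ℤ) ∣ (p : ℤ) + s := by
  classical
  obtain ⟨c0, x1, hc0, hcrp⟩ := crp
  obtain ⟨x2, hds⟩ := dsU
  refine ⟨min c0 (1 / 4), max (max x1 x2) (Real.exp 64), by positivity, ?_⟩
  intro x hx S hSc hS
  have hx1 : x1 ≤ x := ((le_max_left _ _).trans (le_max_left _ _)).trans hx
  have hx2 : x2 ≤ x := ((le_max_right _ _).trans (le_max_left _ _)).trans hx
  have hx3 : Real.exp 64 ≤ x := (le_max_right _ _).trans hx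
  have hx0 : 0 < x := (Real.exp_pos _).trans_le hx3
  have hL64 : 64 ≤ Real.log x := (Real.le_log_iff_exp_le hx0).2 hx3
  obtain ⟨L, hL⟩ : ∃ L : ℝ, L = Real.log x := ⟨_, rfl⟩
  rw [← hL] at hL64
  have hL0 : 0 < L := by linarith
  have hlL : 1 ≤ Real.log L := by
    rw [Real.le_log_iff_exp_le hL0]
    linarith [Real.exp_one_lt_d9]
  have hx12 : 12 ≤ x := by
    have := Real.add_one_le_exp (64 : ℝ)
    linarith
  obtain ⟨P, hP, hPx, hds'⟩ := hds x hx2
  -- the parameters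
  obtain ⟨k, hk⟩ : ∃ k : ℕ, k = ⌈x / 3⌉₊ := ⟨_, rfl⟩
  have hk1 : x / 3 ≤ (k : ℝ) := by rw [hk]; exact Nat.le_ceil _
  have hk2 : (k : ℝ) ≤ x / 3 + 1 := by rw [hk]; exact (Nat.ceil_lt_add_one (by positivity)).le
  obtain ⟨w, hw⟩ : ∃ w : ℕ, w = ⌊L ^ 3⌋₊ := ⟨_, rfl⟩
  have hw1 : (w : ℝ) ≤ L ^ 3 := by rw [hw]; exact Nat.floor_le (by positivity)
  have hw2 : L ^ 3 - 1 ≤ (w : ℝ) := by
    rw [hw]
    have := Nat.lt_floor_add_one (L ^ 3)
    linarith
  obtain ⟨Y, E, hDs, hYl, hEr⟩ := hds' 1 w k le_rfl (by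
      push_cast
      exact Real.one_le_exp (Real.rpow_nonneg (by rw [← hL]; exact hL0.le) _))
    (fun h => hP.one_lt.ne' (Nat.dvd_one.1 h)) (fun p hp h => absurd (Nat.dvd_one.1 h) hp.one_lt.ne') hk1
    (by linarith) (Nat.coprime_one_right k)
  have hfl : 0 < ⌊x / (4 * ((1 : ℕ) : ℝ))⌋₊ := by
    apply Nat.floor_pos.2
    push_cast
    linarith
  have hY0 : 0 < Y := by
    refine lt_of_lt_of_le ?_ hYl
    have h1 : (0 : ℝ) < (⌊x / (4 * ((1 : ℕ) : ℝ))⌋₊ : ℝ) := by exact_mod_cast hfl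
    rw [Nat.totient_one, ← hL]
    push_cast at h1 ⊢
    positivity
  -- the forms
  have hs : ∀ s ∈ S, (1 : ℤ) ≤ (k : ℤ) + s := by
    intro s hs
    have h1 := (hS s hs).2.1
    have h2 : (0 : ℝ) < (((k : ℤ) + s : ℤ) : ℝ) := by
      push_cast
      linarith
    have h3 : (0 : ℤ) < (k : ℤ) + s := by exact_mod_cast h2
    omega
  obtain ⟨cc, hcc⟩ : ∃ cc : Option {s // s ∈ S} → ℕ, cc = fun o => match o with
    | none => k
    | some s => ((k : ℤ) + s).toNat := ⟨_, rfl⟩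
  have hcn : cc none = k := by rw [hcc]
  have hcs : ∀ s : {s // s ∈ S}, ((cc (some s) : ℕ) : ℤ) = (k : ℤ) + s := by
    intro s
    rw [hcc]
    exact Int.toNat_of_nonneg (by have := hs s s.2; omega)
  have hinj : Function.Injective cc := by
    intro a b hab
    have hab' : ((cc a : ℕ) : ℤ) = ((cc b : ℕ) : ℤ) := by rw [hab]
    rcases a with _ | a
    · rcases b with _ | b
      · rfl
      · exfalso
        rw [hcn, hcs b] at hab'
        exact (hS b b.2).1 (by omega)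
    · rcases b with _ | b
      · exfalso
        rw [hcn, hcs a] at hab'
        exact (hS a a.2).1 (by omega)
      · rw [hcs a, hcs b] at hab'
        have : (a : ℤ) = b := by omega
        rw [Subtype.ext this]
  obtain ⟨V, hV⟩ : ∃ V : ℕ, V = P * H82LW.WW cc := ⟨_, rfl⟩
  have hWpos := H82LW.WW_pos hinj
  have hV1 : 1 ≤ V := by rw [hV]; exact Nat.mul_pos hP.pos hWpos
  have hPV : P ∣ V := by rw [hV]; exact Nat.dvd_mul_right _ _
  have hdV : ∀ (i j : Option {s // s ∈ S}), i ≠ j → ∀ p : ℕ, (p : ℤ) ∣ (cc i : ℤ) - cc j → p ∣ V := by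
    intro i j hij p hd
    rw [hV]
    exact (H82LW.WW_dvd cc hij hd).mul_left P
  -- the size of `V`
  have hbig : ∀ i, (cc i : ℝ) ≤ Real.exp (2 * (L * Real.log L)) := by
    intro i
    have hM : 0 ≤ L * Real.log L := by positivity
    have h1 : x ≤ Real.exp (L * Real.log L) := by
      rw [← Real.log_le_iff_le_exp hx0, ← hL]
      exact le_mul_of_one_le_right hL0.le hlL
    have h2 : x + Real.exp (L * Real.log L) ≤ Real.exp (2 * (L * Real.log L)) := by
      have h3 : Real.exp (2 * (L * Real.log L)) = Real.exp (L * Real.log L) * Real.exp (L * Real.log L) := by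
        rw [← Real.exp_add]
        ring_nf
      have h4 : 2 ≤ Real.exp (L * Real.log L) := by linarith
      nlinarith [Real.exp_pos (L * Real.log L)]
    rcases i with _ | s
    · rw [hcn]
      have := Real.exp_pos (L * Real.log L)
      linarith
    · have h5 : ((cc (some s) : ℕ) : ℝ) = (k : ℝ) + ((s : ℤ) : ℝ) := by exact_mod_cast hcs s
      rw [h5]
      have h6 := (hS s s.2).2.2
      rw [← hL] at h6
      linarith
  have hcard : Fintype.card (Option {s // s ∈ S}) = S.card + 1 := by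
    rw [Fintype.card_option, Fintype.card_coe]
  have hVw : Real.log V ≤ 1 / 2 * ((w : ℝ) * Real.log w) := by
    have h1 := H82LW.WW_log hinj (Y := Real.exp (2 * (L * Real.log L))) (Real.one_le_exp (by positivity)) hbig
    rw [Real.log_exp, hcard] at h1
    have h2 : Real.log V = Real.log P + Real.log (H82LW.WW cc) := by
      rw [hV]
      push_cast
      have h3 : (P : ℝ) ≠ 0 := by exact_mod_cast hP.pos.ne'
      have h4 : ((H82LW.WW cc : ℕ) : ℝ) ≠ 0 := by
        have : (H82LW.WW cc) ≠ 0 := by omega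
        exact_mod_cast this
      exact Real.log_mul h3 h4
    have h3 : Real.log P ≤ L := by
      have h4 : Real.log P ≤ L ^ (1 / 20 : ℝ) := by
        rw [Real.log_le_iff_le_exp (by exact_mod_cast hP.pos), hL]
        exact hPx
      refine h4.trans ?_
      calc L ^ (1 / 20 : ℝ) ≤ L ^ (1 : ℝ) := Real.rpow_le_rpow_of_exponent_le (by linarith) (by norm_num)
        _ = L := Real.rpow_one L
    refine fi_num (K := ((S.card + 1 : ℕ) : ℝ)) hL64 hlL hw2 (Nat.cast_nonneg _) ?_ (by rw [h2]; linarith)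
    push_cast
    have h5 : (S.card : ℝ) ≤ 1 / 4 * L := by
      rw [hL]
      refine hSc.trans ?_
      exact mul_le_mul_of_nonneg_right (min_le_right _ _) (by rw [← hL]; exact hL0.le)
    linarith
  have hF : FwV V w 1 (some k) (fun s : {s // s ∈ S} => cc (some s)) :=
    { pos := le_rfl
      pr := fun p hp h => absurd (Nat.dvd_one.1 h) hp.one_lt.ne'
      inj := fun a b hab => Option.some.inj (hinj hab)
      df := fun i j hij p _ _ hd => hdV (some i) (some j) (fun h => hij (Option.some.inj h)) p hd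
      cpos := fun s => by
        have h1 := hcs s
        have h2 := hs s s.2
        have h3 : (1 : ℤ) ≤ ((cc (some s) : ℕ) : ℤ) := by rw [h1]; exact h2
        exact_mod_cast h3
      df0 := fun k' hk' s p _ _ hd => by
        have hkk : k = k' := Option.some.inj hk'
        refine hdV (some s) none (by simp) p ?_
        rw [hcn, hkk]
        exact hd }
  obtain ⟨t, ht, hq⟩ := hcrp x hx1 {s // s ∈ S} (by
      rw [Fintype.card_coe]
      exact hSc.trans (mul_le_mul_of_nonneg_right (min_le_left _ _) (by rw [← hL]; exact hL0.le))) V w 1 k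
    (fun s : {s // s ∈ S} => cc (some s)) _ Y E hV1 hVw (by
      rw [← hL]
      refine le_trans ?_ hw2
      nlinarith [pow_pos hL0 2]) (by rw [← hL]; exact hw1) hF (dsv_of hP hPV hDs) hY0 (by
      intro C hC1 hC2
      exact (ev_le hP hPV (by linarith) hDs.E_nonneg).trans (hEr C hC1 hC2))
  rw [Finset.mem_filter, Finset.mem_range, one_mul] at ht
  have ht1 : (t : ℝ) ≤ x / 4 := by
    have h1 : (t : ℝ) ≤ (⌊x / (4 * ((1 : ℕ) : ℝ))⌋₊ : ℝ) := by exact_mod_cast ht.1.le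
    refine h1.trans ((Nat.floor_le (by positivity)).trans ?_)
    push_cast
    linarith
  refine ⟨t + k, ht.2, ?_, ?_, ?_⟩
  · push_cast
    have : (0 : ℝ) ≤ t := Nat.cast_nonneg t
    linarith
  · push_cast
    linarith
  · intro s hs'
    obtain ⟨q, hq1, hq2, hq3⟩ := hq ⟨s, hs'⟩
    refine ⟨q, hq1, hq2, ?_⟩
    have h1 : (q : ℤ) ∣ ((1 * t + cc (some ⟨s, hs'⟩) : ℕ) : ℤ) := by exact_mod_cast hq3
    push_cast at h1 ⊢
    rw [hcs ⟨s, hs'⟩] at h1
    have e : (1 : ℤ) * t + (k + s) = t + k + s := by ring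
    rwa [e] at h1

end H78TP
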