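import Pool.Agent.H78.TP.Crw
import Pool.Agent.H78.TP.Fi

/-!
# Many primes `p` with `p + s` composite for all `s` in a set of `lam log x / loglog x` shifts
-/

set_option autoImplicit false

open Finset EG H69PG H73PC UC

namespace H78TP

open Classical in
/-- counting form, uniform in `lam` -/
theorem mainw (A : ℝ) (hA : 1 ≤ A) : ∃ c C x0 : ℝ, 0 < c ∧ 0 < C ∧ c * C ≤ 1 / 2 ∧ ∀ x : ℝ, x0 ≤ x → ∀ lam : ℝ, 1 ≤ lam →
    lam ≤ c * Real.log (Real.log x) → ∀ S : Finset ℤ, (S.card : ℝ) ≤ lam * Real.log x / Real.log (Real.log x) →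
    (∀ s ∈ S, s ≠ 0 ∧ -(x / 4) ≤ (s : ℝ) ∧ (s : ℝ) ≤ x ^ (A * lam)) →
    x / Real.log x ≤ Real.exp (Real.exp (C * lam)) *
      (((Finset.Icc 1 ⌊x⌋₊).filter (fun p : ℕ => p.Prime ∧ x / 3 ≤ (p : ℝ) ∧
        ∀ s ∈ S, ∃ q : ℕ, q.Prime ∧ (q : ℝ) ≤ x ^ (1 / 64 : ℝ) ∧ (q : ℤ) ∣ (p : ℤ) + s)).card : ℝ) := by
  obtain ⟨B, c0, m0, hB2, hc0, hcrw⟩ := crw
  obtain ⟨x2, hds⟩ := dsU
  have hBr : (2 : ℝ) ≤ B := by exact_mod_cast hB2
  have hB0 : (0 : ℝ) < B := by linarith
  have hlB : 0 < Real.log B := Real.log_pos (by linarith)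
  obtain ⟨C', hC'⟩ : ∃ C' : ℝ, C' = m0 + 3 / c0 + A + 2 := ⟨_, rfl⟩
  have h3c : 0 < 3 / c0 := by positivity
  have hm00 : (0 : ℝ) ≤ m0 := Nat.cast_nonneg _
  have hC'1 : 1 ≤ C' := by rw [hC']; linarith
  obtain ⟨C, hC⟩ : ∃ C : ℝ, C = 10 * Real.log B * C' + 3 := ⟨_, rfl⟩
  have hC0 : 3 ≤ C := by
    rw [hC]
    have : 0 ≤ 10 * Real.log B * C' := by positivity
    linarith
  obtain ⟨c, hc⟩ : ∃ c : ℝ, c = min (1 / (2 * C)) (1 / (512 * C' * (Real.log B + 1))) := ⟨_, rfl⟩
  have hc00 : 0 < c := by rw [hc]; positivity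
  have hc1 : c ≤ 1 / (2 * C) := by rw [hc]; exact min_le_left _ _
  have hc2 : c ≤ 1 / (512 * C' * (Real.log B + 1)) := by rw [hc]; exact min_le_right _ _
  have hc4 : c ≤ 1 / 6 := by
    refine hc1.trans ?_
    rw [div_le_div_iff₀ (by positivity) (by norm_num)]
    linarith
  refine ⟨c, C, max x2 (Real.exp 64), hc00, by linarith, ?_, ?_⟩
  · calc c * C ≤ 1 / (2 * C) * C := mul_le_mul_of_nonneg_right hc1 (by linarith)
      _ = 1 / 2 := by field_simp
  intro x hx lam hlam1 hlam2 S hSc hS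
  have hx2 : x2 ≤ x := (le_max_left _ _).trans hx
  have hx3 : Real.exp 64 ≤ x := (le_max_right _ _).trans hx
  have hx0 : 0 < x := (Real.exp_pos _).trans_le hx3
  have hL64 : 64 ≤ Real.log x := (Real.le_log_iff_exp_le hx0).2 hx3
  obtain ⟨L, hL⟩ : ∃ L : ℝ, L = Real.log x := ⟨_, rfl⟩
  rw [← hL] at hL64 hlam2 hSc ⊢
  have hL0 : 0 < L := by linarith
  have hlL : 1 ≤ Real.log L := by
    rw [Real.le_log_iff_exp_le hL0]
    linarith [Real.exp_one_lt_d9]
  have hx12 : 65 ≤ x := by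
    have := Real.add_one_le_exp (64 : ℝ)
    linarith
  have hx1 : 1 ≤ x := by linarith
  -- the number of scales
  obtain ⟨m, hm⟩ : ∃ m : ℕ, m = m0 + 1 + ⌈(3 / c0 + A) * lam⌉₊ := ⟨_, rfl⟩
  have hm1 : (3 / c0 + A) * lam ≤ m := by
    rw [hm]
    push_cast
    have := Nat.le_ceil ((3 / c0 + A) * lam)
    linarith
  have hm2 : (m : ℝ) ≤ C' * lam := by
    rw [hm, hC']
    push_cast
    have h1 := (Nat.ceil_lt_add_one (show 0 ≤ (3 / c0 + A) * lam by positivity)).le
    have h2 : (m0 : ℝ) + 2 ≤ (m0 + 2) * lam := le_mul_of_one_le_right (by linarith) hlam1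
    linarith
  have hmpos : 1 ≤ m := by omega
  have hm3 : 512 * Real.log B * m ≤ Real.log L := by
    have h1 : 512 * Real.log B * (m : ℝ) ≤ 512 * Real.log B * (C' * (c * Real.log L)) := by
      refine mul_le_mul_of_nonneg_left (hm2.trans ?_) (by positivity)
      exact mul_le_mul_of_nonneg_left hlam2 (by linarith)
    refine h1.trans ?_
    have h2 : 512 * Real.log B * C' * c ≤ 1 := by
      calc 512 * Real.log B * C' * c ≤ 512 * Real.log B * C' * (1 / (512 * C' * (Real.log B + 1))) :=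
            mul_le_mul_of_nonneg_left hc2 (by positivity)
        _ = Real.log B / (Real.log B + 1) := by
            field_simp
        _ ≤ 1 := by
            rw [div_le_one (by positivity)]
            linarith
    calc 512 * Real.log B * (C' * (c * Real.log L)) = (512 * Real.log B * C' * c) * Real.log L := by ring
      _ ≤ 1 * Real.log L := mul_le_mul_of_nonneg_right h2 (by linarith)
      _ = Real.log L := one_mul _
  have hm4 : (m : ℝ) ≤ Real.log L := by
    have h1 : (m : ℝ) ≤ C' * (c * Real.log L) := hm2.trans (mul_le_mul_of_nonneg_left hlam2 (by linarith))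
    have h2 : C' * c ≤ 1 := by
      calc C' * c ≤ C' * (1 / (512 * C' * (Real.log B + 1))) := mul_le_mul_of_nonneg_left hc2 (by linarith)
        _ = 1 / (512 * (Real.log B + 1)) := by
            field_simp
        _ ≤ 1 := by
            rw [div_le_one (by positivity)]
            linarith
    calc (m : ℝ) ≤ C' * (c * Real.log L) := h1
      _ = (C' * c) * Real.log L := by ring
      _ ≤ 1 * Real.log L := mul_le_mul_of_nonneg_right h2 (by linarith)
      _ = Real.log L := one_mul _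
  have hBL : (B : ℝ) ^ (512 * m) ≤ Real.log x := by
    rw [← hL, ← Real.log_le_log_iff (by positivity) hL0, Real.log_pow]
    push_cast
    linarith
  obtain ⟨P, hP, hPx, hds'⟩ := hds x hx2
  -- the parameters
  obtain ⟨k, hk⟩ : ∃ k : ℕ, k = ⌈x / 3⌉₊ := ⟨_, rfl⟩
  have hk1 : x / 3 ≤ (k : ℝ) := by rw [hk]; exact Nat.le_ceil _
  have hk2 : (k : ℝ) ≤ x / 3 + 1 := by rw [hk]; exact (Nat.ceil_lt_add_one (by positivity)).le
  obtain ⟨w, hw⟩ : ∃ w : ℕ, w = ⌊L ^ 3⌋₊ := ⟨_, rfl⟩
  have hw1 : (w : ℝ) ≤ L ^ 3 := by rw [hw]; exact Nat.floor_le (by positivity)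
  have hw2 : L ^ 3 - 1 ≤ (w : ℝ) := by
    rw [hw]
    have := Nat.lt_floor_add_one (L ^ 3)
    linarith
  have hwL : L ≤ (w : ℝ) := by
    refine le_trans ?_ hw2
    nlinarith [pow_pos hL0 2]
  obtain ⟨Y, E, hDs, hYl, hEr⟩ := hds' 1 w k le_rfl (by
      push_cast
      exact Real.one_le_exp (Real.rpow_nonneg (by rw [← hL]; exact hL0.le) _))
    (fun h => hP.one_lt.ne' (Nat.dvd_one.1 h)) (fun p hp h => absurd (Nat.dvd_one.1 h) hp.one_lt.ne') hk1
    (by linarith) (Nat.coprime_one_right k)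
  have hYx : x / L ≤ 8 * Y := by
    have h1 : x / 8 ≤ (⌊x / (4 * ((1 : ℕ) : ℝ))⌋₊ : ℝ) := by
      have h2 := Nat.lt_floor_add_one (x / (4 * ((1 : ℕ) : ℝ)))
      push_cast at h2 ⊢
      linarith
    have h3 : x / 8 / L ≤ Y := by
      refine le_trans ?_ hYl
      rw [Nat.totient_one, ← hL]
      push_cast at h1 ⊢
      rw [one_mul, one_mul]
      exact div_le_div_of_nonneg_right h1 hL0.le
    have h4 : x / L = 8 * (x / 8 / L) := by ring
    rw [h4]
    linarith
  have hY0 : 0 < Y := by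
    have : 0 < x / L := by positivity
    linarith
  -- the forms
  have hs : ∀ s ∈ S, (1 : ℤ) ≤ (k : ℤ) + s := by
    intro s hs
    have h1 := (hS s hs).2.1
    have h2 : (0 : ℝ) < (((k : ℤ) + s : ℤ) : ℝ) := by
      push_cast
      linarith
    have h3 : (0 : ℤ) < (k : ℤ) + s := by exact_mod_cast h2
    omega
  obtain ⟨cc, hcc⟩ : ∃ cc : Option {s // s ∈ S} → ℕ, cc = fun o => match o with
    | none => k
    | some s => ((k : ℤ) + s).toNat := ⟨_, rfl⟩
  have hcn : cc none = k := by rw [hcc]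
  have hcs : ∀ s : {s // s ∈ S}, ((cc (some s) : ℕ) : ℤ) = (k : ℤ) + s := by
    intro s
    rw [hcc]
    exact Int.toNat_of_nonneg (by have := hs s s.2; omega)
  have hinj : Function.Injective cc := by
    intro a b hab
    have hab' : ((cc a : ℕ) : ℤ) = ((cc b : ℕ) : ℤ) := by rw [hab]
    rcases a with _ | a
    · rcases b with _ | b
      · rfl
      · exfalso
        rw [hcn, hcs b] at hab'
        exact (hS b b.2).1 (by omega)
    · rcases b with _ | b
      · exfalso
        rw [hcn, hcs a] at hab'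
        exact (hS a a.2).1 (by omega)
      · rw [hcs a, hcs b] at hab'
        have : (a : ℤ) = b := by omega
        rw [Subtype.ext this]
  obtain ⟨V, hV⟩ : ∃ V : ℕ, V = P * H82LW.WW cc := ⟨_, rfl⟩
  have hWpos := H82LW.WW_pos hinj
  have hV1 : 1 ≤ V := by rw [hV]; exact Nat.mul_pos hP.pos hWpos
  have hPV : P ∣ V := by rw [hV]; exact Nat.dvd_mul_right _ _
  have hdV : ∀ (i j : Option {s // s ∈ S}), i ≠ j → ∀ p : ℕ, (p : ℤ) ∣ (cc i : ℤ) - cc j → p ∣ V := by
    intro i j hij p hd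
    rw [hV]
    exact (H82LW.WW_dvd cc hij hd).mul_left P
  -- the size of the shifts
  have hxm1 : x ≤ x ^ m := le_self_pow₀ hx1 (by omega)
  have hxs : ∀ s ∈ S, ((s : ℤ) : ℝ) ≤ x ^ m := by
    intro s hs'
    refine (hS s hs').2.2.trans ?_
    rw [← Real.rpow_natCast x m]
    refine Real.rpow_le_rpow_of_exponent_le hx1 ?_
    have h1 : 0 ≤ 3 / c0 * lam := by positivity
    linarith
  have hbig0 : ∀ i, (cc i : ℝ) + x / 4 ≤ x ^ (m + 1) := by
    have hx65 : x ^ (m + 1) = x * x ^ m := by ring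
    intro i
    rw [hx65]
    rcases i with _ | s
    · rw [hcn]
      have h1 : x * x ≤ x * x ^ m := mul_le_mul_of_nonneg_left hxm1 hx0.le
      nlinarith
    · have h5 : ((cc (some s) : ℕ) : ℝ) = (k : ℝ) + ((s : ℤ) : ℝ) := by exact_mod_cast hcs s
      rw [h5]
      have h6 := hxs s s.2
      nlinarith
  have hbig : ∀ i, (cc i : ℝ) ≤ Real.exp (2 * (L * Real.log L)) := by
    intro i
    have h1 : (cc i : ℝ) ≤ x ^ (m + 1) := by
      have := hbig0 i
      linarith
    refine h1.trans ?_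
    have h2 : x ^ (m + 1) = Real.exp (((m : ℝ) + 1) * L) := by
      have := Real.exp_nat_mul (Real.log x) (m + 1)
      rw [Real.exp_log hx0] at this
      rw [← this, hL]
      push_cast
      rfl
    rw [h2]
    refine Real.exp_le_exp.2 ?_
    have h3 : ((m : ℝ) + 1) * L ≤ (Real.log L + Real.log L) * L := mul_le_mul_of_nonneg_right (by linarith) hL0.le
    linarith
  have hcard : Fintype.card (Option {s // s ∈ S}) = S.card + 1 := by
    rw [Fintype.card_option, Fintype.card_coe]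
  have hScL : (S.card : ℝ) ≤ 1 / 4 * L := by
    refine hSc.trans ?_
    rw [div_le_iff₀ (by linarith)]
    calc lam * L ≤ (c * Real.log L) * L := mul_le_mul_of_nonneg_right hlam2 hL0.le
      _ ≤ (1 / 4 * Real.log L) * L := by
          refine mul_le_mul_of_nonneg_right (mul_le_mul_of_nonneg_right (by linarith) (by linarith)) hL0.le
      _ = 1 / 4 * L * Real.log L := by ring
  have hVw : Real.log V ≤ 1 / 2 * ((w : ℝ) * Real.log w) := by
    have h1 := H82LW.WW_log hinj (Y := Real.exp (2 * (L * Real.log L))) (Real.one_le_exp (by positivity)) hbig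
    rw [Real.log_exp, hcard] at h1
    have h2 : Real.log V = Real.log P + Real.log (H82LW.WW cc) := by
      rw [hV]
      push_cast
      have h3 : (P : ℝ) ≠ 0 := by exact_mod_cast hP.pos.ne'
      have h4 : ((H82LW.WW cc : ℕ) : ℝ) ≠ 0 := by
        have : (H82LW.WW cc) ≠ 0 := by omega
        exact_mod_cast this
      exact Real.log_mul h3 h4
    have h3 : Real.log P ≤ L := by
      have h4 : Real.log P ≤ L ^ (1 / 20 : ℝ) := by
        rw [Real.log_le_iff_le_exp (by exact_mod_cast hP.pos), hL]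
        exact hPx
      refine h4.trans ?_
      calc L ^ (1 / 20 : ℝ) ≤ L ^ (1 : ℝ) := Real.rpow_le_rpow_of_exponent_le (by linarith) (by norm_num)
        _ = L := Real.rpow_one L
    refine fi_num (K := ((S.card + 1 : ℕ) : ℝ)) hL64 hlL hw2 (Nat.cast_nonneg _) ?_ (by rw [h2]; linarith)
    push_cast
    linarith
  have hF : FwV V w 1 (some k) (fun s : {s // s ∈ S} => cc (some s)) :=
    { pos := le_rfl
      pr := fun p hp h => absurd (Nat.dvd_one.1 h) hp.one_lt.ne'
      inj := fun a b hab => Option.some.inj (hinj hab)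
      df := fun i j hij p _ _ hd => hdV (some i) (some j) (fun h => hij (Option.some.inj h)) p hd
      cpos := fun s => by
        have h1 := hcs s
        have h2 := hs s s.2
        have h3 : (1 : ℤ) ≤ ((cc (some s) : ℕ) : ℤ) := by rw [h1]; exact h2
        exact_mod_cast h3
      df0 := fun k' hk' s p _ _ hd => by
        have hkk : k = k' := Option.some.inj hk'
        refine hdV (some s) none (by simp) p ?_
        rw [hcn, hkk]
        exact hd }
  have hTs : ∀ t ∈ (range ⌊x / (4 * ((1 : ℕ) : ℝ))⌋₊).filter (fun t => (1 * t + k).Prime), (t : ℝ) ≤ x / 4 := by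
    intro t ht
    rw [Finset.mem_filter, Finset.mem_range] at ht
    have h1 : (t : ℝ) ≤ (⌊x / (4 * ((1 : ℕ) : ℝ))⌋₊ : ℝ) := by exact_mod_cast ht.1.le
    refine h1.trans ((Nat.floor_le (by positivity)).trans ?_)
    push_cast
    linarith
  have hmain := hcrw m (by omega) x hx1 hBL {s // s ∈ S} V w 1 k
    (fun s : {s // s ∈ S} => cc (some s)) ((range ⌊x / (4 * ((1 : ℕ) : ℝ))⌋₊).filter (fun t => (1 * t + k).Prime)) Y E (by
      rw [Fintype.card_coe]
      have h1 : Real.log w ≤ 3 * Real.log L := by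
        have h2 : Real.log w ≤ Real.log (L ^ 3) := Real.log_le_log (by linarith) hw1
        rw [Real.log_pow] at h2
        push_cast at h2
        exact h2
      have h2 : (S.card : ℝ) * Real.log w ≤ lam * L / Real.log L * (3 * Real.log L) :=
        mul_le_mul hSc h1 (Real.log_natCast_nonneg w) (by positivity)
      have h3 : lam * L / Real.log L * (3 * Real.log L) = 3 * lam * L := by field_simp
      rw [h3] at h2
      refine h2.trans ?_
      rw [← hL]
      refine mul_le_mul_of_nonneg_right ?_ hL0.le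
      have h4 : 3 / c0 * lam ≤ m := by
        have : 0 ≤ A * lam := by positivity
        linarith
      have h5 := mul_le_mul_of_nonneg_left h4 hc0.le
      have h6 : c0 * (3 / c0 * lam) = 3 * lam := by field_simp
      linarith) hV1 hVw (by rw [← hL]; exact hwL) (by rw [← hL]; exact hw1) hF (dsv_of hP hPV hDs) hY0 (by
      intro C hC1 hC2
      exact (ev_le hP hPV (by linarith) hDs.E_nonneg).trans (hEr C hC1 hC2)) (by
      intro i t ht
      have h1 := hTs t ht
      have h2 := hbig0 (some i)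
      push_cast
      rw [one_mul]
      linarith)
  -- counting
  obtain ⟨G, hG⟩ : ∃ G : Finset ℕ, G = ((range ⌊x / (4 * ((1 : ℕ) : ℝ))⌋₊).filter (fun t => (1 * t + k).Prime)).filter
    (fun t => ∀ i : {s // s ∈ S}, ∃ p : ℕ, p.Prime ∧ (p : ℝ) ≤ x ^ (1 / 64 : ℝ) ∧ p ∣ 1 * t + cc (some i)) := ⟨_, rfl⟩
  rw [← hG] at hmain
  have hinjG : (G.card : ℝ) ≤ (((Finset.Icc 1 ⌊x⌋₊).filter (fun p : ℕ => p.Prime ∧ x / 3 ≤ (p : ℝ) ∧
        ∀ s ∈ S, ∃ q : ℕ, q.Prime ∧ (q : ℝ) ≤ x ^ (1 / 64 : ℝ) ∧ (q : ℤ) ∣ (p : ℤ) + s)).card : ℝ) := by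
    refine Nat.cast_le.2 (Finset.card_le_card_of_injOn (fun t => t + k) ?_ (fun a _ b _ h => by simpa using h))
    intro t ht
    rw [Finset.mem_coe, hG, Finset.mem_filter] at ht
    obtain ⟨ht1, ht2⟩ := ht
    have ht3 := hTs t ht1
    rw [Finset.mem_filter, Finset.mem_range, one_mul] at ht1
    rw [Finset.mem_coe, Finset.mem_filter, Finset.mem_Icc]
    have h0 : (0 : ℝ) ≤ t := Nat.cast_nonneg t
    refine ⟨⟨ht1.2.one_lt.le, Nat.le_floor (by push_cast; linarith)⟩, ht1.2, by push_cast; linarith, ?_⟩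
    intro s hs'
    obtain ⟨q, hq1, hq2, hq3⟩ := ht2 ⟨s, hs'⟩
    refine ⟨q, hq1, hq2, ?_⟩
    have h1 : (q : ℤ) ∣ ((1 * t + cc (some ⟨s, hs'⟩) : ℕ) : ℤ) := by exact_mod_cast hq3
    push_cast at h1 ⊢
    rw [hcs ⟨s, hs'⟩] at h1
    have e : (1 : ℤ) * t + (k + s) = t + k + s := by ring
    rwa [e] at h1
  have hexp : 8 * Real.exp ((B : ℝ) ^ (10 * m)) ≤ Real.exp (Real.exp (C * lam)) := by
    have h1 : (8 : ℝ) ≤ Real.exp 3 := by
      have h2 : (2.7 : ℝ) ≤ Real.exp 1 := by
        have := Real.exp_one_gt_d9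
        linarith
      have h3 : Real.exp 3 = Real.exp 1 ^ 3 := by rw [← Real.exp_nat_mul]; norm_num
      rw [h3]
      calc (8 : ℝ) ≤ 2.7 ^ 3 := by norm_num
        _ ≤ Real.exp 1 ^ 3 := pow_le_pow_left₀ (by norm_num) h2 3
    have h4 : (B : ℝ) ^ (10 * m) ≤ Real.exp (10 * Real.log B * (C' * lam)) := by
      have h5 := Real.exp_nat_mul (Real.log B) (10 * m)
      rw [Real.exp_log hB0] at h5
      rw [← h5]
      refine Real.exp_le_exp.2 ?_
      push_cast
      have h6 := mul_le_mul_of_nonneg_left hm2 (by positivity : (0 : ℝ) ≤ 10 * Real.log B)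
      linarith
    obtain ⟨F, hFd⟩ : ∃ F : ℝ, F = Real.exp (10 * Real.log B * (C' * lam)) := ⟨_, rfl⟩
    have hF1 : 1 ≤ F := by rw [hFd]; exact Real.one_le_exp (by positivity)
    have h7 : F + 3 ≤ Real.exp (C * lam) := by
      have h8 : Real.exp (C * lam) = F * Real.exp (3 * lam) := by
        rw [hFd, ← Real.exp_add, hC]
        congr 1
        ring
      have h9 : 4 ≤ Real.exp (3 * lam) := by
        have := Real.add_one_le_exp (3 * lam)
        linarith
      rw [h8]
      nlinarith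
    calc 8 * Real.exp ((B : ℝ) ^ (10 * m)) ≤ Real.exp 3 * Real.exp F :=
          mul_le_mul h1 (Real.exp_le_exp.2 (by rw [hFd]; exact h4)) (Real.exp_pos _).le (Real.exp_pos _).le
      _ = Real.exp (3 + F) := by rw [Real.exp_add]
      _ ≤ Real.exp (Real.exp (C * lam)) := Real.exp_le_exp.2 (by linarith)
  have hG0 : (0 : ℝ) ≤ (G.card : ℝ) := Nat.cast_nonneg _
  calc x / L ≤ 8 * Y := hYx
    _ ≤ 8 * (Real.exp ((B : ℝ) ^ (10 * m)) * (G.card : ℝ)) := by linarith
    _ = (8 * Real.exp ((B : ℝ) ^ (10 * m))) * (G.card : ℝ) := by ring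
    _ ≤ Real.exp (Real.exp (C * lam)) * _ := mul_le_mul hexp hinjG hG0 (Real.exp_pos _).le

end H78TP
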